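import Mathlib
import Pool.Agent.Lib.MP_89bcae_ag.Zp.Defs

/-!
# The cyclic coverings of the rational surfaces branched along an arbitrary irreducible curve, in all charts
-/

open Polynomial

open scoped Classical

namespace Pool.Agent.Lib.MP_89bcae_ag.Zm

open Pool.Agent.Lib.MP_89bcae_ag.Zs (ext powers)
open Pool.Agent.Lib.MP_89bcae_ag.Zp (IsSmoothAt)

/-- The polynomial `f` is monic of degree prime to `ℓ` in `x`, irreducible over `F(t)` and separable in `x`. -/
structure IsBranch (ℓ : ℕ) {k : Type} (F : Type) [Field k] [Field F] [Algebra k F] (f : k[X][X]) : Prop where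
  monic : f.Monic
  coprime : f.natDegree.Coprime ℓ
  separable : derivative f ≠ 0
  irreducible : Irreducible (ext F f)

/-- The functions `τ`, `ξ` and the polynomial `φ(τ, X)` form a chart: the function `τ` is `t - s`, with `s` in `F`, or `1 / t`,
and there are functions `r`, `w`, `z` in `F(t)`, with `w` and `z` nonzero, such that `x = r + w ξ` and
`f(t, r + w X) = z ^ ℓ φ(τ, X)`; moreover `φ(0, X)` is nonzero. So the surface with the equation `y ^ ℓ = f(t, x)` has
also, in the coordinates `τ`, `ξ` of another plane, the equation `y ^ ℓ = φ(τ, ξ)`, and the line `τ = 0` is not in the branch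
curve. -/
def IsChart (ℓ : ℕ) {k : Type} (F : Type) {E : Type} [Field k] [Field F] [Algebra k F] [Field E]
    [Algebra F E] (f : k[X][X]) (t x : E) (φ : F[X][X]) (τ ξ : E) : Prop :=
  ((∃ s : F, τ = t - algebraMap F E s) ∨ τ = t⁻¹) ∧ φ.map (evalRingHom 0) ≠ 0 ∧
    ∃ r ∈ IntermediateField.adjoin F {t}, ∃ w ∈ IntermediateField.adjoin F {t}, ∃ z ∈ IntermediateField.adjoin F {t},
      w ≠ 0 ∧ z ≠ 0 ∧ x = r + w * ξ ∧
        ((ext F f).map (aeval t : F[X] →ₐ[F] E).toRingHom).comp (C r + C w * X) =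
          C (z ^ ℓ) * φ.map (aeval τ : F[X] →ₐ[F] E).toRingHom

/-- Let `E` be the function field of the curve `B` defined by `f`. The group of the elements `u` of `E` whose
norm to `F(t)` is an `ℓ`-th power, and such that for all charts there is an integer `c`, equal to `0` if the
degree in `X` of `φ(0, X)` is that of `f`, such that the value of `u τ ^ (- c)` is divisible by `ℓ` for all the valuation
rings of `E` which contain `F` and are centred at a smooth point `(0, r)` of the curve `φ(τ, ξ) = 0`. -/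
def unramified (ℓ : ℕ) {k : Type} (F : Type) {E : Type} [Field k] [Field F] [Algebra k F] [Field E]
    [Algebra F E] (f : k[X][X]) (t x : E) : Subgroup Eˣ where
  carrier := {u | (∃ w : IntermediateField.adjoin F {t},
      Algebra.norm (IntermediateField.adjoin F {t}) (u : E) = w ^ ℓ) ∧
    ∀ (φ : F[X][X]) (τ ξ : E), IsChart ℓ F f t x φ τ ξ →
      ∃ c : ℤ, ((φ.map (evalRingHom 0)).natDegree = f.natDegree → c = 0) ∧
        ∀ O : ValuationSubring E, (∀ a : F, algebraMap F E a ∈ O) → ∀ r : F, O.valuation τ < 1 →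
          O.valuation (ξ - algebraMap F E r) < 1 → IsSmoothAt φ 0 r →
            ∃ w : Eˣ, O.valuation (u : E) = O.valuation (τ ^ c * (w : E) ^ ℓ)}
  one_mem' := by
    refine ⟨⟨1, by simp⟩, fun φ τ ξ _ => ⟨0, fun _ => rfl, fun O _ r _ _ _ => ⟨1, by simp⟩⟩⟩
  mul_mem' := by
    rintro a b ⟨⟨w₁, h₁⟩, ha⟩ ⟨⟨w₂, h₂⟩, hb⟩
    refine ⟨⟨w₁ * w₂, by rw [Units.val_mul, map_mul, h₁, h₂, mul_pow]⟩, fun φ τ ξ h => ?_⟩
    obtain ⟨c, hc, hc'⟩ := ha φ τ ξ h
    obtain ⟨d, hd, hd'⟩ := hb φ τ ξ h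
    refine ⟨c + d, fun h => by rw [hc h, hd h, add_zero], fun O hO r h1 h2 h3 => ?_⟩
    obtain ⟨w, hw⟩ := hc' O hO r h1 h2 h3
    obtain ⟨w', hw'⟩ := hd' O hO r h1 h2 h3
    have h0 : ∀ (g y : Eˣ) (n : ℤ), O.valuation (g : E) = O.valuation (τ ^ n * (y : E) ^ ℓ) → τ = 0 → n = 0 := by
      intro g y n hg hτ
      by_contra hn
      rw [hτ, zero_zpow n hn, zero_mul, map_zero, map_eq_zero] at hg
      exact g.ne_zero hg
    have hτ : τ ^ (c + d) = τ ^ c * τ ^ d := by
      by_cases hτ : τ = 0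
      · rw [h0 a w c hw hτ, h0 b w' d hw' hτ, add_zero, zpow_zero, one_mul]
      · exact zpow_add₀ hτ c d
    refine ⟨w * w', ?_⟩
    rw [Units.val_mul, Units.val_mul, map_mul, hw, hw', ← map_mul, hτ, mul_pow]
    congr 1
    ring
  inv_mem' := by
    rintro a ⟨⟨w₁, h₁⟩, ha⟩
    refine ⟨⟨w₁⁻¹, ?_⟩, fun φ τ ξ h => ?_⟩
    · have h2 : Algebra.norm (IntermediateField.adjoin F {t}) ((a⁻¹ : Eˣ) : E) *
          Algebra.norm (IntermediateField.adjoin F {t}) (a : E) = 1 := by
        rw [← map_mul, Units.inv_mul, map_one]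
      rw [h₁] at h2
      rw [inv_pow]
      exact eq_inv_of_mul_eq_one_left h2
    · obtain ⟨c, hc, hc'⟩ := ha φ τ ξ h
      refine ⟨-c, fun h => by rw [hc h, neg_zero], fun O hO r h1 h2 h3 => ?_⟩
      obtain ⟨w, hw⟩ := hc' O hO r h1 h2 h3
      refine ⟨w⁻¹, ?_⟩
      rw [Units.val_inv_eq_inv_val, Units.val_inv_eq_inv_val, map_inv₀, hw, ← map_inv₀, mul_inv, inv_pow, zpow_neg]

end Pool.Agent.Lib.MP_89bcae_ag.Zm
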