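import Mathlib
import Pool.Agent.Lib.MP_89bcae_ag.Zp.Loc
import Pool.Agent.Lib.MP_89bcae_ag.Zm.Defs

/-!
# The local form of the cochains in the charts `x = ρ + a x'`
-/

attribute [local instance 100000] Pool.Agent.Lib.MP_89bcae_ag.Brt.tffFields
attribute [local instance 100000] Pool.Agent.Lib.MP_89bcae_ag.Wt.ifrNF Pool.Agent.Lib.MP_89bcae_ag.Wt.iddNF

open Polynomial IsDedekindDomain

open scoped Classical

namespace Pool.Agent.Lib.MP_89bcae_ag.Zm

open Pool.Agent.Lib.MP_89bcae_ag.Wt Pool.Agent.Lib.MP_89bcae_ag.Wt.Lns Pool.Agent.Lib.MP_89bcae_ag.Bra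
  Pool.Agent.Lib.MP_89bcae_ag.Brt

universe u

/-- `x = a x' + r`, `y = b y'` maps `y ^ N = f(x)` to `y' ^ N = f'(x')`. -/
structure Aff (N : ℕ) {A : Type u} [Field A] (f f' : A[X]) (a b r : A) : Prop where
  a_ne : a ≠ 0
  b_ne : b ≠ 0
  eq : C (b ^ N) * f' = f.comp (C a * X + C r)

section

variable {F M : Type} [Field F] [Field M]

/-- The roots near `r`. -/
noncomputable def nr (F : Type) [Field F] [Algebra F M] (v : AbsoluteValue M ℝ) (p : M[X]) (r : F) : Finset M :=
  p.roots.toFinset.filter fun θ => v (θ - algebraMap F M r) < 1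

/-- The roots at infinity. -/
noncomputable def nrI (v : AbsoluteValue M ℝ) (p : M[X]) : Finset M :=
  p.roots.toFinset.filter fun θ => 1 < v θ

/-- The roots near `r` in the coordinate `(x - ρ) / A`. -/
noncomputable def nearA [Algebra F M] (v : AbsoluteValue M ℝ) (A ρ : M) (p : M[X]) (r : F) : Finset M :=
  p.roots.toFinset.filter fun θ => v ((θ - ρ) / A - algebraMap F M r) < 1

end

section

variable {F L Ω K M : Type} [Field F] [Field L] [Algebra F[X] L] [Field Ω] [Algebra L Ω] [Field K] [Field M]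
  [Algebra K M] {ℓ : ℕ}

variable (ℓ) in

/-- The local form at a place, in the chart `x = ρ + a x'`: `c` is the sum of a coboundary and of divisors supported at the
ramification points, whose degree is divisible by `ℓ` near each point. -/
def LTm (F : Type) [Field F] [Algebra F M] (f : L[X]) (i : L →+* K) (j : Ω →+* M) (v : AbsoluteValue M ℝ) (a ρ : L)
    [IsGood ℓ ((f.map i).map (algebraMap K M))] (c : (Ω ≃ₐ[L] Ω) → JacOver ℓ f Ω) : Prop :=
  ∃ Q : Jac ℓ ((f.map i).map (algebraMap K M)), ∀ (g : M ≃ₐ[K] M) (g' : Ω ≃ₐ[L] Ω), (∀ x, j (g' x) = g (j x)) →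
    ∀ hpol : (f.map (algebraMap L Ω)).map j = (f.map i).map (algebraMap K M),
    ∃ e : M → ℤ, jacMap ℓ j hpol (c g') + (rm e : Jac ℓ ((f.map i).map (algebraMap K M))) =
        symJ (gs (f.map i) g) Q - Q ∧
      ∀ r : F, (ℓ : ℤ) ∣ ∑ θ ∈ nearA v (algebraMap K M (i a)) (algebraMap K M (i ρ))
        ((f.map i).map (algebraMap K M)) r, e θ

end

end Pool.Agent.Lib.MP_89bcae_ag.Zm
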