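import Mathlib
import Pool.Agent.Lib.MP_89bcae_ag.Zm.Loc

/-!
# The local divisibility lemma, in an arbitrary chart
-/

attribute [local instance 100000] Pool.Agent.Lib.MP_89bcae_ag.Brt.tffFields
attribute [local instance 100000] Pool.Agent.Lib.MP_89bcae_ag.Wt.ifrNF Pool.Agent.Lib.MP_89bcae_ag.Wt.iddNF

open Polynomial IsDedekindDomain

open scoped Classical

namespace Pool.Agent.Lib.MP_89bcae_ag.Zm

open Pool.Agent.Lib.MP_89bcae_ag.Wt Pool.Agent.Lib.MP_89bcae_ag.Wt.Lns Pool.Agent.Lib.MP_89bcae_ag.Bra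
  Pool.Agent.Lib.MP_89bcae_ag.Brt

open Pool.Agent.Lib.MP_89bcae_ag.Zs (lf_fixed)

section Val

variable {M : Type} [Field M] {v : AbsoluteValue M ℝ}

private lemma l1_comm (x y : M) : v (x - y) = v (y - x) := by
  rw [← neg_sub, v.map_neg]

private lemma l1_sub (hna : ∀ x y, v (x + y) ≤ max (v x) (v y)) {x y : M} (h : v y < v x) :
    v (x - y) = v x := by
  apply le_antisymm
  · have h1 := hna x (-y)
    rw [← sub_eq_add_neg, v.map_neg] at h1
    exact h1.trans (max_le le_rfl h.le)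
  · have h1 := hna (x - y) y
    rw [sub_add_cancel] at h1
    rcases le_max_iff.1 h1 with h2 | h2
    · exact h2
    · exact absurd h2 (not_le.2 h)

private lemma l1_sub' (hna : ∀ x y, v (x + y) ≤ max (v x) (v y)) {x y : M} (h : v x < v y) :
    v (x - y) = v y := by
  rw [l1_comm, l1_sub hna h]

/-- The value of a product over a divisor. -/
private lemma l1_v_prod {ℓ : ℕ} {f : M[X]} (D : Pt ℓ f →₀ ℤ) (φ : Pt ℓ f → M) :
    v (D.prod fun P n => φ P ^ n) = ∏ P ∈ D.support, v (φ P) ^ D P := by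
  rw [Finsupp.prod, map_prod]
  refine Finset.prod_congr rfl ?_
  intro P _
  rw [map_zpow₀]

private lemma l1_prod_fixed {ℓ : ℕ} {f : M[X]} (σ : Sym f) (D : Pt ℓ f →₀ ℤ)
    (hD : D.mapDomain (Pt.sym σ) = D) (φ : Pt ℓ f → M)
    (hφ : ∀ P, (σ : M ≃+* M) (φ P) = φ (P.sym σ)) :
    (σ : M ≃+* M) (D.prod fun P n => φ P ^ n) = D.prod fun P n => φ P ^ n := by
  conv_rhs => rw [← hD, Finsupp.prod_mapDomain_index_inj (U01_sym_inj σ)]
  rw [map_finsuppProd]
  refine Finsupp.prod_congr ?_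
  intro P _
  rw [map_zpow₀, hφ]

end Val

section Abs

variable {q ℓ : ℕ} {ϖ : ℝ}

/-- Division by a power of the uniformizer. -/
theorem val_shift (hq : q.Coprime ℓ) (h0 : 0 < ϖ) {W : ℝ} (hW : Sup.Val q ϖ W) :
    ∃ c : ℤ, Sup.Val q (ϖ ^ ℓ) (W * ϖ ^ (-c)) := by
  obtain ⟨a, m, h⟩ := hW
  have h1 : IsCoprime ((q ^ a : ℕ) : ℤ) (ℓ : ℤ) := Nat.isCoprime_iff_coprime.2 (Nat.Coprime.pow_left a hq)
  obtain ⟨x, y, hxy⟩ := h1
  refine ⟨x * m, a, y * m, ?_⟩
  have h2 : (ϖ ^ (-(x * m))) ^ q ^ a = ϖ ^ (-(x * m) * ((q ^ a : ℕ) : ℤ)) := by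
    rw [zpow_mul, zpow_natCast]
  have h3 : (ϖ ^ ℓ) ^ (y * m) = ϖ ^ ((ℓ : ℤ) * (y * m)) := by
    rw [zpow_mul ϖ (ℓ : ℤ) (y * m), zpow_natCast]
  rw [mul_pow, h, h2, h3, ← zpow_add₀ h0.ne']
  congr 1
  linear_combination (-m) * hxy

/-- The common exponent. -/
theorem val_common (hℓ : ℓ.Prime) (hq : q.Coprime ℓ) (h0 : 0 < ϖ) (h1 : ϖ < 1) {ι : Type} (a : ι → ℝ)
    (n : ι → ℕ) (ha0 : ∀ r, 0 < a r) (ha : ∀ r, Sup.Val q ϖ (a r))
    (hn : ∀ r, ℓ ∣ n r → Sup.Val q (ϖ ^ ℓ) (a r))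
    (hrel : ∀ r r', Sup.Val q (ϖ ^ ℓ) (a r ^ n r' * (a r' ^ n r)⁻¹)) :
    ∃ c : ℤ, ∀ r, Sup.Val q (ϖ ^ ℓ) (a r * ϖ ^ (-(c * n r))) := by
  by_cases hall : ∀ r, ℓ ∣ n r
  · refine ⟨0, fun r => ?_⟩
    rw [zero_mul, neg_zero, zpow_zero, mul_one]
    exact hn r (hall r)
  push Not at hall
  obtain ⟨r₀, hr₀⟩ := hall
  have hcop : (n r₀).Coprime ℓ := ((Nat.Prime.coprime_iff_not_dvd hℓ).2 hr₀).symm
  obtain ⟨d, hd⟩ := val_shift hq h0 (ha r₀)
  have h2 : IsCoprime (n r₀ : ℤ) (ℓ : ℤ) := Nat.isCoprime_iff_coprime.2 hcop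
  obtain ⟨x, y, hxy⟩ := h2
  have hz : ∀ m : ℤ, Sup.Val q (ϖ ^ ℓ) (ϖ ^ ((ℓ : ℤ) * m)) := fun m =>
    ⟨0, m, by rw [pow_zero, pow_one, zpow_mul, zpow_natCast]⟩
  have hϖ : ∀ m : ℤ, Sup.Val q ϖ (ϖ ^ m) := fun m => ⟨0, m, by rw [pow_zero, pow_one]⟩
  have hr : Sup.Val q (ϖ ^ ℓ) (a r₀ * ϖ ^ (-(x * d * n r₀))) := by
    have h3 : a r₀ * ϖ ^ (-(x * d * n r₀)) = a r₀ * ϖ ^ (-d) * ϖ ^ ((ℓ : ℤ) * (y * d)) := by
      rw [mul_assoc (a r₀), ← zpow_add₀ h0.ne']
      congr 2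
      linear_combination (-d) * hxy
    rw [h3]
    exact hd.mul (hz _)
  refine ⟨x * d, fun r => ?_⟩
  refine Sup.Val.of_pow h0 h1 hcop (mul_pos (ha0 r) (zpow_pos h0 _)) ((ha r).mul (hϖ _)) ?_
  have h4 : (a r * ϖ ^ (-(x * d * n r))) ^ n r₀ =
      (a r ^ n r₀ * (a r₀ ^ n r)⁻¹) * (a r₀ * ϖ ^ (-(x * d * n r₀))) ^ n r := by
    have h5 : a r₀ ^ n r ≠ 0 := pow_ne_zero _ (ha0 r₀).ne'
    have h6 : (ϖ ^ (-(x * d * n r))) ^ n r₀ = (ϖ ^ (-(x * d * n r₀))) ^ n r := by
      rw [← zpow_natCast (ϖ ^ (-(x * d * n r))), ← zpow_natCast (ϖ ^ (-(x * d * n r₀))),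
        ← zpow_mul, ← zpow_mul]
      congr 1
      ring
    rw [mul_pow, mul_pow, h6, mul_assoc (a r ^ n r₀), ← mul_assoc (a r₀ ^ n r)⁻¹, inv_mul_cancel₀ h5, one_mul]
  rw [h4]
  exact (hrel r r₀).mul (hr.pow _)

end Abs

section

variable {F K M : Type} [Field F] [Field K] [Algebra F[X] K] [Field M] [Algebra K M] [Algebra F M]
  [IsAlgClosure K M] {ℓ : ℕ} {s : F} {v : AbsoluteValue M ℝ} {p : K[X]} {lam rho bet : K}

omit [IsAlgClosure K M] in
private lemma l1_fixF (hL : LocF F K s v) (σ : M ≃ₐ[K] M) (c : F) : σ (algebraMap F M c) = algebraMap F M c := by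
  rw [hL.compat, σ.commutes]

omit [IsAlgClosure K M] in
private lemma l1_const (hL : LocF F K s v) (c : F) : v (algebraMap F M c) ≤ 1 := by
  by_cases h : c = 0
  · rw [h, map_zero, map_zero]
    exact zero_le_one
  · exact (hL.ctx.const c h).le

omit [IsAlgClosure K M] in
private lemma l1_pos (hL : LocF F K s v) :
    0 < v (algebraMap K M (algebraMap F[X] K X) - algebraMap F M s) :=
  v.pos (sub_ne_zero.2 hL.ctx.ne)

omit [IsAlgClosure K M] in
private lemma l1_mem (hs : p.Separable) {θ : M} :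
    θ ∈ (p.map (algebraMap K M)).roots.toFinset ↔ (p.map (algebraMap K M)).eval θ = 0 := by
  have hs' : (p.map (algebraMap K M)).Separable := hs.map
  rw [Multiset.mem_toFinset, mem_roots hs'.ne_zero, IsRoot.def]

omit [IsAlgClosure K M] [Algebra F[X] K] in
theorem mem_nearA (hs : p.Separable) {A R : M} {r : F} {θ : M} :
    θ ∈ nearA v A R (p.map (algebraMap K M)) r ↔
      (p.map (algebraMap K M)).eval θ = 0 ∧ v ((θ - R) / A - algebraMap F M r) < 1 := by
  unfold nearA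
  rw [Finset.mem_filter, l1_mem hs]

omit [Field F] [Algebra F[X] K] [Algebra F M] in
/-- The value of a monic polynomial. -/
private lemma l1_eval (hp : p.Monic) (hs : p.Separable) (x : M) :
    (p.map (algebraMap K M)).eval x = ∏ θ ∈ (p.map (algebraMap K M)).roots.toFinset, (x - θ) := by
  have : IsAlgClosed M := IsAlgClosure.isAlgClosed K
  have hs' : (p.map (algebraMap K M)).Separable := hs.map
  rw [(IsAlgClosed.splits _).eval_eq_prod_roots_of_monic (hp.map _), Finset.prod_eq_multiset_prod,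
    Multiset.toFinset_val, (nodup_roots hs').dedup]

omit [Field F] [Algebra F[X] K] [Algebra F M] in
private lemma l1_card (hs : p.Separable) :
    (p.map (algebraMap K M)).roots.toFinset.card = p.natDegree := by
  have : IsAlgClosed M := IsAlgClosure.isAlgClosed K
  have hs' : (p.map (algebraMap K M)).Separable := hs.map
  rw [Multiset.toFinset_card_of_nodup (nodup_roots hs'), ← (IsAlgClosed.splits _).natDegree_eq_card_roots,
    natDegree_map]

omit [Field F] [Algebra F[X] K] [Algebra F M] in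
/-- The derivative at a root. -/
private lemma l1_cof (hp : p.Monic) (hs : p.Separable) {x : M} (hx : (p.map (algebraMap K M)).eval x = 0) :
    wt (p.map (algebraMap K M)) x = 1 ∧ cof (p.map (algebraMap K M)) x =
      ∏ θ ∈ (p.map (algebraMap K M)).roots.toFinset.erase x, (x - θ) := by
  have hM : IsAlgClosed M := IsAlgClosure.isAlgClosed K
  have hs' : (p.map (algebraMap K M)).Separable := hs.map
  have hw : wt (p.map (algebraMap K M)) x = 1 := by
    have h1 := rootMultiplicity_le_one_of_separable hs' x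
    have h2 : 0 < (p.map (algebraMap K M)).rootMultiplicity x := (rootMultiplicity_pos hs'.ne_zero).mpr hx
    unfold wt
    omega
  refine ⟨hw, ?_⟩
  have h1 := wt_mul (p.map (algebraMap K M)) x
  have h2 : p.map (algebraMap K M) = (X - C x) *
      ∏ θ ∈ (p.map (algebraMap K M)).roots.toFinset.erase x, (X - C θ) := by
    rw [Finset.mul_prod_erase _ (fun θ => X - C θ) ((l1_mem hs).2 hx)]
    conv_lhs => rw [(IsAlgClosed.splits (p.map (algebraMap K M))).eq_prod_roots_of_monic (hp.map _)]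
    rw [Finset.prod_eq_multiset_prod, Multiset.toFinset_val, (nodup_roots hs').dedup]
  rw [hw, pow_one] at h1
  have h3 : cofP (p.map (algebraMap K M)) x =
      ∏ θ ∈ (p.map (algebraMap K M)).roots.toFinset.erase x, (X - C θ) :=
    mul_left_cancel₀ (X_sub_C_ne_zero x) (h1.trans h2)
  rw [cof, h3, eval_prod]
  simp

omit [IsAlgClosure K M] in
private lemma l1_div {A R : M} (hA : A ≠ 0) (x y : M) : v (x - y) = v A * v ((x - R) / A - (y - R) / A) := by
  rw [← sub_div, map_div₀, mul_div_cancel₀ _ ((v.ne_zero_iff).2 hA)]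
  congr 1
  ring

omit [IsAlgClosure K M] in
/-- A point near `r` and another point. -/
private lemma l1_far (hL : LocF F K s v) {A R : M} (hA : A ≠ 0) {r : F} {x y : M}
    (hx : v ((x - R) / A - algebraMap F M r) < 1) (hy' : ¬ v ((y - R) / A - algebraMap F M r) < 1) :
    v (x - y) = v (A * if 1 < v ((y - R) / A) then (y - R) / A else 1) := by
  have hna := hL.ctx.nonarch
  have hx1 : v ((x - R) / A) ≤ 1 := by
    have h1 := hna ((x - R) / A - algebraMap F M r) (algebraMap F M r)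
    rw [sub_add_cancel] at h1
    exact h1.trans (max_le hx.le (l1_const hL r))
  rw [l1_div (R := R) hA x y, v.map_mul]
  congr 1
  split_ifs with h
  · exact l1_sub' hna (lt_of_le_of_lt hx1 h)
  · rw [map_one]
    have h1 : v ((y - R) / A - algebraMap F M r) = 1 := by
      apply le_antisymm
      · have h2 := hna ((y - R) / A) (-algebraMap F M r)
        rw [← sub_eq_add_neg, v.map_neg] at h2
        exact h2.trans (max_le (not_lt.1 h) (l1_const hL r))
      · exact not_lt.1 hy'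
    have h3 : (x - R) / A - (y - R) / A = ((x - R) / A - algebraMap F M r) - ((y - R) / A - algebraMap F M r) := by
      ring
    rw [h3, l1_sub' hna (by rw [h1]; exact hx), h1]

/-- The leading coefficient and the roots at infinity. -/
def Lead (ℓ : ℕ) (v : AbsoluteValue M ℝ) (A R B : M) (p : M[X]) : Prop :=
  v A ^ p.natDegree * ∏ θ ∈ p.roots.toFinset.filter (fun θ => 1 < v ((θ - R) / A)), v ((θ - R) / A) = v B ^ ℓ

/-- The product over the roots which are not near `r`. -/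
private lemma l1_farprod (hL : LocF F K s v) (hs : p.Separable) {A R B : M} (hA : A ≠ 0)
    (hlead : Lead ℓ v A R B (p.map (algebraMap K M))) {r : F} {x : M}
    (hx : v ((x - R) / A - algebraMap F M r) < 1) :
    (∏ θ ∈ (p.map (algebraMap K M)).roots.toFinset \ nearA v A R (p.map (algebraMap K M)) r, v (x - θ)) *
      v A ^ (nearA v A R (p.map (algebraMap K M)) r).card = v B ^ ℓ := by
  set N := nearA v A R (p.map (algebraMap K M)) r with hN
  have hNs : N ⊆ (p.map (algebraMap K M)).roots.toFinset := Finset.filter_subset _ _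
  have hcm : (p.map (algebraMap K M)).roots.toFinset.card = p.natDegree := l1_card hs
  have hna := hL.ctx.nonarch
  have h1 : ∏ θ ∈ (p.map (algebraMap K M)).roots.toFinset \ N, v (x - θ) =
      ∏ θ ∈ (p.map (algebraMap K M)).roots.toFinset \ N,
        (v A * if 1 < v ((θ - R) / A) then v ((θ - R) / A) else 1) := by
    refine Finset.prod_congr rfl fun θ hθ => ?_
    rw [Finset.mem_sdiff] at hθ
    have h2 : (p.map (algebraMap K M)).eval θ = 0 := (l1_mem hs).1 hθ.1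
    rw [l1_far hL hA hx (fun h3 => hθ.2 ((mem_nearA hs).2 ⟨h2, h3⟩)), v.map_mul]
    congr 1
    split_ifs
    · rfl
    · exact map_one v
  have h2 : ∏ θ ∈ (p.map (algebraMap K M)).roots.toFinset \ N,
        (if 1 < v ((θ - R) / A) then v ((θ - R) / A) else 1) =
      ∏ θ ∈ (p.map (algebraMap K M)).roots.toFinset.filter (fun θ => 1 < v ((θ - R) / A)), v ((θ - R) / A) := by
    rw [Finset.prod_filter, ← Finset.prod_sdiff hNs]
    symm
    apply mul_eq_left₀ _ |>.2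
    · refine Finset.prod_eq_one fun θ hθ => ?_
      have h3 := ((mem_nearA hs).1 hθ).2
      have h4 := hna ((θ - R) / A - algebraMap F M r) (algebraMap F M r)
      rw [sub_add_cancel] at h4
      rw [if_neg (not_lt.2 (h4.trans (max_le h3.le (l1_const hL r))))]
    · refine Finset.prod_ne_zero_iff.2 fun θ _ => ?_
      split_ifs with h3
      · exact (zero_lt_one.trans h3).ne'
      · exact one_ne_zero
  have hle : N.card ≤ p.natDegree := by
    rw [← hcm]
    exact Finset.card_le_card hNs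
  rw [h1, Finset.prod_mul_distrib, h2, Finset.prod_const, Finset.card_sdiff_of_subset hNs, hcm]
  unfold Lead at hlead
  rw [natDegree_map] at hlead
  rw [← hlead, mul_right_comm, ← pow_add, Nat.sub_add_cancel hle]

/-- The regularizing function. -/
private noncomputable def cc (v : AbsoluteValue M ℝ) (A R B : M) {ℓ : ℕ} {f : M[X]} (r : F) (P : Pt ℓ f) : M :=
  if v ((P.x - R) / A - algebraMap F M r) < 1 then (if P.y = 0 then (cof f P.x ^ be ℓ 1)⁻¹ / B else P.y / B) else 1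

/-- The part at infinity. -/
private noncomputable def ww (v : AbsoluteValue M ℝ) (A R : M) {ℓ : ℕ} {f : M[X]} (P : Pt ℓ f) : M :=
  A * if 1 < v ((P.x - R) / A) then (P.x - R) / A else 1

private lemma l1_factor (hL : LocF F K s v) [hG : IsGood ℓ (p.map (algebraMap K M))]
    (hp : p.Monic) (hs : p.Separable) {A R B : M} (hA : A ≠ 0) (hB : B ≠ 0)
    (hlead : Lead ℓ v A R B (p.map (algebraMap K M)))
    (r : F) (P : Pt ℓ (p.map (algebraMap K M))) :
    ∏ θ ∈ nearA v A R (p.map (algebraMap K M)) r,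
      v (if P.x = θ then (cof (p.map (algebraMap K M)) θ ^ al ℓ (wt (p.map (algebraMap K M)) θ))⁻¹
        else θ - P.x) =
    v (ww v A R P) ^ (nearA v A R (p.map (algebraMap K M)) r).card * v (cc v A R B r P) ^ ℓ := by
  set N := nearA v A R (p.map (algebraMap K M)) r with hN
  have hA0 : 0 < v A := v.pos hA
  have hB0 : 0 < v B := v.pos hB
  have hna := hL.ctx.nonarch
  have hℓ0 : ℓ ≠ 0 := hG.ne
  have hNn : ∀ θ ∈ N, (p.map (algebraMap K M)).eval θ = 0 ∧ v ((θ - R) / A - algebraMap F M r) < 1 :=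
    fun θ hθ => (mem_nearA hs).1 hθ
  have hNs : N ⊆ (p.map (algebraMap K M)).roots.toFinset := Finset.filter_subset _ _
  by_cases hr : v ((P.x - R) / A - algebraMap F M r) < 1
  · have hfar := l1_farprod (ℓ := ℓ) hL hs hA hlead hr
    rw [← hN] at hfar
    have hsmall : v ((P.x - R) / A) ≤ 1 := by
      have h1 := hna ((P.x - R) / A - algebraMap F M r) (algebraMap F M r)
      rw [sub_add_cancel] at h1
      exact h1.trans (max_le hr.le (l1_const hL r))
    have hww : v (ww v A R P) = v A := by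
      unfold ww
      rw [if_neg (not_lt.2 hsmall), mul_one]
    rw [hww]
    by_cases hy : P.y = 0
    · have hcc : cc v A R B r P = (cof (p.map (algebraMap K M)) P.x ^ be ℓ 1)⁻¹ / B := by
        unfold cc
        rw [if_pos hr, if_pos hy]
      rw [hcc]
      have hPx : (p.map (algebraMap K M)).eval P.x = 0 := by
        rw [← P.eq, hy, zero_pow hℓ0]
      have hmem : P.x ∈ N := (mem_nearA hs).2 ⟨hPx, hr⟩
      obtain ⟨hw, hcof⟩ := l1_cof hp hs hPx
      rw [← Finset.mul_prod_erase _ _ hmem, if_pos rfl, hw]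
      have e1 : ∏ θ ∈ N.erase P.x,
          v (if P.x = θ then (cof (p.map (algebraMap K M)) θ ^ al ℓ (wt (p.map (algebraMap K M)) θ))⁻¹ else θ - P.x) =
          ∏ θ ∈ N.erase P.x, v (P.x - θ) := by
        refine Finset.prod_congr rfl ?_
        intro θ hθ
        rw [if_neg (Finset.ne_of_mem_erase hθ).symm, l1_comm]
      have e2 : v (cof (p.map (algebraMap K M)) P.x) = (∏ θ ∈ N.erase P.x, v (P.x - θ)) *
          ∏ θ ∈ (p.map (algebraMap K M)).roots.toFinset \ N, v (P.x - θ) := by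
        rw [hcof, map_prod, mul_comm]
        have h1 : (p.map (algebraMap K M)).roots.toFinset.erase P.x = ((p.map (algebraMap K M)).roots.toFinset \ N) ∪ N.erase P.x := by
          ext θ
          simp only [Finset.mem_erase, Finset.mem_union, Finset.mem_sdiff]
          constructor
          · rintro ⟨h1, h2⟩
            by_cases h3 : θ ∈ N
            · exact Or.inr ⟨h1, h3⟩
            · exact Or.inl ⟨h2, h3⟩
          · rintro (⟨h1, h2⟩ | ⟨h1, h2⟩)
            · exact ⟨fun h3 => h2 (h3 ▸ hmem), h1⟩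
            · exact ⟨h1, hNs h2⟩
        have h2 : Disjoint ((p.map (algebraMap K M)).roots.toFinset \ N) (N.erase P.x) := by
          rw [Finset.disjoint_left]
          intro θ h3 h4
          exact (Finset.mem_sdiff.1 h3).2 (Finset.mem_of_mem_erase h4)
        rw [h1, Finset.prod_union h2]
      have hcof0 : v (cof (p.map (algebraMap K M)) P.x) ≠ 0 := (v.ne_zero_iff).2 (cof_ne_zero (f_ne_zero ℓ (p.map (algebraMap K M))) _)
      have hal : al ℓ 1 = be ℓ 1 * ℓ + 1 := by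
        have h1 := al_wt (N := ℓ) hPx
        rw [hw, mul_one] at h1
        exact h1
      have e3 : v (cof (p.map (algebraMap K M)) P.x) * v A ^ N.card =
          (∏ θ ∈ N.erase P.x, v (P.x - θ)) * v B ^ ℓ := by
        rw [e2, mul_assoc, hfar]
      rw [e1, map_inv₀, map_pow, map_div₀, map_inv₀, map_pow, hal, pow_succ, mul_inv, div_pow, inv_pow, ← pow_mul,
        mul_assoc, mul_comm (v A ^ N.card), mul_comm_div, div_eq_mul_inv]
      congr 1
      rw [inv_mul_eq_iff_eq_mul₀ hcof0]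
      have e4 : v B ^ ℓ ≠ 0 := pow_ne_zero _ hB0.ne'
      rw [← mul_assoc, e3, mul_assoc, mul_inv_cancel₀ e4, mul_one]
    · have hcc : cc v A R B r P = P.y / B := by
        unfold cc
        rw [if_pos hr, if_neg hy]
      rw [hcc]
      have e1 : ∏ θ ∈ N, v (if P.x = θ then (cof (p.map (algebraMap K M)) θ ^ al ℓ (wt (p.map (algebraMap K M)) θ))⁻¹ else θ - P.x) =
          ∏ θ ∈ N, v (P.x - θ) := by
        refine Finset.prod_congr rfl ?_
        intro θ hθ
        rw [if_neg, l1_comm]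
        rintro rfl
        apply hy
        have h1 := P.eq
        rw [(hNn _ hθ).1] at h1
        exact (pow_eq_zero_iff hℓ0).1 h1
      have e2 : v P.y ^ ℓ = (∏ θ ∈ (p.map (algebraMap K M)).roots.toFinset \ N, v (P.x - θ)) *
          ∏ θ ∈ N, v (P.x - θ) := by
        rw [← map_pow, P.eq, l1_eval hp hs, map_prod, Finset.prod_sdiff hNs]
      have e4 : v B ^ ℓ ≠ 0 := pow_ne_zero _ hB0.ne'
      rw [e1, map_div₀, div_pow, e2, mul_div_assoc', eq_div_iff e4, ← hfar]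
      ring
  · have hcc : cc v A R B r P = 1 := by
      unfold cc
      rw [if_neg hr]
    rw [hcc, map_one, one_pow, mul_one]
    apply Finset.prod_eq_pow_card
    intro θ hθ
    have h2 := (hNn θ hθ).2
    rw [if_neg (by rintro rfl; exact hr h2)]
    exact l1_far hL hA h2 hr

/-- The values of the products over an invariant divisor. -/
private lemma l1_disc (hL : LocF F K s v) (D : Pt ℓ (p.map (algebraMap K M)) →₀ ℤ)
    (hD : ∀ σ : M ≃ₐ[K] M, D.mapDomain (Pt.sym (gs p σ)) = D) (φ : Pt ℓ (p.map (algebraMap K M)) → M)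
    (h0 : ∀ P, φ P ≠ 0) (hφ : ∀ (σ : M ≃ₐ[K] M) P, σ (φ P) = φ (P.sym (gs p σ))) :
    Sup.Val (ringExpChar K) (v (algebraMap K M (algebraMap F[X] K X) - algebraMap F M s))
      (∏ P ∈ D.support, v (φ P) ^ D P) := by
  rw [← l1_v_prod]
  refine lf_fixed hL (Finset.prod_ne_zero_iff.2 fun P _ => zpow_ne_zero _ (h0 P)) fun σ => ?_
  exact l1_prod_fixed (gs p σ) D (hD σ) φ (hφ σ)

/-- The product of the values over the roots near `r`. -/
theorem lm_uval_prod (hL : LocF F K s v) [hG : IsGood ℓ (p.map (algebraMap K M))]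
    (hp : p.Monic) (hs : p.Separable) (hlam : lam ≠ 0) (hbet : bet ≠ 0)
    (hlead : Lead ℓ v (algebraMap K M lam) (algebraMap K M rho) (algebraMap K M bet) (p.map (algebraMap K M)))
    (D : Pt ℓ (p.map (algebraMap K M)) →₀ ℤ) (hD : ∀ σ : M ≃ₐ[K] M, D.mapDomain (Pt.sym (gs p σ)) = D) :
    ∃ W : ℝ, Sup.Val (ringExpChar K) (v (algebraMap K M (algebraMap F[X] K X) - algebraMap F M s)) W ∧
      ∀ r : F, ∃ Y : ℝ, Sup.Val (ringExpChar K) (v (algebraMap K M (algebraMap F[X] K X) - algebraMap F M s)) Y ∧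
        ∏ θ ∈ nearA v (algebraMap K M lam) (algebraMap K M rho) (p.map (algebraMap K M)) r, v (uval D θ) =
          W ^ (nearA v (algebraMap K M lam) (algebraMap K M rho) (p.map (algebraMap K M)) r).card * Y ^ ℓ := by
  obtain ⟨A, hAdef⟩ : ∃ A : M, A = algebraMap K M lam := ⟨_, rfl⟩
  obtain ⟨R, hRdef⟩ : ∃ R : M, R = algebraMap K M rho := ⟨_, rfl⟩
  obtain ⟨B, hBdef⟩ : ∃ B : M, B = algebraMap K M bet := ⟨_, rfl⟩
  rw [← hAdef, ← hRdef, ← hBdef] at hlead
  rw [← hAdef, ← hRdef]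
  have hA : A ≠ 0 := by rw [hAdef]; exact (_root_.map_ne_zero _).2 hlam
  have hB : B ≠ 0 := by rw [hBdef]; exact (_root_.map_ne_zero _).2 hbet
  have hsA : ∀ σ : M ≃ₐ[K] M, σ A = A := fun σ => by rw [hAdef]; exact σ.commutes lam
  have hsR : ∀ σ : M ≃ₐ[K] M, σ R = R := fun σ => by rw [hRdef]; exact σ.commutes rho
  have hsB : ∀ σ : M ≃ₐ[K] M, σ B = B := fun σ => by rw [hBdef]; exact σ.commutes bet
  have hsx : ∀ (σ : M ≃ₐ[K] M) (P : Pt ℓ (p.map (algebraMap K M))), (P.sym (gs p σ)).x = σ P.x :=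
    fun σ P => rfl
  have hsy : ∀ (σ : M ≃ₐ[K] M) (P : Pt ℓ (p.map (algebraMap K M))), (P.sym (gs p σ)).y = σ P.y :=
    fun σ P => rfl
  have hsξ : ∀ (σ : M ≃ₐ[K] M) (x : M), (σ x - R) / A = σ ((x - R) / A) := by
    intro σ x
    rw [map_div₀, map_sub, hsR, hsA]
  refine ⟨∏ P ∈ D.support, v (ww v A R P) ^ D P, ?_, fun r => ⟨∏ P ∈ D.support, v (cc v A R B r P) ^ D P, ?_, ?_⟩⟩
  · refine l1_disc hL D hD (fun P => ww v A R P) ?_ ?_
    · intro P
      show ww v A R P ≠ 0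
      unfold ww
      refine mul_ne_zero hA ?_
      split_ifs with h1
      · intro h0
        rw [h0, map_zero] at h1
        exact absurd h1 (not_lt.2 zero_le_one)
      · exact one_ne_zero
    · intro σ P
      unfold ww
      simp only [hsx, hsξ, hL.inv]
      rw [map_mul, hsA]
      split_ifs
      · rfl
      · rw [map_one]
  · refine l1_disc hL D hD (fun P => cc v A R B r P) ?_ ?_
    · intro P
      show cc v A R B r P ≠ 0
      unfold cc
      split_ifs with h1 h2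
      · exact div_ne_zero (inv_ne_zero (pow_ne_zero _ (cof_ne_zero (f_ne_zero ℓ (p.map (algebraMap K M))) _))) hB
      · exact div_ne_zero h2 hB
      · exact one_ne_zero
    · intro σ P
      have e1 : v (σ ((P.x - R) / A) - algebraMap F M r) = v ((P.x - R) / A - algebraMap F M r) := by
        rw [← l1_fixF hL σ r, ← map_sub, hL.inv, l1_fixF hL]
      have e2 : (σ P.y = 0) = (P.y = 0) := by
        rw [eq_iff_iff]
        exact map_eq_zero_iff _ σ.injective
      have e3 : cof (p.map (algebraMap K M)) (σ P.x) = σ (cof (p.map (algebraMap K M)) P.x) :=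
        cof_sym (gs p σ) P.x
      unfold cc
      simp only [hsx, hsy, hsξ, e1, e2, e3]
      split_ifs
      · rw [map_div₀, map_inv₀, map_pow, hsB]
      · rw [map_div₀, hsB]
      · exact map_one _
  · set N := nearA v A R (p.map (algebraMap K M)) r with hN
    have e1 : ∀ θ' ∈ N, v (uval D θ') = ∏ P ∈ D.support,
        v (if P.x = θ' then (cof (p.map (algebraMap K M)) θ' ^ al ℓ (wt (p.map (algebraMap K M)) θ'))⁻¹
          else θ' - P.x) ^ D P := by
      intro θ' _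
      unfold uval
      rw [Finsupp.prod, map_prod]
      refine Finset.prod_congr rfl ?_
      intro P _
      rw [map_zpow₀]
    rw [Finset.prod_congr rfl e1, Finset.prod_comm, ← Finset.prod_pow, ← Finset.prod_pow,
      ← Finset.prod_mul_distrib]
    refine Finset.prod_congr rfl ?_
    intro P _
    rw [Finset.prod_zpow, l1_factor hL hp hs hA hB hlead r P, mul_zpow]
    congr 1
    · rw [← zpow_natCast, ← zpow_natCast, ← zpow_mul, ← zpow_mul, mul_comm]
    · rw [← zpow_natCast, ← zpow_natCast, ← zpow_mul, ← zpow_mul, mul_comm]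

omit [IsAlgClosure K M] [Field F] [Algebra F[X] K] [Algebra F M] in
private lemma l1_prod_perm {N : Type*} [CommMonoid N] (σ : M ≃ₐ[K] M) (S : Finset M)
    (hS : ∀ θ ∈ S, σ θ ∈ S) (φ : M → N) :
    ∏ θ ∈ S, φ (σ θ) = ∏ θ ∈ S, φ θ := by
  have h1 : S.image σ = S := by
    apply Finset.eq_of_subset_of_card_le
    · intro x hx
      obtain ⟨y, hy, rfl⟩ := Finset.mem_image.mp hx
      exact hS y hy
    · rw [Finset.card_image_of_injective _ σ.injective]
  conv_rhs => rw [← h1]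
  rw [Finset.prod_image (fun x _ y _ h => σ.injective h)]

/-- The values of the functions `z`, near all the points of the special fibre. -/
theorem lm_z (hL : LocF F K s v) (hℓ : ℓ.Prime) (hcq : (ringExpChar K).Coprime ℓ)
    [hG : IsGood ℓ (p.map (algebraMap K M))]
    (hp : p.Monic) (hs : p.Separable) (hlam : lam ≠ 0) (hbet : bet ≠ 0)
    (hlead : Lead ℓ v (algebraMap K M lam) (algebraMap K M rho) (algebraMap K M bet) (p.map (algebraMap K M)))
    {ζ : K} (hζ : IsPrimitiveRoot (algebraMap K M ζ) ℓ) {z : M → M}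
    (hz : ∀ θ, (p.map (algebraMap K M)).eval θ = 0 → z θ ≠ 0) (Q : Jac ℓ (p.map (algebraMap K M)))
    (hQ : ∀ σ : M ≃ₐ[K] M, ∃ n e : M → ℤ,
      (rm n + rm e : Jac ℓ (p.map (algebraMap K M))) = symJ (gs p σ) Q - Q ∧
      (∀ θ, (p.map (algebraMap K M)).eval θ = 0 → σ (z θ) = algebraMap K M ζ ^ n (σ θ) * z (σ θ)) ∧
      (ℓ : ℤ) ∣ ∑ θ ∈ (p.map (algebraMap K M)).roots.toFinset, n θ ∧
      ∀ r' : F, (ℓ : ℤ) ∣ ∑ θ ∈ nearA v (algebraMap K M lam) (algebraMap K M rho) (p.map (algebraMap K M)) r', e θ) :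
    ∃ c₀ : ℤ, ((∀ θ, (p.map (algebraMap K M)).eval θ = 0 →
        v ((θ - algebraMap K M rho) / algebraMap K M lam) ≤ 1) → c₀ = 0) ∧
      ∀ r : F, Sup.Val (ringExpChar K) (v (algebraMap K M (algebraMap F[X] K X) - algebraMap F M s) ^ ℓ)
        ((∏ θ ∈ nearA v (algebraMap K M lam) (algebraMap K M rho) (p.map (algebraMap K M)) r, v (z θ)) ^ ℓ *
          v (algebraMap K M (algebraMap F[X] K X) - algebraMap F M s) ^
            (-(c₀ * (nearA v (algebraMap K M lam) (algebraMap K M rho) (p.map (algebraMap K M)) r).card))) := by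
  obtain ⟨A, hAdef⟩ : ∃ A : M, A = algebraMap K M lam := ⟨_, rfl⟩
  obtain ⟨R, hRdef⟩ : ∃ R : M, R = algebraMap K M rho := ⟨_, rfl⟩
  obtain ⟨ϖ, hϖ⟩ : ∃ ϖ : ℝ, ϖ = v (algebraMap K M (algebraMap F[X] K X) - algebraMap F M s) := ⟨_, rfl⟩
  have hϖ0 : 0 < ϖ := by rw [hϖ]; exact l1_pos hL
  have hϖ1 : ϖ < 1 := by rw [hϖ]; exact hL.ctx.lt_one
  obtain ⟨ξ, hξ⟩ : ∃ ξ : M, ξ = algebraMap K M ζ := ⟨_, rfl⟩
  rw [← hξ] at hζ
  have hA : A ≠ 0 := by rw [hAdef]; exact (_root_.map_ne_zero _).2 hlam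
  have hsA : ∀ σ : M ≃ₐ[K] M, σ A = A := fun σ => by rw [hAdef]; exact σ.commutes lam
  have hsR : ∀ σ : M ≃ₐ[K] M, σ R = R := fun σ => by rw [hRdef]; exact σ.commutes rho
  have hfixζ : ∀ σ : M ≃ₐ[K] M, σ ξ = ξ := fun σ => by rw [hξ]; exact σ.commutes ζ
  have hℓ0 : ℓ ≠ 0 := hG.ne
  have hNZ : NeZero ℓ := ⟨hℓ0⟩
  have hξ0 : ξ ≠ 0 := hζ.ne_zero hℓ0
  have hrts : ∀ θ, θ ∈ (p.map (algebraMap K M)).roots.toFinset ↔ (p.map (algebraMap K M)).eval θ = 0 :=
    fun θ => l1_mem hs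
  have hσ0 : ∀ (σ : M ≃ₐ[K] M) (θ : M), (p.map (algebraMap K M)).eval (σ θ) = σ ((p.map (algebraMap K M)).eval θ) :=
    fun σ θ => R21_eval (gs p σ) θ
  have hσrts : ∀ (σ : M ≃ₐ[K] M) (θ : M), (p.map (algebraMap K M)).eval θ = 0 →
      (p.map (algebraMap K M)).eval (σ θ) = 0 := by
    intro σ θ h
    rw [hσ0, h, map_zero]
  -- the stable divisor
  have hstab : ∀ σ ∈ Set.range (fun σ : M ≃ₐ[K] M => gs p σ),
      symJ σ (Q - zJ ξ hζ.pow_eq_one Q) = Q - zJ ξ hζ.pow_eq_one Q := by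
    rintro _ ⟨σ, rfl⟩
    obtain ⟨n, e, hn, -⟩ := hQ σ
    have e1 : symJ (gs p σ) Q = Q + (rm n + rm e) := by
      rw [hn]
      abel
    rw [map_sub, ← zJ_symJ _ _ (gs p σ) (hfixζ σ), e1, map_add, map_add, zJ_rm, zJ_rm]
    abel
  obtain ⟨D, hDcl, hDfix'⟩ := exists_stable ξ hζ (Set.range (fun σ : M ≃ₐ[K] M => gs p σ)) _ hstab
  have hDfix : ∀ σ : M ≃ₐ[K] M, D.mapDomain (Pt.sym (gs p σ)) = D := fun σ => hDfix' _ ⟨σ, rfl⟩
  obtain ⟨z', hz', hkum⟩ := kummer_rm ξ hζ Q D hDcl.symm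
  obtain ⟨W, hW, hY⟩ := lm_uval_prod hL hp hs hlam hbet hlead D hDfix
  rw [← hξ, ← hAdef, ← hRdef] at hQ
  rw [← hAdef, ← hRdef, ← hϖ]
  rw [← hAdef, ← hRdef, ← hϖ] at hY
  rw [← hϖ] at hW
  have hσnear : ∀ (r' : F) (σ : M ≃ₐ[K] M), ∀ θ ∈ nearA v A R (p.map (algebraMap K M)) r',
      σ θ ∈ nearA v A R (p.map (algebraMap K M)) r' := by
    intro r' σ θ hθ
    rw [mem_nearA hs] at hθ ⊢
    refine ⟨hσrts σ θ hθ.1, ?_⟩
    have e0 : (σ θ - R) / A - algebraMap F M r' = σ ((θ - R) / A - algebraMap F M r') := by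
      rw [map_sub, map_div₀, map_sub, hsA, hsR, l1_fixF hL]
    rw [e0, hL.inv]
    exact hθ.2
  have hc : ∀ σ : M ≃ₐ[K] M, ∃ (c : ℤ) (e : M → ℤ), (∀ θ, (p.map (algebraMap K M)).eval θ = 0 → σ (z θ / z' θ) =
      ξ ^ c * ξ ^ (-e (σ θ)) * (z (σ θ) / z' (σ θ))) ∧
      ∀ r : F, (ℓ : ℤ) ∣ ∑ θ ∈ nearA v A R (p.map (algebraMap K M)) r, e θ := by
    intro σ
    obtain ⟨n, e, hn, hnz, -, he1⟩ := hQ σ
    have hDσ := hDfix σ
    have hex : ∀ θ, (p.map (algebraMap K M)).eval θ = 0 → ∃ i : ℤ, σ (z' θ) = ξ ^ i * z' (σ θ) := by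
      intro θ hθ0
      have hσθ0 := hσrts σ θ hθ0
      have h0 : z' (σ θ) ≠ 0 := (hz' _ hσθ0).1
      have h1 : (σ (z' θ) / z' (σ θ)) ^ ℓ = 1 := by
        have h2 : σ (uval D θ) = uval D (σ θ) := sym_uval (gs p σ) D hDσ θ
        have h3 : atR D (σ θ) = atR D θ := sym_atR (gs p σ) D hDσ θ
        rw [div_pow, ← map_pow, (hz' θ hθ0).2, (hz' _ hσθ0).2, map_mul, h2, h3, map_zpow₀, map_pow,
          map_neg, map_one]
        apply div_self
        apply mul_ne_zero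
        · apply zpow_ne_zero
          apply pow_ne_zero
          exact neg_ne_zero.mpr one_ne_zero
        · exact uval_ne_zero D
      obtain ⟨i, _, hi⟩ := hζ.eq_pow_of_pow_eq_one h1
      exact ⟨i, by rw [zpow_natCast, hi, div_mul_cancel₀ _ h0]⟩
    let n' : M → ℤ := fun θ'' =>
      if h : (p.map (algebraMap K M)).eval (σ.symm θ'') = 0 then (hex _ h).choose else 0
    have hn' : ∀ θ, (p.map (algebraMap K M)).eval θ = 0 → σ (z' θ) = ξ ^ n' (σ θ) * z' (σ θ) := by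
      intro θ hθ
      have key : ∀ θ₁ (h₁ : (p.map (algebraMap K M)).eval θ₁ = 0), θ₁ = θ →
          σ (z' θ) = ξ ^ (hex θ₁ h₁).choose * z' (σ θ) := by
        rintro θ₁ h₁ rfl
        exact (hex θ₁ h₁).choose_spec
      have e1 : σ.symm (σ θ) = θ := σ.symm_apply_apply θ
      have e2 : (p.map (algebraMap K M)).eval (σ.symm (σ θ)) = 0 := by
        rw [e1]
        exact hθ
      have e3 : n' (σ θ) = (hex _ e2).choose := dif_pos e2
      rw [e3]
      exact key _ e2 e1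
    have hk := hkum (gs p σ) (hfixζ σ) hDσ n' hn'
    have h0 : (rm (fun θ => n θ - (n' θ - e θ)) : Jac ℓ (p.map (algebraMap K M))) = 0 := by
      have h00 : (rm (fun θ => n' θ - e θ) : Jac ℓ (p.map (algebraMap K M))) = rm n' - rm e := rm_sub _ _
      rw [rm_sub, h00, ← hk, ← hn]
      abel
    obtain ⟨c, hc⟩ := (rm_eq_zero_iff ξ hζ _).mp h0
    refine ⟨c, e, fun θ hθ => ?_, he1⟩
    have h1 := hc (σ θ) (hσrts σ θ hθ)
    have h2 : ξ ^ (n (σ θ) - n' (σ θ)) = ξ ^ c * ξ ^ (-e (σ θ)) := by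
      have h3 : ξ ^ ((n (σ θ) - (n' (σ θ) - e (σ θ))) - c) = 1 := (hζ.zpow_eq_one_iff_dvd _).mpr h1
      rw [← zpow_add₀ hξ0]
      have h4 : n (σ θ) - n' (σ θ) = (n (σ θ) - (n' (σ θ) - e (σ θ)) - c) + (c + -e (σ θ)) := by ring
      rw [h4, zpow_add₀ hξ0, h3, one_mul]
    rw [map_div₀, hnz θ hθ, hn' θ hθ, mul_div_mul_comm, ← zpow_sub₀ hξ0, h2]
  have hq0 : ∀ θ, (p.map (algebraMap K M)).eval θ = 0 → z θ / z' θ ≠ 0 := fun θ hθ =>
    div_ne_zero (hz θ hθ) (hz' θ hθ).1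
  have hpe : ∀ e : M → ℤ, ∀ S : Finset M, ∏ θ ∈ S, ξ ^ e θ = ξ ^ ∑ θ ∈ S, e θ := by
    intro e S
    induction S using Finset.induction_on with
    | empty => rw [Finset.prod_empty, Finset.sum_empty, zpow_zero]
    | insert a S ha ih => rw [Finset.prod_insert ha, Finset.sum_insert ha, zpow_add₀ hξ0, ih]
  -- the products `Ar r`
  obtain ⟨N, hN⟩ : ∃ N : F → Finset M, N = fun r => nearA v A R (p.map (algebraMap K M)) r := ⟨_, rfl⟩
  have hN' : ∀ r, nearA v A R (p.map (algebraMap K M)) r = N r := fun r => by rw [hN]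
  have hNroot : ∀ r, ∀ θ ∈ N r, (p.map (algebraMap K M)).eval θ = 0 := fun r θ hθ => by
    rw [← hN' r] at hθ
    exact ((mem_nearA hs).1 hθ).1
  simp only [hN'] at hY hσnear hc ⊢
  obtain ⟨Ar, hAr⟩ : ∃ Ar : F → M, Ar = fun r => ∏ θ ∈ N r, (z θ / z' θ) := ⟨_, rfl⟩
  have hAr' : ∀ r, Ar r = ∏ θ ∈ N r, (z θ / z' θ) := fun r => by rw [hAr]
  have hAr0 : ∀ r, Ar r ≠ 0 := fun r => by
    rw [hAr']
    exact Finset.prod_ne_zero_iff.2 fun θ hθ => hq0 θ (hNroot r θ hθ)
  have hArσ : ∀ σ : M ≃ₐ[K] M, ∃ c : ℤ, ∀ r, σ (Ar r) = ξ ^ (c * (N r).card) * Ar r := by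
    intro σ
    obtain ⟨c, e, hce, he⟩ := hc σ
    refine ⟨c, fun r => ?_⟩
    rw [hAr' r, map_prod, Finset.prod_congr rfl (fun θ hθ => hce θ (hNroot r θ hθ)), Finset.prod_mul_distrib,
      Finset.prod_mul_distrib, Finset.prod_const, l1_prod_perm (K := K) σ (N r) (hσnear r σ) (fun θ => ξ ^ (-e θ)),
      l1_prod_perm (K := K) σ (N r) (hσnear r σ) (fun θ => z θ / z' θ), hpe (fun θ => -e θ), Finset.sum_neg_distrib,
      (hζ.zpow_eq_one_iff_dvd _).mpr ((dvd_neg).2 (he r)), mul_one, zpow_mul, zpow_natCast]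
  have hξℓ : ∀ a : ℤ, (ξ ^ a) ^ ℓ = 1 := fun a => by
    rw [← zpow_natCast, ← zpow_mul, mul_comm, zpow_mul, zpow_natCast, hζ.pow_eq_one, one_zpow]
  have hfix1 : ∀ x : M, x ≠ 0 → (∀ σ : M ≃ₐ[K] M, σ x = x) → Sup.Val (ringExpChar K) ϖ (v x) := by
    intro x hx hσ
    rw [hϖ]
    exact lf_fixed hL hx hσ
  obtain ⟨c₁, hc₁⟩ := val_common (q := ringExpChar K) (ϖ := ϖ) hℓ hcq hϖ0 hϖ1 (fun r => v (Ar r) ^ ℓ)
    (fun r => (N r).card) (fun r => pow_pos (v.pos (hAr0 r)) _)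
    (fun r => by
      show Sup.Val _ _ (v (Ar r) ^ ℓ)
      rw [← map_pow]
      refine hfix1 _ (pow_ne_zero _ (hAr0 r)) fun σ => ?_
      obtain ⟨c, hc⟩ := hArσ σ
      rw [map_pow, hc r, mul_pow, hξℓ, one_mul])
    (fun r hr => by
      refine Sup.Val.pow_self ℓ (hfix1 _ (hAr0 r) fun σ => ?_)
      obtain ⟨c, hc⟩ := hArσ σ
      rw [hc r, (hζ.zpow_eq_one_iff_dvd _).mpr (Dvd.dvd.mul_left (Int.natCast_dvd_natCast.2 hr) c), one_mul])
    (fun r r' => by
      have h1 : (v (Ar r) ^ ℓ) ^ (N r').card * ((v (Ar r') ^ ℓ) ^ (N r).card)⁻¹ =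
          v (Ar r ^ (N r').card * (Ar r' ^ (N r).card)⁻¹) ^ ℓ := by
        rw [map_mul, map_inv₀, map_pow, map_pow, mul_pow, inv_pow, ← pow_mul, ← pow_mul, ← pow_mul, ← pow_mul,
          mul_comm ℓ, mul_comm ℓ]
      show Sup.Val _ _ ((v (Ar r) ^ ℓ) ^ (N r').card * ((v (Ar r') ^ ℓ) ^ (N r).card)⁻¹)
      rw [h1]
      refine Sup.Val.pow_self ℓ (hfix1 _ (mul_ne_zero (pow_ne_zero _ (hAr0 r))
        (inv_ne_zero (pow_ne_zero _ (hAr0 r')))) fun σ => ?_)
      obtain ⟨c, hc⟩ := hArσ σ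
      have e1 : (ξ ^ (c * (N r).card)) ^ (N r').card = (ξ ^ (c * (N r').card)) ^ (N r).card := by
        rw [← zpow_natCast, ← zpow_natCast, ← zpow_mul, ← zpow_mul]
        congr 1
        ring
      have e2 : (ξ ^ (c * (N r').card)) ^ (N r).card ≠ 0 := pow_ne_zero _ (zpow_ne_zero _ hξ0)
      rw [map_mul, map_inv₀, map_pow, map_pow, hc r, hc r', mul_pow, mul_pow, e1, mul_inv, mul_mul_mul_comm,
        mul_inv_cancel₀ e2, one_mul])
  obtain ⟨c₂, hc₂⟩ := val_shift hcq hϖ0 hW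
  -- the product of the `z θ`
  have hvz' : ∀ θ, (p.map (algebraMap K M)).eval θ = 0 → v (z' θ) ^ ℓ = v (uval D θ) := by
    intro θ hθ
    rw [← map_pow, (hz' θ hθ).2, map_mul, map_zpow₀, map_pow, AbsoluteValue.map_neg,
      map_one, one_pow, one_zpow, one_mul]
  have hprod : ∀ r, (∏ θ ∈ N r, v (z θ)) ^ ℓ = v (Ar r) ^ ℓ * ∏ θ ∈ N r, v (uval D θ) := by
    intro r
    have h1 : ∏ θ ∈ N r, v (uval D θ) = (∏ θ ∈ N r, v (z' θ)) ^ ℓ := by
      rw [← Finset.prod_pow]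
      exact Finset.prod_congr rfl fun θ hθ => (hvz' θ (hNroot r θ hθ)).symm
    rw [h1, ← mul_pow, hAr', map_prod, ← Finset.prod_mul_distrib]
    congr 1
    refine Finset.prod_congr rfl fun θ hθ => ?_
    rw [map_div₀, div_mul_cancel₀ _ ((v.ne_zero_iff).2 (hz' θ (hNroot r θ hθ)).1)]
  have hgen : ∀ r, Sup.Val (ringExpChar K) (ϖ ^ ℓ)
      ((∏ θ ∈ N r, v (z θ)) ^ ℓ * ϖ ^ (-((c₁ + c₂) * (N r).card))) := by
    intro r
    obtain ⟨Y, hYv, hYe⟩ := hY r
    have h1 : (∏ θ ∈ N r, v (z θ)) ^ ℓ * ϖ ^ (-((c₁ + c₂) * (N r).card)) =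
        v (Ar r) ^ ℓ * ϖ ^ (-(c₁ * (N r).card)) * ((W * ϖ ^ (-c₂)) ^ (N r).card * Y ^ ℓ) := by
      have h2 : (ϖ ^ (-c₂)) ^ (N r).card = ϖ ^ (-(c₂ * (N r).card)) := by
        rw [← zpow_natCast, ← zpow_mul, neg_mul]
      have h3 : ϖ ^ (-((c₁ + c₂) * (N r).card)) = ϖ ^ (-(c₁ * (N r).card)) * ϖ ^ (-(c₂ * (N r).card)) := by
        rw [← zpow_add₀ hϖ0.ne']
        congr 1
        ring
      rw [hprod r, hYe, mul_pow W, h2, h3]
      ring
    rw [h1]
    exact (hc₁ r).mul ((hc₂.pow _).mul (Sup.Val.pow_self ℓ hYv))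
  by_cases hfin : ∀ θ, (p.map (algebraMap K M)).eval θ = 0 → v ((θ - R) / A) ≤ 1
  · refine ⟨0, fun _ => rfl, ?_⟩
    -- the residues of the roots
    have hres : ∀ θ ∈ (p.map (algebraMap K M)).roots.toFinset, ∃ r' : F,
        v ((θ - R) / A - algebraMap F M r') < 1 := by
      intro θ hθ
      exact hL.ctx.residue _ (hfin θ ((hrts θ).1 hθ))
    choose! res hres1 using hres
    have hfilt : ∀ r' : F, (p.map (algebraMap K M)).roots.toFinset.filter (fun θ => res θ = r') = N r' := by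
      intro r'
      rw [← hN' r']
      unfold nearA
      apply Finset.filter_congr
      intro θ hθ
      constructor
      · rintro rfl
        exact hres1 θ hθ
      · intro h'
        exact hL.ctx.residue_unique (hres1 θ hθ) h'
    have hσS : ∀ σ : M ≃ₐ[K] M, ∀ θ ∈ (p.map (algebraMap K M)).roots.toFinset,
        σ θ ∈ (p.map (algebraMap K M)).roots.toFinset := fun σ θ hθ =>
      (hrts _).2 (hσrts σ θ ((hrts θ).1 hθ))
    have hZt : Sup.Val (ringExpChar K) ϖ (v (∏ θ ∈ (p.map (algebraMap K M)).roots.toFinset, z θ)) := by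
      refine hfix1 _ (Finset.prod_ne_zero_iff.mpr fun θ hθ => hz θ ((hrts θ).1 hθ)) fun σ => ?_
      obtain ⟨n, e, -, hnz, hdvd, -⟩ := hQ σ
      rw [map_prod, Finset.prod_congr rfl (fun θ hθ => hnz θ ((hrts θ).1 hθ)), Finset.prod_mul_distrib,
        l1_prod_perm σ _ (hσS σ) (fun θ => ξ ^ n θ), l1_prod_perm σ _ (hσS σ) z]
      have h1 : ∏ θ ∈ (p.map (algebraMap K M)).roots.toFinset, ξ ^ n θ = 1 := by
        rw [hpe]
        exact (hζ.zpow_eq_one_iff_dvd _).mpr hdvd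
      rw [h1, one_mul]
    have hcardsum : ∑ r' ∈ (p.map (algebraMap K M)).roots.toFinset.image res, (N r').card = p.natDegree := by
      rw [← l1_card (K := K) (M := M) hs, Finset.card_eq_sum_card_fiberwise (f := res)
        (t := (p.map (algebraMap K M)).roots.toFinset.image res) (fun θ hθ => Finset.mem_image_of_mem res hθ)]
      exact Finset.sum_congr rfl fun r' _ => by rw [hfilt]
    have hgroup : v (∏ θ ∈ (p.map (algebraMap K M)).roots.toFinset, z θ) =
        ∏ r' ∈ (p.map (algebraMap K M)).roots.toFinset.image res, ∏ θ ∈ N r', v (z θ) := by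
      rw [map_prod, ← Finset.prod_fiberwise_of_maps_to (t := (p.map (algebraMap K M)).roots.toFinset.image res)
        (g := res) (fun θ hθ => Finset.mem_image_of_mem res hθ) (fun θ => v (z θ))]
      exact Finset.prod_congr rfl fun r' _ => by rw [hfilt]
    have htot : Sup.Val (ringExpChar K) (ϖ ^ ℓ) (ϖ ^ (-((c₁ + c₂) * p.natDegree))) := by
      have h1 : ϖ ^ (-((c₁ + c₂) * p.natDegree)) =
          (∏ r' ∈ (p.map (algebraMap K M)).roots.toFinset.image res,
            ((∏ θ ∈ N r', v (z θ)) ^ ℓ * ϖ ^ (-((c₁ + c₂) * (N r').card)))) *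
          (v (∏ θ ∈ (p.map (algebraMap K M)).roots.toFinset, z θ) ^ ℓ)⁻¹ := by
        have h2 : ∀ S : Finset F, ∏ r' ∈ S, ϖ ^ (-((c₁ + c₂) * (N r').card)) =
            ϖ ^ (-((c₁ + c₂) * ∑ r' ∈ S, ((N r').card : ℤ))) := by
          intro S
          induction S using Finset.induction_on with
          | empty => rw [Finset.prod_empty, Finset.sum_empty, mul_zero, neg_zero, zpow_zero]
          | insert a S ha ih =>
            rw [Finset.prod_insert ha, Finset.sum_insert ha, ih, ← zpow_add₀ hϖ0.ne']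
            congr 1
            ring
        have h3 : v (∏ θ ∈ (p.map (algebraMap K M)).roots.toFinset, z θ) ^ ℓ ≠ 0 := by
          refine pow_ne_zero _ ((v.ne_zero_iff).2 (Finset.prod_ne_zero_iff.mpr fun θ hθ => hz θ ((hrts θ).1 hθ)))
        rw [Finset.prod_mul_distrib, Finset.prod_pow, ← hgroup, h2, ← hcardsum, Nat.cast_sum,
          mul_comm (v (∏ θ ∈ (p.map (algebraMap K M)).roots.toFinset, z θ) ^ ℓ), mul_assoc,
          mul_inv_cancel₀ h3, mul_one]
      rw [h1]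
      exact (Sup.Val.prod _ _ fun r' _ => hgen r').mul (Sup.Val.pow_self ℓ hZt).inv
    have hdvd : (ℓ : ℤ) ∣ c₁ + c₂ := by
      have h1 := Sup.Val.dvd_of_zpow hcq hϖ0 hϖ1 _ htot
      rw [dvd_neg] at h1
      have hcop : p.natDegree.Coprime ℓ := by
        have h2 := hG.coprime
        rwa [natDegree_map] at h2
      have h3 : IsCoprime (ℓ : ℤ) (p.natDegree : ℤ) := (Nat.isCoprime_iff_coprime.2 hcop).symm
      exact h3.dvd_of_dvd_mul_right h1
    intro r
    obtain ⟨m, hm⟩ := hdvd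
    have h1 : (∏ θ ∈ N r, v (z θ)) ^ ℓ * ϖ ^ (-(0 * ((N r).card : ℤ))) =
        ((∏ θ ∈ N r, v (z θ)) ^ ℓ * ϖ ^ (-((c₁ + c₂) * (N r).card))) * (ϖ ^ ℓ) ^ (m * (N r).card) := by
      have h2 : (ϖ ^ ℓ) ^ (m * (N r).card) = ϖ ^ ((ℓ : ℤ) * (m * (N r).card)) := by
        rw [zpow_mul ϖ (ℓ : ℤ), zpow_natCast]
      rw [h2, mul_assoc, ← zpow_add₀ hϖ0.ne', hm]
      congr 2
      ring
    rw [h1]
    exact (hgen r).mul ⟨0, m * (N r).card, by rw [pow_zero, pow_one]⟩
  · exact ⟨c₁ + c₂, fun h => absurd h hfin, hgen⟩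

end

end Pool.Agent.Lib.MP_89bcae_ag.Zm
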