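import Mathlib
import Pool.Agent.Lib.MP_89bcae_ag.Z.L3
import Pool.Agent.Lib.MP_89bcae_ag.Zm.L1

/-!
# From the local form to the values of the functions `z`, in an arbitrary chart
-/

attribute [local instance 100000] Pool.Agent.Lib.MP_89bcae_ag.Brt.tffFields
attribute [local instance 100000] Pool.Agent.Lib.MP_89bcae_ag.Wt.ifrNF Pool.Agent.Lib.MP_89bcae_ag.Wt.iddNF

open Polynomial IsDedekindDomain

open scoped Classical

namespace Pool.Agent.Lib.MP_89bcae_ag.Zm

open Pool.Agent.Lib.MP_89bcae_ag.Wt Pool.Agent.Lib.MP_89bcae_ag.Wt.Lns Pool.Agent.Lib.MP_89bcae_ag.Bra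
  Pool.Agent.Lib.MP_89bcae_ag.Brt

open Pool.Agent.Lib.MP_89bcae_ag.Zs (KumD l3_restrict l3_roots)

section

variable {F L Ω K M : Type} [Field F] [IsAlgClosed F] [Field L] [Algebra F[X] L] [Field Ω] [Algebra L Ω]
  [IsAlgClosure L Ω] [Field K] [Field M] [Algebra K M] [IsAlgClosure K M] {ℓ : ℕ} {f : L[X]}
  [hG : IsGood ℓ (f.map (algebraMap L Ω))]

/-- The values of the functions `z`. -/
theorem l3_model (hℓ : ℓ.Prime) (hfm : f.Monic) (hsep : f.Separable) {ζ : L}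
    (hζ : IsPrimitiveRoot ζ ℓ) {z : Ω → Ω} {c : (Ω ≃ₐ[L] Ω) → JacOver ℓ f Ω} (hz : KumD ζ z c)
    [Algebra F[X] K] [Algebra F M] (hcq : (ringExpChar K).Coprime ℓ) {s : F} {v : AbsoluteValue M ℝ}
    (hL : LocF F K s v) (i : L →+* K) (j : Ω →+* M)
    (hij : ∀ z, j (algebraMap L Ω z) = algebraMap K M (i z)) {a b ρ : L}
    [hG' : IsGood ℓ ((f.map i).map (algebraMap K M))] (hc : LTm ℓ F f i j v a ρ c) (ha : a ≠ 0) (hb : b ≠ 0)
    (hlead : Lead ℓ v (algebraMap K M (i a)) (algebraMap K M (i ρ)) (algebraMap K M (i b))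
      ((f.map i).map (algebraMap K M))) :
    ∃ c₀ : ℤ, ((∀ θ, ((f.map i).map (algebraMap K M)).eval θ = 0 →
        v ((θ - algebraMap K M (i ρ)) / algebraMap K M (i a)) ≤ 1) → c₀ = 0) ∧
      ∀ r : F, (∀ θ ∈ nearA v (algebraMap K M (i a)) (algebraMap K M (i ρ)) ((f.map i).map (algebraMap K M)) r,
          ∀ θ' ∈ nearA v (algebraMap K M (i a)) (algebraMap K M (i ρ)) ((f.map i).map (algebraMap K M)) r,
            ∃ σ : M ≃ₐ[K] M, σ θ = θ') →
        ∀ θ₀ : Ω, (f.map (algebraMap L Ω)).eval θ₀ = 0 →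
          v ((j θ₀ - algebraMap K M (i ρ)) / algebraMap K M (i a) - algebraMap F M r) < 1 →
            Sup.Val (ringExpChar K) (v (algebraMap K M (algebraMap F[X] K X) - algebraMap F M s) ^ ℓ)
              ((v (j (z θ₀)) ^ ℓ * v (algebraMap K M (algebraMap F[X] K X) - algebraMap F M s) ^ (-c₀)) ^
                (nearA v (algebraMap K M (i a)) (algebraMap K M (i ρ))
                  ((f.map i).map (algebraMap K M)) r).card) := by
  have hM : IsAlgClosed M := IsAlgClosure.isAlgClosed K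
  have hpol : (f.map i).map (algebraMap K M) = (f.map (algebraMap L Ω)).map j := l3_roots i j hij
  have hinj : Function.Injective j := j.injective
  have hf0 : f.map (algebraMap L Ω) ≠ 0 := (hfm.map _).ne_zero
  have hev : ∀ θ : Ω, ((f.map i).map (algebraMap K M)).eval (j θ) = j ((f.map (algebraMap L Ω)).eval θ) := by
    intro θ
    rw [hpol, eval_map, eval₂_hom]
  have hroot : ∀ θ' : M, ((f.map i).map (algebraMap K M)).eval θ' = 0 →
      ∃ θ : Ω, j θ = θ' ∧ (f.map (algebraMap L Ω)).eval θ = 0 := by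
    intro θ' hθ'
    have hΩ : IsAlgClosed Ω := IsAlgClosure.isAlgClosed L
    have h1 : θ' ∈ ((f.map (algebraMap L Ω)).map j).roots := by
      rw [← hpol, mem_roots (by rw [hpol]; exact ((hfm.map _).map _).ne_zero)]
      exact hθ'
    rw [(IsAlgClosed.splits (f.map (algebraMap L Ω))).roots_map j, Multiset.mem_map] at h1
    obtain ⟨θ, h2, h3⟩ := h1
    exact ⟨θ, h3, (mem_roots hf0).1 h2⟩
  -- functions on `M`
  let zM : M → M := fun y => if h : ∃ θ, j θ = y then j (z h.choose) else 1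
  have hzM : ∀ θ, zM (j θ) = j (z θ) := by
    intro θ
    have h : ∃ θ', j θ' = j θ := ⟨θ, rfl⟩
    show (if h : ∃ θ', j θ' = j θ then j (z h.choose) else 1) = _
    rw [dif_pos h, hinj h.choose_spec]
  obtain ⟨Q, hQ⟩ := hc
  have hQ' : ∀ g : M ≃ₐ[K] M, ∃ n e : M → ℤ,
      (rm n + rm e : Jac ℓ ((f.map i).map (algebraMap K M))) = symJ (gs (f.map i) g) Q - Q ∧
      (∀ θ, ((f.map i).map (algebraMap K M)).eval θ = 0 →
        g (zM θ) = algebraMap K M (i ζ) ^ n (g θ) * zM (g θ)) ∧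
      (ℓ : ℤ) ∣ ∑ θ ∈ ((f.map i).map (algebraMap K M)).roots.toFinset, n θ ∧
      ∀ r' : F, (ℓ : ℤ) ∣ ∑ θ ∈ nearA v (algebraMap K M (i a)) (algebraMap K M (i ρ))
        ((f.map i).map (algebraMap K M)) r', e θ := by
    intro g
    obtain ⟨g', hg'⟩ := l3_restrict i j hij g
    obtain ⟨n, hn1, hn2, hn3⟩ := hz.2 g'
    let nM : M → ℤ := fun y => if h : ∃ θ, j θ = y then n h.choose else 0
    have hnM : ∀ θ, nM (j θ) = n θ := by
      intro θ
      have h : ∃ θ', j θ' = j θ := ⟨θ, rfl⟩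
      show (if h : ∃ θ', j θ' = j θ then n h.choose else 0) = _
      rw [dif_pos h, hinj h.choose_spec]
    obtain ⟨e, he, he1⟩ := hQ g g' hg' hpol.symm
    refine ⟨nM, e, ?_, ?_, ?_, he1⟩
    · rw [← he, hn2]
      congr 1
      exact (jacMap_rm _ _ n nM fun θ _ => hnM θ).symm
    · intro θ' hθ'
      obtain ⟨θ, rfl, h2⟩ := hroot θ' hθ'
      rw [hzM, ← hg', ← hg', hzM, hnM, hn1 θ h2, map_mul, map_zpow₀, hij]
    · have h1 : ((f.map i).map (algebraMap K M)).roots.toFinset =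
          (f.map (algebraMap L Ω)).roots.toFinset.image j := by
        rw [hpol]
        have hΩ : IsAlgClosed Ω := IsAlgClosure.isAlgClosed L
        rw [(IsAlgClosed.splits (f.map (algebraMap L Ω))).roots_map j]
        exact Multiset.toFinset_map _ _
      rw [h1, Finset.sum_image fun x _ y _ h => hinj h]
      simp only [hnM]
      exact hn3
  have hζM : IsPrimitiveRoot (algebraMap K M (i ζ)) ℓ := hζ.map_of_injective ((algebraMap K M).comp i).injective
  obtain ⟨c₀, hc₀, key⟩ := lm_z (F := F) (K := K) (M := M) (p := f.map i) (lam := i a) (rho := i ρ) (bet := i b)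
    hL hℓ hcq (hfm.map i) (hsep.map) ((map_ne_zero i).2 ha) ((map_ne_zero i).2 hb) hlead (ζ := i ζ) hζM
    (z := zM) (fun θ' hθ' => by
      obtain ⟨θ, rfl, h2⟩ := hroot θ' hθ'
      rw [hzM]
      exact (map_ne_zero j).2 (hz.1 θ h2)) Q hQ'
  refine ⟨c₀, hc₀, fun r horb θ₀ hθ₀ hr => ?_⟩
  obtain ⟨N, hN⟩ : ∃ N, N = nearA v (algebraMap K M (i a)) (algebraMap K M (i ρ))
    ((f.map i).map (algebraMap K M)) r := ⟨_, rfl⟩
  have hk := key r
  rw [← hN] at hk horb ⊢
  have hmem : j θ₀ ∈ N := by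
    rw [hN, mem_nearA hsep.map]
    exact ⟨by rw [hev, hθ₀, map_zero], hr⟩
  have hNr : ∀ θ ∈ N, ((f.map i).map (algebraMap K M)).eval θ = 0 := fun θ h => by
    rw [hN, mem_nearA hsep.map] at h
    exact h.1
  have hξv : v (algebraMap K M (i ζ)) = 1 := by
    have h1 : v (algebraMap K M (i ζ)) ^ ℓ = 1 := by rw [← map_pow, hζM.pow_eq_one, map_one]
    exact (pow_eq_one_iff_of_nonneg (v.nonneg _) hG.ne).1 h1
  have h1 : ∏ θ ∈ N, v (zM θ) = v (j (z θ₀)) ^ N.card := by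
    apply Finset.prod_eq_pow_card
    intro θ' hθ'
    obtain ⟨σ, rfl⟩ := horb _ hmem θ' hθ'
    obtain ⟨n, e, -, hn, -⟩ := hQ' σ
    have h2 := congrArg v (hn _ (hNr _ hmem))
    rw [hL.inv σ, v.map_mul, map_zpow₀, hξv, one_zpow, one_mul, hzM] at h2
    exact h2.symm
  rw [h1] at hk
  have h2 : (v (j (z θ₀)) ^ ℓ * v (algebraMap K M (algebraMap F[X] K X) - algebraMap F M s) ^ (-c₀)) ^ N.card =
      (v (j (z θ₀)) ^ N.card) ^ ℓ *
        v (algebraMap K M (algebraMap F[X] K X) - algebraMap F M s) ^ (-(c₀ * N.card)) := by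
    rw [mul_pow, ← pow_mul, ← pow_mul, mul_comm ℓ, ← zpow_natCast (v _ ^ (-c₀)), ← zpow_mul, neg_mul]
  rw [h2]
  exact hk

end

end Pool.Agent.Lib.MP_89bcae_ag.Zm
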