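import Mathlib
import Pool.Agent.Lib.MP_89bcae_ag.Zc.Orb
import Pool.Agent.Lib.MP_89bcae_ag.Zm.Loc

/-!
# The roots of a polynomial over a local field, in an arbitrary chart

The polynomial `φ` in `x` with coefficients in `F[t]` is not supposed monic, only `φ(s, x) ≠ 0`: it can have roots at
infinity.
-/

attribute [local instance 100000] Pool.Agent.Lib.MP_89bcae_ag.Brt.tffFields
attribute [local instance 100000] Pool.Agent.Lib.MP_89bcae_ag.Wt.ifrNF Pool.Agent.Lib.MP_89bcae_ag.Wt.iddNF

open Polynomial IsDedekindDomain IsLocalRing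

open scoped Classical Polynomial.Bivariate

namespace Pool.Agent.Lib.MP_89bcae_ag.Zm

open Pool.Agent.Lib.MP_89bcae_ag.Wt Pool.Agent.Lib.MP_89bcae_ag.Wt.Lns Pool.Agent.Lib.MP_89bcae_ag.Bra
  Pool.Agent.Lib.MP_89bcae_ag.Brt
open Pool.Agent.Lib.MP_89bcae_ag.Zc (io io_sub ev_sub exists_quot evalEval_res)
open Pool.Agent.Lib.MP_89bcae_ag.Zp (IsSmoothAt)

set_option linter.unusedSectionVars false

section Val

variable {F E : Type} [Field F] [Field E] [Algebra F E] {v : AbsoluteValue E ℝ}

lemma vadd (hna : ∀ x y, v (x + y) ≤ max (v x) (v y)) {x y : E} (hx : v x < 1)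
    (hy : v y < 1) : v (x + y) < 1 :=
  lt_of_le_of_lt (hna x y) (max_lt hx hy)

lemma vsub_comm (x y : E) : v (x - y) = v (y - x) := by
  have h : x - y = -(y - x) := by ring
  rw [h, v.map_neg]

lemma vmul (hna : ∀ x y, v (x + y) ≤ max (v x) (v y)) {a a' b b' : E}
    (h : v (a - b) < 1) (h' : v (a' - b') < 1) (ha' : v a' ≤ 1) (hb : v b ≤ 1) :
    v (a * a' - b * b') < 1 := by
  have h1 : a * a' - b * b' = (a - b) * a' + b * (a' - b') := by ring
  rw [h1]
  apply vadd hna
  · rw [v.map_mul]
    exact lt_of_le_of_lt (mul_le_of_le_one_right (v.nonneg _) ha') h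
  · rw [v.map_mul]
    exact lt_of_le_of_lt (mul_le_of_le_one_left (v.nonneg _) hb) h'

lemma vle (hna : ∀ x y, v (x + y) ≤ max (v x) (v y)) {a b : E}
    (h : v (a - b) < 1) (hb : v b ≤ 1) : v a ≤ 1 := by
  have h1 := hna (a - b) b
  rw [sub_add_cancel] at h1
  exact h1.trans (max_le h.le hb)

lemma veq (hna : ∀ x y, v (x + y) ≤ max (v x) (v y)) {a b : E}
    (h : v (a - b) < 1) (hb : v b = 1) : v a = 1 := by
  apply le_antisymm (vle hna h hb.le)
  have h3 := hna a (-(a - b))
  rw [v.map_neg] at h3
  have h4 : a + -(a - b) = b := by ring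
  rw [h4, hb] at h3
  rcases le_max_iff.1 h3 with h5 | h5
  · exact h5
  · exact absurd h (not_lt.2 h5)

lemma vtrans (hna : ∀ x y, v (x + y) ≤ max (v x) (v y)) {a b c : E}
    (h : v (a - b) < 1) (h' : v (b - c) < 1) : v (a - c) < 1 := by
  have h1 : a - c = (a - b) + (b - c) := by ring
  rw [h1]
  exact vadd hna h h'

lemma vc (hc : ∀ c : F, c ≠ 0 → v (algebraMap F E c) = 1) (c : F) : v (algebraMap F E c) ≤ 1 := by
  by_cases h : c = 0
  · rw [h, map_zero, v.map_zero]
    exact zero_le_one
  · exact (hc c h).le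

lemma v0 (hc : ∀ c : F, c ≠ 0 → v (algebraMap F E c) = 1) {c : F} (h : v (algebraMap F E c) < 1) : c = 0 := by
  by_contra h1
  rw [hc c h1] at h
  exact lt_irrefl _ h

/-- The values of `c - θ` for the roots at infinity. -/
lemma vinf (hna : ∀ x y, v (x + y) ≤ max (v x) (v y)) (hc : ∀ c : F, c ≠ 0 → v (algebraMap F E c) = 1)
    (c : F) {θ : E} (hθ : 1 < v θ) : v (algebraMap F E c - θ) = v θ := by
  have h0 : v (algebraMap F E c) < v θ := lt_of_le_of_lt (vc hc c) hθ
  apply le_antisymm
  · have h1 := hna (algebraMap F E c) (-θ)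
    rw [v.map_neg, ← sub_eq_add_neg] at h1
    exact h1.trans (max_le h0.le le_rfl)
  · have h1 := hna (algebraMap F E c) (-(algebraMap F E c - θ))
    rw [v.map_neg] at h1
    have h2 : algebraMap F E c + -(algebraMap F E c - θ) = θ := by ring
    rw [h2] at h1
    rcases le_max_iff.1 h1 with h3 | h3
    · exact absurd h0 (not_lt.2 h3)
    · exact h3

/-- The values of `c - θ` for the other roots. -/
lemma vfin (hna : ∀ x y, v (x + y) ≤ max (v x) (v y)) (hc : ∀ c : F, c ≠ 0 → v (algebraMap F E c) = 1)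
    {c r : F} {θ : E} (hθ : v (θ - algebraMap F E r) < 1) (hcr : c ≠ r) : v (algebraMap F E c - θ) = 1 := by
  refine veq hna (b := algebraMap F E (c - r)) ?_ (hc _ (sub_ne_zero.2 hcr))
  have h1 : algebraMap F E c - θ - algebraMap F E (c - r) = -(θ - algebraMap F E r) := by
    rw [map_sub]
    ring
  rw [h1, v.map_neg]
  exact hθ

lemma vprod_fin (hna : ∀ x y, v (x + y) ≤ max (v x) (v y))
    (hc : ∀ c : F, c ≠ 0 → v (algebraMap F E c) = 1) (res : E → F) (c : F) (S : Multiset E)
    (hS : ∀ θ ∈ S, v (θ - algebraMap F E (res θ)) < 1) :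
    v ((S.map fun θ => algebraMap F E c - θ).prod - algebraMap F E ((S.map fun θ => c - res θ).prod)) < 1 := by
  induction S using Multiset.induction_on with
  | empty => simp
  | cons a S ih =>
    rw [Multiset.map_cons, Multiset.prod_cons, Multiset.map_cons, Multiset.prod_cons, map_mul]
    have h1 := ih fun θ hθ => hS θ (Multiset.mem_cons_of_mem hθ)
    have h2 : v ((algebraMap F E c - a) - algebraMap F E (c - res a)) < 1 := by
      have h3 : (algebraMap F E c - a) - algebraMap F E (c - res a) = -(a - algebraMap F E (res a)) := by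
        rw [map_sub]
        ring
      rw [h3, v.map_neg]
      exact hS a (Multiset.mem_cons_self a S)
    exact vmul hna h2 h1 (vle hna h1 (vc hc _)) (vc hc _)

lemma vprod_inf (hna : ∀ x y, v (x + y) ≤ max (v x) (v y))
    (hc : ∀ c : F, c ≠ 0 → v (algebraMap F E c) = 1) (c : F) (S : Multiset E)
    (hS : ∀ θ ∈ S, 1 < v θ) :
    v ((S.map fun θ => (algebraMap F E c - θ) * (-θ)⁻¹).prod - 1) < 1 := by
  induction S using Multiset.induction_on with
  | empty => simp
  | cons a S ih =>
    rw [Multiset.map_cons, Multiset.prod_cons]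
    have h1 := ih fun θ hθ => hS θ (Multiset.mem_cons_of_mem hθ)
    have ha := hS a (Multiset.mem_cons_self a S)
    have ha0 : a ≠ 0 := by
      rintro rfl
      rw [v.map_zero] at ha
      exact absurd ha (by norm_num)
    have h2 : v ((algebraMap F E c - a) * (-a)⁻¹ - 1) < 1 := by
      have h3 : (algebraMap F E c - a) * (-a)⁻¹ - 1 = algebraMap F E c * (-a)⁻¹ := by
        have : -a ≠ 0 := neg_ne_zero.2 ha0
        field_simp
        ring
      rw [h3, v.map_mul, map_inv₀, v.map_neg]
      have h4 : (v a)⁻¹ < 1 := inv_lt_one_of_one_lt₀ ha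
      have h5 : 0 ≤ (v a)⁻¹ := inv_nonneg.2 (v.nonneg a)
      calc v (algebraMap F E c) * (v a)⁻¹ ≤ 1 * (v a)⁻¹ := mul_le_mul_of_nonneg_right (vc hc c) h5
        _ < 1 := by rw [one_mul]; exact h4
    have h6 := vmul hna h2 h1 (vle hna h1 (by rw [map_one])) (b := (1 : E)) (by rw [map_one])
    rw [one_mul] at h6
    exact h6

end Val

section

variable {F K E : Type} [Field F] [IsAlgClosed F] [Field K] [Algebra F[X] K] [Field E]
  [Algebra K E] [Algebra F E] [IsAlgClosure K E] {s : F} {v : AbsoluteValue E ℝ}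
  {φ : F[X][Y]} {p : E[X]} {θ : E}

/-- The values at the constants. -/
lemma ev_const (hL : LocF F K s v) (hp : p = φ.map (io F K E)) (c : F) :
    v (p.eval (algebraMap F E c) - algebraMap F E ((φ.map (evalRingHom s)).eval c)) < 1 := by
  have h2 := ev_sub hL (θ := algebraMap F E c) (r := c) (by rw [sub_self, map_zero]; exact zero_lt_one) φ
  rw [← hp] at h2
  have h6 : (φ.map (evalRingHom s)).eval c = φ.evalEval s c := map_evalRingHom_eval s c φ
  rw [h6]
  exact h2

/-- The leading coefficient and the roots at infinity. -/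
lemma lead_multiset (hL : LocF F K s v) (hφ : φ.map (evalRingHom s) ≠ 0) (hp : p = φ.map (io F K E)) :
    v p.leadingCoeff * ((p.roots.filter fun θ => 1 < v θ).map v).prod = 1 := by
  have hE : IsAlgClosed E := IsAlgClosure.isAlgClosed K
  have hinf : Infinite F := IsAlgClosed.instInfinite
  have hna := hL.ctx.nonarch
  have hc := hL.ctx.const
  have hres : ∀ x : E, ∃ r : F, v x ≤ 1 → v (x - algebraMap F E r) < 1 := by
    intro x
    by_cases hx : v x ≤ 1
    · obtain ⟨r, hr⟩ := hL.ctx.residue x hx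
      exact ⟨r, fun _ => hr⟩
    · exact ⟨0, fun h => absurd h hx⟩
  choose res hres using hres
  obtain ⟨c, hcS⟩ := Infinite.exists_notMem_finset ((φ.map (evalRingHom s)).roots.toFinset ∪
    (p.roots.toFinset.image res))
  rw [Finset.mem_union, not_or] at hcS
  have hc1 : (φ.map (evalRingHom s)).eval c ≠ 0 := by
    intro h
    apply hcS.1
    rw [Multiset.mem_toFinset, mem_roots hφ]
    exact h
  have hc2 : ∀ θ ∈ p.roots, c ≠ res θ := by
    rintro θ hθ rfl
    exact hcS.2 (Finset.mem_image_of_mem _ (Multiset.mem_toFinset.2 hθ))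
  have h1 : v (p.eval (algebraMap F E c)) = 1 := veq hna (ev_const hL hp c) (hc _ hc1)
  rw [(IsAlgClosed.splits p).eval_eq_prod_roots, v.map_mul, map_multiset_prod, Multiset.map_map] at h1
  have h2 : (p.roots.map (v ∘ fun θ => algebraMap F E c - θ)).prod =
      ((p.roots.filter fun θ => 1 < v θ).map v).prod := by
    conv_lhs => rw [← Multiset.filter_add_not (fun θ => 1 < v θ) p.roots]
    rw [Multiset.map_add, Multiset.prod_add]
    have h3 : ((p.roots.filter fun θ => ¬ 1 < v θ).map (v ∘ fun θ => algebraMap F E c - θ)).prod = 1 := by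
      apply Multiset.prod_eq_one
      intro y hy
      rw [Multiset.mem_map] at hy
      obtain ⟨θ, hθ, rfl⟩ := hy
      rw [Multiset.mem_filter] at hθ
      exact vfin hna hc (hres θ (not_lt.1 hθ.2)) (hc2 θ hθ.1)
    rw [h3, mul_one]
    congr 1
    apply Multiset.map_congr rfl
    intro θ hθ
    exact vinf hna hc c (Multiset.mem_filter.1 hθ).2
  rw [h2] at h1
  exact h1

/-- The leading coefficient and the roots at infinity. -/
theorem lead (hL : LocF F K s v) (hφ : φ.map (evalRingHom s) ≠ 0) (hp : p = φ.map (io F K E)) :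
    v p.leadingCoeff * ∏ θ ∈ nrI v p, v θ ^ wt p θ = 1 := by
  rw [← lead_multiset hL hφ hp, Finset.prod_multiset_map_count, Multiset.toFinset_filter]
  congr 1
  unfold nrI
  refine Finset.prod_congr rfl fun θ hθ => ?_
  rw [Multiset.count_filter_of_pos (p := fun θ => 1 < v θ) (Finset.mem_filter.1 hθ).2, count_roots]
  rfl

/-- The factorization of `φ(s, x)`: its roots are the residues of the roots which are not at infinity. -/
theorem exists_fact (hL : LocF F K s v) (hφ : φ.map (evalRingHom s) ≠ 0) (hp : p = φ.map (io F K E))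
    (res : E → F) (hres : ∀ θ, v θ ≤ 1 → v (θ - algebraMap F E (res θ)) < 1) :
    ∃ u : F, u ≠ 0 ∧ φ.map (evalRingHom s) =
      C u * ((p.roots.filter fun θ => v θ ≤ 1).map fun θ => X - C (res θ)).prod := by
  have hE : IsAlgClosed E := IsAlgClosure.isAlgClosed K
  have hinf : Infinite F := IsAlgClosed.instInfinite
  have hna := hL.ctx.nonarch
  have hc := hL.ctx.const
  set I : Multiset E := p.roots.filter fun θ => 1 < v θ with hI
  set J : Multiset E := p.roots.filter fun θ => v θ ≤ 1 with hJ
  have hIJ : I + J = p.roots := by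
    conv_rhs => rw [← Multiset.filter_add_not (fun θ => 1 < v θ) p.roots]
    rw [hI, hJ]
    congr 1
    apply Multiset.filter_congr
    intro θ _
    exact not_lt.symm
  set A : E := p.leadingCoeff * (I.map fun θ => -θ).prod with hA
  have hvA : v A = 1 := by
    rw [hA, v.map_mul, map_multiset_prod, Multiset.map_map, ← lead_multiset hL hφ hp]
    congr 2
    apply Multiset.map_congr rfl
    intro θ _
    exact v.map_neg θ
  obtain ⟨u, hu⟩ := hL.ctx.residue A hvA.le
  have hu0 : u ≠ 0 := by
    rintro rfl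
    rw [map_zero, sub_zero, hvA] at hu
    exact lt_irrefl _ hu
  refine ⟨u, hu0, ?_⟩
  apply Polynomial.funext
  intro c
  have h1 := ev_const hL hp c
  rw [(IsAlgClosed.splits p).eval_eq_prod_roots, ← hIJ, Multiset.map_add, Multiset.prod_add] at h1
  have h2 := vprod_fin hna hc res c J fun θ hθ => hres θ (Multiset.mem_filter.1 hθ).2
  have h3 := vprod_inf hna hc c I fun θ hθ => (Multiset.mem_filter.1 hθ).2
  have hne : (I.map fun θ => -θ).prod ≠ 0 := by
    intro h0
    rw [hA, h0, mul_zero, map_zero] at hvA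
    exact zero_ne_one hvA
  have h4 : (I.map fun θ => (algebraMap F E c - θ) * (-θ)⁻¹).prod =
      (I.map fun θ => algebraMap F E c - θ).prod * ((I.map fun θ => -θ).prod)⁻¹ := by
    rw [Multiset.prod_map_mul, Multiset.prod_map_inv]
  rw [h4] at h3
  -- `A` times this is the leading coefficient times the product over `I`
  have h5 : v (p.leadingCoeff * (I.map fun θ => algebraMap F E c - θ).prod - A) < 1 := by
    have h6 : p.leadingCoeff * (I.map fun θ => algebraMap F E c - θ).prod - A =
        A * ((I.map fun θ => algebraMap F E c - θ).prod * ((I.map fun θ => -θ).prod)⁻¹ - 1) := by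
      rw [hA]
      field_simp
    rw [h6, v.map_mul, hvA, one_mul]
    exact h3
  have h6 : v (p.leadingCoeff * (I.map fun θ => algebraMap F E c - θ).prod - algebraMap F E u) < 1 :=
    vtrans hna h5 hu
  have h7 := vmul hna h6 h2 (vle hna h2 (vc hc _)) (vc hc _)
  rw [mul_assoc] at h7
  have h8 : v (algebraMap F E ((φ.map (evalRingHom s)).eval c) -
      algebraMap F E u * algebraMap F E ((J.map fun θ => c - res θ).prod)) < 1 := by
    refine vtrans hna ?_ h7
    rw [vsub_comm]
    exact h1
  rw [← map_mul, ← map_sub] at h8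
  rw [sub_eq_zero.1 (v0 hc h8), eval_mul, eval_C, eval_multiset_prod, Multiset.map_map]
  congr 2
  apply Multiset.map_congr rfl
  intro θ _
  simp

lemma exists_res (hL : LocF F K s v) : ∃ res : E → F, ∀ θ, v θ ≤ 1 → v (θ - algebraMap F E (res θ)) < 1 := by
  have hres : ∀ x : E, ∃ r : F, v x ≤ 1 → v (x - algebraMap F E r) < 1 := by
    intro x
    by_cases hx : v x ≤ 1
    · obtain ⟨r, hr⟩ := hL.ctx.residue x hx
      exact ⟨r, fun _ => hr⟩
    · exact ⟨0, fun h => absurd h hx⟩
  choose res hres using hres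
  exact ⟨res, hres⟩

/-- The number of the roots near `r` is the multiplicity of the root `r` of `φ(s, x)`. -/
theorem card_nr (hL : LocF F K s v) (hφ : φ.map (evalRingHom s) ≠ 0) (hp : p = φ.map (io F K E))
    (hsep : p.Separable) (r : F) : (nr F v p r).card = (φ.map (evalRingHom s)).rootMultiplicity r := by
  have hna := hL.ctx.nonarch
  have hc := hL.ctx.const
  obtain ⟨res, hres⟩ := exists_res hL
  obtain ⟨u, hu, hfact⟩ := exists_fact hL hφ hp res hres
  have h0 : (φ.map (evalRingHom s)).roots = (p.roots.filter fun θ => v θ ≤ 1).map res := by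
    rw [hfact, roots_C_mul _ hu]
    have h1 : ((p.roots.filter fun θ => v θ ≤ 1).map fun θ => X - C (res θ)) =
        (((p.roots.filter fun θ => v θ ≤ 1).map res).map fun a => X - C a) := by
      rw [Multiset.map_map]
      rfl
    rw [h1, roots_multiset_prod_X_sub_C]
  rw [← count_roots, h0, Multiset.count_map, Multiset.filter_filter]
  unfold nr
  rw [← Multiset.toFinset_filter, Multiset.toFinset_card_of_nodup ((nodup_roots hsep).filter _)]
  congr 1
  apply Multiset.filter_congr
  intro θ _
  constructor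
  · intro h
    have h1 : v θ ≤ 1 := vle hna h (vc hc r)
    refine ⟨?_, h1⟩
    have h2 := vtrans hna (by rw [vsub_comm]; exact h) (hres θ h1)
    rw [← map_sub] at h2
    exact sub_eq_zero.1 (v0 hc h2)
  · rintro ⟨h, h1⟩
    rw [h]
    exact hres θ h1

/-- If the degree of `φ(s, x)` is the degree of `φ`, there are no roots at infinity. -/
theorem nrI_eq_empty (hL : LocF F K s v) (hφ : φ.map (evalRingHom s) ≠ 0) (hp : p = φ.map (io F K E))
    (hdeg : (φ.map (evalRingHom s)).natDegree = φ.natDegree) : nrI v p = ∅ := by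
  have hE : IsAlgClosed E := IsAlgClosure.isAlgClosed K
  obtain ⟨res, hres⟩ := exists_res hL
  obtain ⟨u, hu, hfact⟩ := exists_fact hL hφ hp res hres
  have h1 : (φ.map (evalRingHom s)).natDegree = Multiset.card (p.roots.filter fun θ => v θ ≤ 1) := by
    rw [hfact, natDegree_C_mul hu]
    have h1 : ((p.roots.filter fun θ => v θ ≤ 1).map fun θ => X - C (res θ)) =
        (((p.roots.filter fun θ => v θ ≤ 1).map res).map fun a => X - C a) := by
      rw [Multiset.map_map]
      rfl
    rw [h1, natDegree_multiset_prod_X_sub_C_eq_card, Multiset.card_map]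
  have h2 : Multiset.card p.roots ≤ φ.natDegree := by
    refine (card_roots' p).trans ?_
    rw [hp]
    exact natDegree_map_le
  have h3 : Multiset.card (p.roots.filter fun θ => 1 < v θ) +
      Multiset.card (p.roots.filter fun θ => v θ ≤ 1) = Multiset.card p.roots := by
    rw [← Multiset.card_add]
    congr 1
    conv_rhs => rw [← Multiset.filter_add_not (fun θ => 1 < v θ) p.roots]
    congr 1
    apply Multiset.filter_congr
    intro θ _
    exact not_lt.symm
  have h4 : Multiset.card (p.roots.filter fun θ => 1 < v θ) = 0 := by omega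
  unfold nrI
  rw [← Multiset.toFinset_filter, Multiset.card_eq_zero.1 h4, Multiset.toFinset_zero]

/-- If the degree of `φ(s, x)` is the degree of `φ`, the values of all roots are at most `1`. -/
theorem v_le_one (hL : LocF F K s v) (hφ : φ.map (evalRingHom s) ≠ 0) (hp : p = φ.map (io F K E))
    (hdeg : (φ.map (evalRingHom s)).natDegree = φ.natDegree) (hp0 : p ≠ 0) (hθ : p.eval θ = 0) : v θ ≤ 1 := by
  by_contra h
  have h1 : θ ∈ nrI v p := by
    unfold nrI
    rw [Finset.mem_filter, Multiset.mem_toFinset, mem_roots hp0]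
    exact ⟨hθ, not_le.1 h⟩
  rw [nrI_eq_empty hL hφ hp hdeg] at h1
  exact absurd h1 (Finset.notMem_empty _)

/-- The value of `θ - r`, when `t` is not a uniformizing parameter. -/
theorem val_pow (hL : LocF F K s v) (hφ : φ.map (evalRingHom s) ≠ 0) (hp : p = φ.map (io F K E))
    (hθ : p.eval θ = 0) {r : F} (hr : v (θ - algebraMap F E r) < 1) (hd : (derivative (φ.eval (C r))).eval s ≠ 0) :
    v (θ - algebraMap F E r) ^ (φ.map (evalRingHom s)).rootMultiplicity r =
      v (algebraMap K E (algebraMap F[X] K X) - algebraMap F E s) := by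
  have hna := hL.ctx.nonarch
  have hc := hL.ctx.const
  obtain ⟨H, hH, hH'⟩ := exists_quot φ s
  obtain ⟨q, hq, hqr⟩ := exists_eq_pow_rootMultiplicity_mul_and_not_dvd _ hφ r
  rw [dvd_iff_isRoot, IsRoot.def] at hqr
  have hmc : ∀ g : F[X], ((g.map C).map (io F K E)).eval θ = (g.map (algebraMap F E)).eval θ := by
    intro g
    rw [Polynomial.map_map]
    congr 2
    ext c
    exact (hL.compat c).symm
  have h1 : (g : F[X]) → v ((g.map (algebraMap F E)).eval θ - algebraMap F E (g.eval r)) < 1 := by
    intro g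
    have h2 := ev_sub hL hr (g.map C)
    rw [hmc, evalEval_map_C] at h2
    exact h2
  have hvq : v ((q.map (algebraMap F E)).eval θ) = 1 := veq hna (h1 q) (hc _ hqr)
  have hvH : v ((H.map (io F K E)).eval θ) = 1 := by
    refine veq hna (ev_sub hL hr H) (hc _ ?_)
    rw [hH' r]
    exact hd
  have h3 : (((φ.map (evalRingHom s)).map (algebraMap F E)).eval θ) +
      (algebraMap K E (algebraMap F[X] K X) - algebraMap F E s) * (H.map (io F K E)).eval θ = 0 := by
    rw [← hθ, hp]
    conv_rhs => rw [hH]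
    rw [Polynomial.map_add, Polynomial.map_mul, eval_add, eval_mul, hmc, map_C, eval_C]
    congr 2
    rw [map_sub]
    congr 1
    exact hL.compat s
  have h4 : v (((φ.map (evalRingHom s)).map (algebraMap F E)).eval θ) =
      v (algebraMap K E (algebraMap F[X] K X) - algebraMap F E s) := by
    rw [eq_neg_of_add_eq_zero_left h3, v.map_neg, v.map_mul, hvH, mul_one]
  rw [← h4]
  conv_rhs => rw [hq]
  rw [Polynomial.map_mul, Polynomial.map_pow, Polynomial.map_sub, map_X, map_C, eval_mul, eval_pow, eval_sub, eval_X,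
    eval_C, v.map_mul, map_pow, hvq, mul_one]

/-- The two kinds of smooth points. -/
theorem card_or_val (hL : LocF F K s v) (hφ : φ.map (evalRingHom s) ≠ 0) (hp : p = φ.map (io F K E))
    (hsep : p.Separable) (hθ : p.eval θ = 0) {r : F} (hr : v (θ - algebraMap F E r) < 1)
    (hsm : IsSmoothAt φ s r) :
    (nr F v p r).card = 1 ∨ v (θ - algebraMap F E r) ^ (nr F v p r).card =
      v (algebraMap K E (algebraMap F[X] K X) - algebraMap F E s) := by
  rw [card_nr hL hφ hp hsep]
  have h2 : (φ.map (evalRingHom s)).eval r = 0 := by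
    have h3 := evalEval_res hL hp hθ hr
    have h6 : (φ.map (evalRingHom s)).eval r = φ.evalEval s r := map_evalRingHom_eval s r φ
    rw [h6, h3]
  rcases hsm h2 with h1 | h1
  · left
    have h4 : 0 < (φ.map (evalRingHom s)).rootMultiplicity r := (rootMultiplicity_pos hφ).2 h2
    have h5 : ¬ 1 < (φ.map (evalRingHom s)).rootMultiplicity r := by
      intro h6
      have h7 := (one_lt_rootMultiplicity_iff_isRoot hφ).1 h6
      exact h1 h7.2
    omega
  · right
    exact val_pow hL hφ hp hθ hr h1

section Orbit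

variable {p₀ : K[X]} {r : F}

lemma mem_nr (hp0 : p ≠ 0) {θ' : E} : θ' ∈ nr F v p r ↔ p.eval θ' = 0 ∧ v (θ' - algebraMap F E r) < 1 := by
  unfold nr
  rw [Finset.mem_filter, Multiset.mem_toFinset, mem_roots hp0, IsRoot.def]

lemma om_dvd (hp : p = p₀.map (algebraMap K E)) (hθ : p.eval θ = 0) :
    (minpoly K θ).map (algebraMap K E) ∣ p := by
  have h1 : aeval θ p₀ = p.eval θ := by
    rw [hp, eval_map_algebraMap]
  rw [hp]
  apply Polynomial.map_dvd
  apply minpoly.dvd
  rw [h1, hθ]

lemma om_int (θ : E) : IsIntegral K θ :=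
  ((IsAlgClosure.isAlgebraic (R := K) (K := E)).isAlgebraic θ).isIntegral

lemma om_conj {θ' : E} (h : θ' ∈ ((minpoly K θ).map (algebraMap K E)).roots) :
    ∃ σ : E ≃ₐ[K] E, σ θ = θ' := by
  have : Normal K E := IsAlgClosure.normal K E
  have h1 : aeval θ' (minpoly K θ) = 0 := by
    rw [← eval_map_algebraMap]
    exact (mem_roots'.1 h).2
  exact minpoly.exists_algEquiv_of_root' ((om_int θ).isAlgebraic) h1

/-- The conjugates of a root near `r` are near `r`. -/
lemma om_near (hL : LocF F K s v) (hr : v (θ - algebraMap F E r) < 1) (σ : E ≃ₐ[K] E) :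
    v (σ θ - algebraMap F E r) < 1 := by
  have h1 : σ θ - algebraMap F E r = σ (θ - algebraMap F E r) := by
    rw [map_sub, hL.compat, σ.commutes]
  rw [h1, hL.inv]
  exact hr

lemma om_sub (hL : LocF F K s v) (hp : p = p₀.map (algebraMap K E)) (hsep : p.Separable)
    (hθ : p.eval θ = 0) (hr : v (θ - algebraMap F E r) < 1) :
    ((minpoly K θ).map (algebraMap K E)).roots.toFinset ⊆ nr F v p r := by
  intro θ' h
  rw [Multiset.mem_toFinset] at h
  obtain ⟨σ, hσ⟩ := om_conj h
  have h1 : p.eval θ' = 0 := by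
    obtain ⟨q, hq⟩ := om_dvd hp hθ
    rw [hq, eval_mul, (mem_roots'.1 h).2, zero_mul]
  rw [mem_nr hsep.ne_zero]
  refine ⟨h1, ?_⟩
  rw [← hσ]
  exact om_near hL hr σ

lemma om_card (hp : p = p₀.map (algebraMap K E)) (hsep : p.Separable) (hθ : p.eval θ = 0) :
    ((minpoly K θ).map (algebraMap K E)).roots.toFinset.card = (minpoly K θ).natDegree := by
  have : IsAlgClosed E := IsAlgClosure.isAlgClosed K
  have h1 : ((minpoly K θ).map (algebraMap K E)).Separable :=
    hsep.of_dvd (om_dvd hp hθ)
  rw [Multiset.toFinset_card_of_nodup (nodup_roots h1),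
    ← (IsAlgClosed.splits _).natDegree_eq_card_roots, natDegree_map]

lemma om_deg (hL : LocF F K s v) (θ : E) (r : F) :
    (minpoly K (θ - algebraMap F E r)).natDegree = (minpoly K θ).natDegree := by
  rw [hL.compat, minpoly.sub_algebraMap, natDegree_comp, natDegree_X_add_C, mul_one]

lemma om_ne (hL : LocF F K s v) {e : ℕ} (he : 0 < e)
    (hv : v (θ - algebraMap F E r) ^ e = v (algebraMap K E (algebraMap F[X] K X) - algebraMap F E s)) :
    θ - algebraMap F E r ≠ 0 := by
  intro h0
  rw [h0, map_zero, zero_pow he.ne'] at hv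
  exact hL.ctx.ne (sub_eq_zero.1 ((v.eq_zero).1 hv.symm))

lemma om_pos (hsep : p.Separable) (hθ : p.eval θ = 0) (hr : v (θ - algebraMap F E r) < 1) :
    0 < (nr F v p r).card :=
  Finset.card_pos.2 ⟨θ, (mem_nr hsep.ne_zero).2 ⟨hθ, hr⟩⟩

lemma om_hK (hL : LocF F K s v)
    (hv : v (θ - algebraMap F E r) ^ (nr F v p r).card =
      v (algebraMap K E (algebraMap F[X] K X) - algebraMap F E s))
    (x : K) (hx : x ≠ 0) : ∃ i : ℤ, v (algebraMap K E x) =
      (v (θ - algebraMap F E r) ^ (nr F v p r).card) ^ i := by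
  obtain ⟨i, hi⟩ := hL.disc x hx
  exact ⟨i, by rw [hi, hv]⟩

lemma om_hdeg (hL : LocF F K s v) (hp : p = p₀.map (algebraMap K E)) (hsep : p.Separable)
    (hθ : p.eval θ = 0) (hr : v (θ - algebraMap F E r) < 1) :
    (minpoly K (θ - algebraMap F E r)).natDegree ≤ (nr F v p r).card := by
  rw [om_deg hL, ← om_card hp hsep hθ]
  exact Finset.card_le_card (om_sub hL hp hsep hθ hr)

/-- The field generated by a root near `r`, if `θ - r` has the right value. -/
theorem locF_adj (hL : LocF F K s v) (hp : p = p₀.map (algebraMap K E)) (hsep : p.Separable)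
    (hθ : p.eval θ = 0) (hr : v (θ - algebraMap F E r) < 1)
    (hv : v (θ - algebraMap F E r) ^ (nr F v p r).card =
      v (algebraMap K E (algebraMap F[X] K X) - algebraMap F E s)) :
    @LocF F (IntermediateField.adjoin K {θ}) E _ _ _ (algAdj F K θ) _ _ r v := by
  have : IsAlgClosed E := IsAlgClosure.isAlgClosed K
  have hpos : 0 < (nr F v p r).card := om_pos hsep hθ hr
  have hne : θ - algebraMap F E r ≠ 0 := om_ne hL hpos hv
  let _ := algAdj F K θ
  have hX : algebraMap (IntermediateField.adjoin K {θ}) E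
      (algebraMap F[X] (IntermediateField.adjoin K {θ}) X) = θ := by
    change algebraMap (IntermediateField.adjoin K {θ}) E (eval₂ _ _ X) = θ
    rw [eval₂_X]
    rfl
  refine ⟨?_, ⟨hL.ctx.alg, hL.ctx.nonarch, hL.ctx.const, ?_, ?_, hL.ctx.residue⟩, ?_, ?_⟩
  · intro c
    change algebraMap F E c = algebraMap (IntermediateField.adjoin K {θ}) E (eval₂ _ _ (C c))
    rw [eval₂_C, hL.compat]
    rfl
  · rw [hX]
    exact hr
  · rw [hX]
    exact sub_ne_zero.1 hne
  · intro x hx
    rw [hX]
    refine disc_adjoin (K := K) hL.ctx.nonarch hne hr hpos (om_hK hL hv) (om_int _)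
      (om_hdeg hL hp hsep hθ hr) _ ?_ ?_
    · have h1 : IntermediateField.adjoin K {θ} ≤
          IntermediateField.adjoin K {θ - algebraMap F E r} := by
        rw [IntermediateField.adjoin_simple_le_iff]
        have h2 := IntermediateField.mem_adjoin_simple_self K (θ - algebraMap F E r)
        have h3 : algebraMap F E r ∈
            IntermediateField.adjoin K {θ - algebraMap F E r} := by
          rw [hL.compat]
          exact IntermediateField.algebraMap_mem _ _
        have h4 := add_mem h2 h3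
        rwa [sub_add_cancel] at h4
      exact h1 x.2
    · intro h0
      exact hx (Subtype.ext h0)
  · intro σ x
    exact hL.inv (σ.restrictScalars K) x

/-- The roots near `r` are conjugate. -/
theorem orbit_of_val (hL : LocF F K s v) (hp : p = p₀.map (algebraMap K E)) (hsep : p.Separable)
    (hθ : p.eval θ = 0) (hr : v (θ - algebraMap F E r) < 1)
    (hv : (nr F v p r).card = 1 ∨ v (θ - algebraMap F E r) ^ (nr F v p r).card =
      v (algebraMap K E (algebraMap F[X] K X) - algebraMap F E s)) {θ' : E}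
    (hθ' : p.eval θ' = 0) (hr' : v (θ' - algebraMap F E r) < 1) : ∃ σ : E ≃ₐ[K] E, σ θ = θ' := by
  have h0 : θ ∈ nr F v p r := (mem_nr hsep.ne_zero).2 ⟨hθ, hr⟩
  have h3 : θ' ∈ nr F v p r := (mem_nr hsep.ne_zero).2 ⟨hθ', hr'⟩
  rcases hv with hv | hv
  · rw [Finset.card_eq_one] at hv
    obtain ⟨a, ha⟩ := hv
    rw [ha, Finset.mem_singleton] at h0 h3
    exact ⟨1, by rw [h0, h3]; rfl⟩
  have : IsAlgClosed E := IsAlgClosure.isAlgClosed K
  have : Normal K E := IsAlgClosure.normal K E
  have hpos : 0 < (nr F v p r).card := om_pos hsep hθ hr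
  have hne : θ - algebraMap F E r ≠ 0 := om_ne hL hpos hv
  have h1 := degree_eq (K := K) hne hr hpos hL.inv (om_hK hL hv) (om_int _)
    (om_hdeg hL hp hsep hθ hr)
  rw [om_deg hL, ← om_card hp hsep hθ] at h1
  have h2 := Finset.eq_of_subset_of_card_le (om_sub hL hp hsep hθ hr) h1.ge
  rw [← h2, Multiset.mem_toFinset] at h3
  exact om_conj h3

end Orbit

/-- The roots near a smooth point are conjugate. -/
theorem orbit (hL : LocF F K s v) (hφ : φ.map (evalRingHom s) ≠ 0) (hp : p = φ.map (io F K E))
    (hsep : p.Separable) (hθ : p.eval θ = 0) {r : F} (hr : v (θ - algebraMap F E r) < 1)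
    (hsm : IsSmoothAt φ s r) {θ' : E} (hθ' : p.eval θ' = 0) (hr' : v (θ' - algebraMap F E r) < 1) :
    ∃ σ : E ≃ₐ[K] E, σ θ = θ' :=
  orbit_of_val (p₀ := φ.map (algebraMap F[X] K)) hL (by rw [hp, Polynomial.map_map]; rfl) hsep hθ hr
    (card_or_val hL hφ hp hsep hθ hr hsm) hθ' hr'

end

end Pool.Agent.Lib.MP_89bcae_ag.Zm
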