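import Mathlib
import Pool.Agent.Lib.MP_89bcae_ag.Z.L4
import Pool.Agent.Lib.MP_89bcae_ag.Zm.L3
import Pool.Agent.Lib.MP_89bcae_ag.Zm.Orb

/-!
# The values of the elements attached to the cochains with a local form, in an arbitrary chart
-/

attribute [local instance 100000] Pool.Agent.Lib.MP_89bcae_ag.Brt.tffFields
attribute [local instance 100000] Pool.Agent.Lib.MP_89bcae_ag.Wt.ifrNF Pool.Agent.Lib.MP_89bcae_ag.Wt.iddNF

open Polynomial IsDedekindDomain

open scoped Classical

namespace Pool.Agent.Lib.MP_89bcae_ag.Zm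

open Pool.Agent.Lib.MP_89bcae_ag.Wt Pool.Agent.Lib.MP_89bcae_ag.Wt.Lns Pool.Agent.Lib.MP_89bcae_ag.Bra
  Pool.Agent.Lib.MP_89bcae_ag.Brt

open Pool.Agent.Lib.MP_89bcae_ag.Zc (io io_sub)

open Pool.Agent.Lib.MP_89bcae_ag.Zp (IsSmoothAt)

open Pool.Agent.Lib.MP_89bcae_ag.Zs (KumD l3_restrict l3_roots mem_range_of_fixed)

section

variable {F K M : Type} [Field F] [Field K] [Algebra F[X] K] [Field M] [Algebra K M] [Algebra F M]
  {s : F} {v : AbsoluteValue M ℝ}

/-- The polynomials in `t` are different from `0` in `M`. -/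
theorem io_ne_zero (hL : LocF F K s v) {g : F[X]} (hg : g ≠ 0) : io F K M g ≠ 0 := by
  obtain ⟨q, hq, hqr⟩ := exists_eq_pow_rootMultiplicity_mul_and_not_dvd _ hg s
  rw [dvd_iff_isRoot, IsRoot.def] at hqr
  rw [hq, map_mul, map_pow]
  refine mul_ne_zero (pow_ne_zero _ ?_) ?_
  · have h1 : io F K M (X - C s) = algebraMap K M (algebraMap F[X] K X) - algebraMap F M s := by
      rw [map_sub, hL.compat]
      rfl
    rw [h1]
    exact sub_ne_zero.2 hL.ctx.ne
  · intro h0
    have h1 := io_sub (K := K) (E := M) hL q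
    rw [h0, zero_sub, v.map_neg, hL.ctx.const _ hqr] at h1
    exact lt_irrefl _ h1

/-- An affine change of coordinates preserves separable polynomials. -/
theorem separable_comp_affine {q : M[X]} (hq : q.Separable) {A R : M} (hA : A ≠ 0) :
    (q.comp (C A * X + C R)).Separable := by
  have h1 : IsCoprime (q.comp (C A * X + C R)) (q.derivative.comp (C A * X + C R)) :=
    IsCoprime.map hq (compRingHom (C A * X + C R))
  unfold Separable
  have h2 : derivative (q.comp (C A * X + C R)) = C A * q.derivative.comp (C A * X + C R) := by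
    rw [derivative_comp]
    congr 1
    simp
  rw [h2]
  exact (isCoprime_mul_unit_left_right (isUnit_C.2 hA.isUnit) _ _).2 h1

variable [IsAlgClosed F] [IsAlgClosure K M]

/-- The leading coefficient, in a chart. -/
theorem lead_of (hL : LocF F K s v) {φ : F[X][X]} (hφ : φ.map (evalRingHom s) ≠ 0) {ℓ : ℕ} {q : M[X]}
    (hqm : q.Monic) (hqs : q.Separable) {A R B : M} (hA : A ≠ 0) (hB : B ≠ 0)
    (h : q.comp (C A * X + C R) = C (B ^ ℓ) * φ.map (io F K M)) : Lead ℓ v A R B q := by
  obtain ⟨p', hp'⟩ : ∃ p' : M[X], p' = φ.map (io F K M) := ⟨_, rfl⟩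
  rw [← hp'] at h
  have hBℓ : B ^ ℓ ≠ 0 := pow_ne_zero _ hB
  have hps : p'.Separable := by
    refine Separable.of_mul_right (f := C (B ^ ℓ)) ?_
    rw [← h]
    exact separable_comp_affine hqs hA
  have hev : ∀ y : M, q.eval (A * y + R) = B ^ ℓ * p'.eval y := by
    intro y
    have h1 := congrArg (eval y) h
    rw [eval_comp, eval_add, eval_mul, eval_mul, eval_C, eval_X, eval_C, eval_C] at h1
    exact h1
  have hlc : A ^ q.natDegree = B ^ ℓ * p'.leadingCoeff := by
    have h1 := congrArg leadingCoeff h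
    rw [leadingCoeff_mul, leadingCoeff_C, leadingCoeff_comp (by rw [natDegree_linear hA]; exact one_ne_zero),
      hqm.leadingCoeff, one_mul, leadingCoeff_linear hA] at h1
    exact h1
  have hlead := lead hL hφ hp'
  have hwt : ∀ θ ∈ nrI v p', v θ ^ wt p' θ = v θ := by
    intro θ hθ
    have h0 : p'.eval θ = 0 := by
      unfold nrI at hθ
      rw [Finset.mem_filter, Multiset.mem_toFinset, mem_roots hps.ne_zero] at hθ
      exact hθ.1
    have h1 := rootMultiplicity_le_one_of_separable hps θ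
    have h2 : 0 < p'.rootMultiplicity θ := (rootMultiplicity_pos hps.ne_zero).mpr h0
    have h3 : wt p' θ = 1 := by
      unfold wt
      omega
    rw [h3, pow_one]
  rw [Finset.prod_congr rfl hwt] at hlead
  have hbij : ∏ θ ∈ q.roots.toFinset.filter (fun θ => 1 < v ((θ - R) / A)), v ((θ - R) / A) =
      ∏ θ ∈ nrI v p', v θ := by
    refine Finset.prod_bij (fun θ _ => (θ - R) / A) (fun θ hθ => ?_) (fun θ _ θ' _ hh => ?_) (fun y hy => ?_)
      (fun θ _ => rfl)
    · unfold nrI
      rw [Finset.mem_filter, Multiset.mem_toFinset, mem_roots hqm.ne_zero, IsRoot.def] at hθ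
      rw [Finset.mem_filter, Multiset.mem_toFinset, mem_roots hps.ne_zero, IsRoot.def]
      refine ⟨?_, hθ.2⟩
      have h1 := hev ((θ - R) / A)
      rw [mul_div_cancel₀ _ hA, sub_add_cancel, hθ.1] at h1
      rcases mul_eq_zero.1 h1.symm with h2 | h2
      · exact absurd h2 hBℓ
      · exact h2
    · have h1 := (div_left_inj' hA).1 hh
      exact sub_left_inj.1 h1
    · unfold nrI at hy
      rw [Finset.mem_filter, Multiset.mem_toFinset, mem_roots hps.ne_zero, IsRoot.def] at hy
      have h1 : (A * y + R - R) / A = y := by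
        rw [add_sub_cancel_right, mul_div_cancel_left₀ _ hA]
      refine ⟨A * y + R, ?_, h1⟩
      rw [Finset.mem_filter, Multiset.mem_toFinset, mem_roots hqm.ne_zero, IsRoot.def]
      refine ⟨by rw [hev, hy.1, mul_zero], ?_⟩
      rw [h1]
      exact hy.2
  unfold Lead
  rw [hbij, ← map_pow, hlc, map_mul, map_pow, mul_assoc, hlead, mul_one]

end

section

variable {F L Ω K M : Type} [Field F] [IsAlgClosed F] [Field L] [Algebra F[X] L] [Field Ω] [Algebra L Ω]
  [IsAlgClosure L Ω] [Field K] [Field M] [Algebra K M] [IsAlgClosure K M] {ℓ : ℕ} {f : L[X]}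
  [hG : IsGood ℓ (f.map (algebraMap L Ω))]

/-- **The values of the elements attached to a cochain with a local form, in a chart**: up to `ℓ`-th powers, they are the
same power of the value of the uniformizer of the place for all the smooth points of the special fibre. -/
theorem l4_model (hℓ : ℓ.Prime) (hℓF : (ℓ : F) ≠ 0) (hfm : f.Monic) (hsep : f.Separable) {ζ : L}
    (hζ : IsPrimitiveRoot ζ ℓ) {z : Ω → Ω} {c : (Ω ≃ₐ[L] Ω) → JacOver ℓ f Ω} (hz : KumD ζ z c)
    (ψ : F[X] →+* L) (hψ : ∀ a : F, ψ (C a) = algebraMap F[X] L (C a)) {φ : F[X][X]}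
    {a b ρ : L} (hS : Aff ℓ f (φ.map ψ) a b ρ) {s : F} (hφ : φ.map (evalRingHom s) ≠ 0)
    (i : L →+* K) (j : Ω →+* M) (hij : ∀ z, j (algebraMap L Ω z) = algebraMap K M (i z)) {v : AbsoluteValue M ℝ}
    (hL : ∀ [Algebra F[X] K] [Algebra F M], (∀ p, algebraMap F[X] K p = i (ψ p)) →
      (∀ a : F, algebraMap F M a = algebraMap K M (i (algebraMap F[X] L (C a)))) → LocF F K s v)
    (hc : ∀ [Algebra F[X] K] [Algebra F M] [IsGood ℓ ((f.map i).map (algebraMap K M))],
      (∀ p, algebraMap F[X] K p = i (ψ p)) → (∀ a : F, algebraMap F M a = algebraMap K M (i (algebraMap F[X] L (C a)))) →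
      LocF F K s v → LTm ℓ F f i j v a ρ c) :
    ∃ c₀ : ℤ, ((φ.map (evalRingHom s)).natDegree = f.natDegree → c₀ = 0) ∧
      ∀ θ : Ω, (f.map (algebraMap L Ω)).eval θ = 0 → z θ ^ ℓ ∈ IntermediateField.adjoin L {θ} → ∀ r : F,
        v ((j θ - algebraMap K M (i ρ)) / algebraMap K M (i a) -
          algebraMap K M (i (algebraMap F[X] L (C r)))) < 1 → IsSmoothAt φ s r →
        ∃ w ∈ IntermediateField.adjoin L {θ}, w ≠ 0 ∧
          v (j (z θ)) ^ ℓ = v (algebraMap K M (i (ψ (X - C s)))) ^ c₀ * v (j w) ^ ℓ := by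
  have hMc : IsAlgClosed M := IsAlgClosure.isAlgClosed K
  let _ : Algebra F[X] K := (i.comp ψ).toAlgebra
  let _ : Algebra F M := ((algebraMap K M).comp ((i.comp (algebraMap F[X] L)).comp Polynomial.C)).toAlgebra
  have hLL : LocF F K s v := hL (fun p => rfl) (fun a => rfl)
  have hFM : ∀ c : F, algebraMap F M c = algebraMap K M (i (algebraMap F[X] L (C c))) := fun _ => rfl
  have hϖ : algebraMap K M (algebraMap F[X] K X) - algebraMap F M s = algebraMap K M (i (ψ (X - C s))) := by
    rw [map_sub, map_sub, map_sub, hψ]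
    rfl
  have hϖ0 : 0 < v (algebraMap K M (algebraMap F[X] K X) - algebraMap F M s) :=
    v.pos (sub_ne_zero.2 hLL.ctx.ne)
  have hϖ1 := hLL.ctx.lt_one
  obtain ⟨A, hA⟩ : ∃ A : M, A = algebraMap K M (i a) := ⟨_, rfl⟩
  obtain ⟨R, hR⟩ : ∃ R : M, R = algebraMap K M (i ρ) := ⟨_, rfl⟩
  obtain ⟨B, hB⟩ : ∃ B : M, B = algebraMap K M (i b) := ⟨_, rfl⟩
  have hA0 : A ≠ 0 := by
    rw [hA]
    exact (_root_.map_ne_zero _).2 ((_root_.map_ne_zero i).2 hS.a_ne)
  have hB0 : B ≠ 0 := by
    rw [hB]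
    exact (_root_.map_ne_zero _).2 ((_root_.map_ne_zero i).2 hS.b_ne)
  have hBℓ : B ^ ℓ ≠ 0 := pow_ne_zero _ hB0
  obtain ⟨p', hp'⟩ : ∃ p' : M[X], p' = φ.map (io F K M) := ⟨_, rfl⟩
  obtain ⟨q, hq⟩ : ∃ q : M[X], q = (f.map i).map (algebraMap K M) := ⟨_, rfl⟩
  have hqm : q.Monic := by
    rw [hq]
    exact (hfm.map _).map _
  have hqs : q.Separable := by
    rw [hq]
    exact hsep.map.map
  have hqn : q.natDegree = f.natDegree := by
    rw [hq, natDegree_map, natDegree_map]
  have hqp : q.comp (C A * X + C R) = C (B ^ ℓ) * p' := by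
    have h1 := congrArg (fun g : L[X] => g.map ((algebraMap K M).comp i)) hS.eq
    have h2 : (C (b ^ ℓ) * φ.map ψ : L[X]).map ((algebraMap K M).comp i) = C (B ^ ℓ) * p' := by
      rw [Polynomial.map_mul, map_C, map_pow, hp', hB, Polynomial.map_map]
      rfl
    have h3 : (f.comp (C a * X + C ρ)).map ((algebraMap K M).comp i) = q.comp (C A * X + C R) := by
      rw [Polynomial.map_comp, Polynomial.map_add, Polynomial.map_mul, map_C, map_X, map_C, hq, hA, hR,
        Polynomial.map_map]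
      rfl
    exact h3.symm.trans (h1.symm.trans h2)
  have hev : ∀ y : M, q.eval (A * y + R) = B ^ ℓ * p'.eval y := by
    intro y
    have h1 := congrArg (eval y) hqp
    rw [eval_comp, eval_add, eval_mul, eval_mul, eval_C, eval_X, eval_C, eval_C] at h1
    exact h1
  have hrt : ∀ θ : M, q.eval θ = 0 ↔ p'.eval ((θ - R) / A) = 0 := by
    intro θ
    have h1 := hev ((θ - R) / A)
    rw [mul_div_cancel₀ _ hA0, sub_add_cancel] at h1
    rw [h1, mul_eq_zero, or_iff_right hBℓ]
  have hp's : p'.Separable := by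
    refine Separable.of_mul_right (f := C (B ^ ℓ)) ?_
    rw [← hqp]
    exact separable_comp_affine hqs hA0
  have hp'n : p'.natDegree = f.natDegree := by
    have h1 := congrArg natDegree hqp
    rw [natDegree_C_mul hBℓ, natDegree_comp, natDegree_linear hA0, mul_one, hqn] at h1
    exact h1.symm
  have hφn : φ.natDegree = f.natDegree := by
    rw [← hp'n, hp']
    symm
    apply natDegree_map_of_leadingCoeff_ne_zero
    refine io_ne_zero hLL ?_
    rw [Ne, leadingCoeff_eq_zero]
    rintro rfl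
    exact hφ (Polynomial.map_zero _)
  have hlead : Lead ℓ v A R B q := lead_of hLL hφ hqm hqs hA0 hB0 (by rw [hqp, hp'])
  have hpol : q = (f.map (algebraMap L Ω)).map j := hq.trans (l3_roots i j hij)
  have hGM : IsGood ℓ ((f.map i).map (algebraMap K M)) := by
    rw [l3_roots i j hij]
    exact isGood_map j (f.map (algebraMap L Ω))
  have hcopq : (ringExpChar K).Coprime ℓ := by
    have hK : (ℓ : K) ≠ 0 := by
      intro h0
      apply hℓF
      have h1 : ((algebraMap F[X] K).comp C) (ℓ : F) = 0 := by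
        rw [map_natCast]
        exact h0
      exact (map_eq_zero_iff _ (RingHom.injective _)).1 h1
    have h1 := ringExpChar.expChar K
    generalize ringExpChar K = q at h1 ⊢
    rcases h1 with _ | hq
    · exact Nat.coprime_one_left ℓ
    · rw [Nat.coprime_primes hq hℓ]
      rintro rfl
      exact hK (CharP.cast_eq_zero K _)
  -- the sets of roots near `r`
  have hnear : ∀ (r : F) (θ : M), θ ∈ nearA v A R q r ↔ (θ - R) / A ∈ nr F v p' r := by
    intro r θ
    unfold nearA nr
    rw [Finset.mem_filter, Finset.mem_filter, Multiset.mem_toFinset, Multiset.mem_toFinset,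
      mem_roots hqm.ne_zero, mem_roots hp's.ne_zero, IsRoot.def, IsRoot.def, hrt]
  have hcard : ∀ r : F, (nearA v A R q r).card = (nr F v p' r).card := by
    intro r
    refine Finset.card_bij (fun θ _ => (θ - R) / A) (fun θ h => (hnear r θ).1 h) (fun θ _ θ' _ h => ?_) fun y hy => ?_
    · exact sub_left_inj.1 ((div_left_inj' hA0).1 h)
    · have h1 : (A * y + R - R) / A = y := by
        rw [add_sub_cancel_right, mul_div_cancel_left₀ _ hA0]
      refine ⟨A * y + R, ?_, h1⟩
      rw [hnear, h1]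
      exact hy
  obtain ⟨c₀, hc₀, key⟩ := l3_model (F := F) (K := K) (M := M) hℓ hfm hsep hζ hz hcopq hLL i j hij
    (hc (fun p => rfl) (fun a => rfl) hLL) hS.a_ne hS.b_ne (by rw [← hA, ← hR, ← hB, ← hq]; exact hlead)
  rw [← hA, ← hR, ← hq] at hc₀
  rw [← hA, ← hR, ← hq] at key
  refine ⟨c₀, fun hdeg => hc₀ fun θ hθ => ?_, fun θ hθ hzθ r hr hsm => ?_⟩
  · exact v_le_one hLL hφ hp' (hdeg.trans hφn.symm) hp's.ne_zero ((hrt θ).1 hθ)
  rw [← hA, ← hR] at hr
  -- the root
  obtain ⟨ξ, hξ⟩ : ∃ ξ : M, ξ = (j θ - R) / A := ⟨_, rfl⟩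
  have hjq : q.eval (j θ) = 0 := by
    rw [hpol, eval_map, eval₂_hom, hθ, map_zero]
  have hξ0 : p'.eval ξ = 0 := by
    rw [hξ, ← hrt, hjq]
  have hξr : v (ξ - algebraMap F M r) < 1 := by
    rw [hξ, hFM]
    exact hr
  have horb : ∀ θ ∈ nearA v A R q r, ∀ θ' ∈ nearA v A R q r, ∃ σ : M ≃ₐ[K] M, σ θ = θ' := by
    intro θ hθ θ' hθ'
    have h1 := (mem_nr hp's.ne_zero).1 ((hnear r θ).1 hθ)
    have h2 := (mem_nr hp's.ne_zero).1 ((hnear r θ').1 hθ')
    obtain ⟨σ, hσ⟩ := orbit hLL hφ hp' hp's h1.1 h1.2 hsm h2.1 h2.2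
    refine ⟨σ, ?_⟩
    rw [map_div₀, map_sub, hA, hR, σ.commutes, σ.commutes, ← hA, ← hR] at hσ
    exact sub_left_inj.1 ((div_left_inj' hA0).1 hσ)
  have hk := key r horb θ hθ (by rw [← hξ]; exact hξr)
  rw [hcard r] at hk
  have hz0 : z θ ≠ 0 := hz.1 θ hθ
  have hju0 : j (z θ ^ ℓ) ≠ 0 := (_root_.map_ne_zero j).2 (pow_ne_zero _ hz0)
  have hn0 : 0 < (nr F v p' r).card := om_pos hp's hξ0 hξr
  -- the conclusion from a uniformizer
  have hfin : ∀ π ∈ IntermediateField.adjoin L {θ}, π ≠ 0 → v (j π) ^ (nr F v p' r).card =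
      v (algebraMap K M (algebraMap F[X] K X) - algebraMap F M s) →
      (∃ m : ℤ, v (j (z θ ^ ℓ)) = v (j π) ^ m) →
      ∃ w ∈ IntermediateField.adjoin L {θ}, w ≠ 0 ∧
          v (j (z θ)) ^ ℓ = v (algebraMap K M (i (ψ (X - C s)))) ^ c₀ * v (j w) ^ ℓ := by
    rintro π hπL hπ0 hπ ⟨m, hm⟩
    have hvπ : v (j π) ≠ 0 := (v.ne_zero_iff).2 ((_root_.map_ne_zero j).2 hπ0)
    have h1 : (v (j (z θ)) ^ ℓ * v (algebraMap K M (algebraMap F[X] K X) - algebraMap F M s) ^ (-c₀)) ^
        (nr F v p' r).card =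
        v (algebraMap K M (algebraMap F[X] K X) - algebraMap F M s) ^ (m - (nr F v p' r).card * c₀) := by
      rw [← map_pow, ← map_pow, hm, ← hπ, ← zpow_natCast (v (j π)), ← zpow_mul, ← zpow_add₀ hvπ, ← zpow_natCast,
        ← zpow_mul, ← zpow_mul]
      congr 1
      ring
    rw [h1] at hk
    obtain ⟨m', hm'⟩ := Sup.Val.dvd_of_zpow hcopq hϖ0 hϖ1 _ hk
    refine ⟨π ^ m', zpow_mem hπL _, zpow_ne_zero _ hπ0, ?_⟩
    rw [← hϖ, ← hπ, ← map_pow, ← map_pow, hm, map_zpow₀, map_zpow₀, ← zpow_natCast, ← zpow_natCast, ← zpow_mul,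
      ← zpow_mul, ← zpow_add₀ hvπ]
    congr 1
    linear_combination hm'
  -- elements of `L(θ)`
  have hmem : ∀ e ∈ IntermediateField.adjoin L {θ}, j e ∈ IntermediateField.adjoin K {ξ} := by
    intro e h1
    let _ : Algebra L M := ((algebraMap K M).comp i).toAlgebra
    let j' : Ω →ₐ[L] M := { toRingHom := j, commutes' := fun z => hij z }
    have h2 : j' e ∈ (IntermediateField.adjoin L {θ}).map j' := ⟨_, h1, rfl⟩
    rw [IntermediateField.adjoin_map, Set.image_singleton] at h2
    have h4 : ∀ y : M, y ∈ IntermediateField.adjoin L {j' θ} →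
        y ∈ IntermediateField.adjoin K {ξ} := by
      intro y hy
      induction hy using IntermediateField.adjoin_induction with
      | mem y hy =>
        rw [Set.mem_singleton_iff] at hy
        have h5 : y = ξ * algebraMap K M (i a) + algebraMap K M (i ρ) := by
          rw [hy, hξ, ← hA, ← hR, div_mul_cancel₀ _ hA0, sub_add_cancel]
          rfl
        rw [h5]
        exact add_mem (mul_mem (IntermediateField.subset_adjoin K _ (Set.mem_singleton _))
          (IntermediateField.algebraMap_mem _ _)) (IntermediateField.algebraMap_mem _ _)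
      | algebraMap b => exact IntermediateField.algebraMap_mem (IntermediateField.adjoin K {ξ}) (i b)
      | add y y' _ _ h h' => exact add_mem h h'
      | inv y _ h => exact inv_mem h
      | mul y y' _ _ h h' => exact mul_mem h h'
    exact h4 _ h2
  rcases card_or_val hLL hφ hp' hp's hξ0 hξr hsm with h1 | h1
  · -- the root is in `K`
    have hfix : ∀ σ : M ≃ₐ[K] M, σ ξ = ξ := by
      intro σ
      have h2 : ξ ∈ nr F v p' r := (mem_nr hp's.ne_zero).2 ⟨hξ0, hξr⟩
      have h3 : σ ξ ∈ nr F v p' r := by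
        refine (mem_nr hp's.ne_zero).2 ⟨?_, om_near hLL hξr σ⟩
        have h5 : p'.map ((σ : M ≃+* M) : M →+* M) = p' := by
          rw [hp', Polynomial.map_map]
          congr 1
          exact RingHom.ext fun y => σ.commutes _
        have h6 : eval (((σ : M ≃+* M) : M →+* M) ξ) (p'.map ((σ : M ≃+* M) : M →+* M)) =
            ((σ : M ≃+* M) : M →+* M) (eval ξ p') := by
          rw [eval_map, eval₂_hom]
        rw [h5, hξ0, map_zero] at h6
        exact h6
      obtain ⟨y, hy⟩ := Finset.card_eq_one.1 h1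
      rw [hy, Finset.mem_singleton] at h2 h3
      rw [h3, h2]
    have hrange : ξ ∈ (algebraMap K M).range :=
      mem_range_of_fixed hfix (p := φ.map (algebraMap F[X] K)) (by
        have h2 : (φ.map (algebraMap F[X] K)).map (algebraMap K M) = p' := by
          rw [hp', Polynomial.map_map]
          rfl
        rw [← Polynomial.separable_map (algebraMap K M), h2]
        exact hp's) (by rw [Polynomial.map_map]; rw [hp'] at hξ0; exact hξ0)
    have hbot : IntermediateField.adjoin K {ξ} = ⊥ := by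
      rw [IntermediateField.adjoin_simple_eq_bot_iff, IntermediateField.mem_bot]
      exact hrange
    have hψ0 : ψ (X - C s) ≠ 0 := by
      intro h0
      rw [hϖ, h0, map_zero, map_zero, map_zero] at hϖ0
      exact lt_irrefl _ hϖ0
    refine hfin (algebraMap L Ω (ψ (X - C s))) (IntermediateField.algebraMap_mem _ _)
      ((_root_.map_ne_zero _).2 hψ0) ?_ ?_
    · rw [h1, pow_one, hij, hϖ]
    · have h2 := hmem _ hzθ
      rw [hbot, IntermediateField.mem_bot] at h2
      obtain ⟨y, hy⟩ := h2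
      have hy0 : y ≠ 0 := by
        rintro rfl
        rw [map_zero] at hy
        exact hju0 hy.symm
      obtain ⟨m, hm⟩ := hLL.disc y hy0
      refine ⟨m, ?_⟩
      rw [← hy, hm, hij, hϖ]
  · -- `ξ - r` is a uniformizer
    have hloc := locF_adj (p₀ := φ.map (algebraMap F[X] K)) hLL (by rw [hp', Polynomial.map_map]; rfl) hp's hξ0 hξr h1
    have hπM : j ((θ - algebraMap L Ω ρ) / algebraMap L Ω a - algebraMap L Ω (algebraMap F[X] L (C r))) =
        ξ - algebraMap F M r := by
      rw [map_sub, map_div₀, map_sub, hij, hij, hij, ← hA, ← hR, ← hξ]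
      rfl
    refine hfin ((θ - algebraMap L Ω ρ) / algebraMap L Ω a - algebraMap L Ω (algebraMap F[X] L (C r))) ?_ ?_ ?_ ?_
    · exact sub_mem (div_mem (sub_mem (IntermediateField.mem_adjoin_simple_self L θ)
        (IntermediateField.algebraMap_mem _ _)) (IntermediateField.algebraMap_mem _ _))
        (IntermediateField.algebraMap_mem _ _)
    · intro h0
      rw [h0, map_zero] at hπM
      rw [← hπM, map_zero, zero_pow hn0.ne'] at h1
      exact hϖ0.ne h1
    · rw [hπM, h1]
    · rw [hπM]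
      have h2 := hmem _ hzθ
      have h3 : (⟨_, h2⟩ : IntermediateField.adjoin K {ξ}) ≠ 0 := fun h0 => hju0 (congrArg Subtype.val h0)
      obtain ⟨m, hm⟩ := @LocF.disc _ _ _ _ _ _ (algAdj F K ξ) _ _ _ _ hloc _ h3
      refine ⟨m, ?_⟩
      have h4 : ((algebraMap (IntermediateField.adjoin K {ξ}) M) (@algebraMap F[X] (IntermediateField.adjoin K {ξ}) _ _
          (algAdj F K ξ) X)) = ξ := by
        show ((eval₂ _ (IntermediateField.AdjoinSimple.gen K ξ) (X : F[X]) : IntermediateField.adjoin K {ξ}) : M) = ξ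
        rw [eval₂_X]
        exact IntermediateField.AdjoinSimple.coe_gen K ξ
      rw [h4] at hm
      exact hm

end

end Pool.Agent.Lib.MP_89bcae_ag.Zm
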