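import Mathlib
import Pool.Agent.Lib.MP_89bcae_ag.Z.PL

/-!
# One place of `L = F(t)` for all the valuation rings above it
-/

attribute [local instance 100000] Pool.Agent.Lib.MP_89bcae_ag.Brt.tffFields
attribute [local instance 100000] Pool.Agent.Lib.MP_89bcae_ag.Wt.ifrNF Pool.Agent.Lib.MP_89bcae_ag.Wt.iddNF

open Polynomial IsDedekindDomain

open scoped Classical

namespace Pool.Agent.Lib.MP_89bcae_ag.Zm

open Pool.Agent.Lib.MP_89bcae_ag.Sup (LocCtx plc exists_locCtx)

open Pool.Agent.Lib.MP_89bcae_ag.Zs (IsPlace plW mem_plW plW_lt pl_mem_iff pl_core exists_inversion)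

section

variable {F L Ω : Type} [Field F] [Field L] [Algebra F[X] L] [IsFractionRing F[X] L] [Field Ω] [Algebra L Ω]

/-- An embedding of an algebraic extension in `M` is the composition of an embedding in `Ω` and of the embedding of `Ω`. -/
theorem exists_factor {L Ω M E : Type} [Field L] [Field Ω] [Algebra L Ω] [IsAlgClosure L Ω] [Field M] [Algebra L M]
    [Field E] [Algebra L E] [Algebra.IsAlgebraic L E] (j : Ω →ₐ[L] M) (φ : E →ₐ[L] M) :
    ∃ s : E →ₐ[L] Ω, ∀ y, j (s y) = φ y := by
  have hΩ : IsAlgClosed Ω := IsAlgClosure.isAlgClosed L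
  have h : ∀ y : E, φ y ∈ j.range := by
    intro y
    have hint : IsIntegral L y := Algebra.IsIntegral.isIntegral y
    have h0 : (minpoly L y).map (algebraMap L Ω) ≠ 0 :=
      (Polynomial.map_ne_zero_iff (algebraMap L Ω).injective).2 (minpoly.ne_zero hint)
    have h1 : φ y ∈ (j : Ω →+* M).range := by
      apply (IsAlgClosed.splits ((minpoly L y).map (algebraMap L Ω))).mem_range_of_isRoot h0
      rw [Polynomial.map_map, j.comp_algebraMap, IsRoot.def, eval_map_algebraMap, aeval_algHom_apply,
        minpoly.aeval, map_zero]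
    exact h1
  refine ⟨((AlgEquiv.ofInjectiveField j).symm : j.range →ₐ[L] Ω).comp (φ.codRestrict j.range h), fun y => ?_⟩
  have h1 := (AlgEquiv.ofInjectiveField j).apply_symm_apply (φ.codRestrict j.range h y)
  exact congrArg Subtype.val h1

theorem exists_place_all_aux [IsAlgClosed F] [IsAlgClosure L Ω] {s : L →+* L} (hss : ∀ z, s (s z) = z)
    (hsC : ∀ c : F, s (algebraMap F[X] L (C c)) = algebraMap F[X] L (C c)) (a : F) :
    ∃ (K M : Type) (_ : Field K) (_ : Field M) (_ : Algebra K M) (_ : IsAlgClosure K M) (i : L →+* K)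
      (j : Ω →+* M) (v : AbsoluteValue M ℝ), (∀ z, j (algebraMap L Ω z) = algebraMap K M (i z)) ∧
      IsPlace F i v ∧ v (algebraMap K M (i (s (algebraMap F[X] L (X - C a))))) < 1 ∧
      ∀ (E : Type) [Field E] [Algebra L E] [FiniteDimensional L E] (O : ValuationSubring E),
        (∀ c : F, algebraMap L E (algebraMap F[X] L (C c)) ∈ O) →
        O.valuation (algebraMap L E (s (algebraMap F[X] L (X - C a)))) < 1 →
        ∃ g : E →ₐ[L] Ω, ∀ y : E, y ∈ O ↔ v (j (g y)) ≤ 1 := by
  let K : Type := (plc a).adicCompletion L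
  let M : Type := AlgebraicClosure K
  let _ : Algebra F M := ((algebraMap K M).comp ((algebraMap F[X] K).comp Polynomial.C)).toAlgebra
  obtain ⟨v, hv, hval, hinv, -⟩ := exists_locCtx (L := L) (M := M) a (fun _ => rfl)
  let i : L →+* K := (algebraMap L K).comp s
  have hi : ∀ p : F[X], i (s (algebraMap F[X] L p)) = algebraMap F[X] K p := by
    intro p
    show algebraMap L K (s (s (algebraMap F[X] L p))) = _
    rw [hss, ← IsScalarTower.algebraMap_apply F[X] L K]
  have hiC : ∀ c : F, i (algebraMap F[X] L (C c)) = algebraMap F[X] K (C c) := by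
    intro c
    rw [← hsC, hi]
  have hsub : algebraMap K M (algebraMap F[X] K (X - C a)) =
      algebraMap K M (algebraMap F[X] K X) - algebraMap F M a := by
    rw [map_sub, map_sub]
    rfl
  have hplace : IsPlace F i v := by
    refine ⟨hv.nonarch, fun c hc => ?_, fun x hx => ?_, hinv, s (algebraMap F[X] L (X - C a)), ?_, ?_,
      fun x hx => ?_⟩
    · rw [hiC]
      exact hv.const c hc
    · obtain ⟨c, hc⟩ := hv.residue x hx
      refine ⟨c, ?_⟩
      rw [hiC]
      exact hc
    · refine (map_ne_zero_iff s s.injective).2 ?_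
      exact (map_ne_zero_iff _ (IsFractionRing.injective F[X] L)).2 (X_sub_C_ne_zero a)
    · rw [hi, hsub]
      exact hv.lt_one
    · obtain ⟨n, hn⟩ := hval x hx
      refine ⟨n, ?_⟩
      rw [hi, hsub]
      exact hn
  let _ : Algebra L M := ((algebraMap K M).comp i).toAlgebra
  have hLM : ∀ z : L, algebraMap L M z = algebraMap K M (i z) := fun _ => rfl
  have hMc : IsAlgClosed M := IsAlgClosure.isAlgClosed K
  have halg : Algebra.IsAlgebraic L Ω := IsAlgClosure.isAlgebraic
  let j : Ω →ₐ[L] M := IsAlgClosed.lift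
  refine ⟨K, M, inferInstance, inferInstance, inferInstance, inferInstance, i, (j : Ω →+* M), v, fun z => ?_,
    hplace, ?_, ?_⟩
  · exact j.commutes z
  · rw [hi, hsub]
    exact hv.lt_one
  · intro E _ _ _ O hF ha
    obtain ⟨φ, hφ⟩ := pl_core (L := L) (E := E) (M := M) (plW v hv.nonarch) O (fun z => by
      rw [pl_mem_iff (F := F) (algebraMap L E) hss (fun c => by rw [hsC]; exact hF c) ha z]
      rw [pl_mem_iff (F := F) (V := plW v hv.nonarch) (algebraMap L M) hss (a := a) (fun c => ?_) ?_ z]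
      · rw [plW_lt, hLM, hi, hsub]
        exact hv.lt_one
      · rw [mem_plW, hLM, hi]
        by_cases h0 : c = 0
        · rw [h0, C_0, map_zero, map_zero, map_zero]
          exact zero_le_one
        · exact (hv.const c h0).le)
    obtain ⟨g, hg⟩ := exists_factor j φ
    refine ⟨g, fun y => ?_⟩
    rw [hφ y, mem_plW, ← hg y]
    rfl

/-- Let `τ` be `t - s` or `1 / t`. There is one place of `L = F(t)` such that all the valuation rings `O` of all the finite
extensions `E` of `L` which contain `F` and where `τ` has positive value are the inverse images of the valuation ring of `M`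
by the embeddings `j ∘ g`. -/
theorem exists_place_all [IsAlgClosed F] [IsAlgClosure L Ω] {τ : L}
    (hτ : (∃ s : F, τ = algebraMap F[X] L (X - C s)) ∨ τ = (algebraMap F[X] L X)⁻¹) :
    ∃ (K M : Type) (_ : Field K) (_ : Field M) (_ : Algebra K M) (_ : IsAlgClosure K M) (i : L →+* K)
      (j : Ω →+* M) (v : AbsoluteValue M ℝ), (∀ z, j (algebraMap L Ω z) = algebraMap K M (i z)) ∧
      IsPlace F i v ∧ v (algebraMap K M (i τ)) < 1 ∧
      ∀ (E : Type) [Field E] [Algebra L E] [FiniteDimensional L E] (O : ValuationSubring E),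
        (∀ c : F, algebraMap L E (algebraMap F[X] L (C c)) ∈ O) → O.valuation (algebraMap L E τ) < 1 →
        ∃ g : E →ₐ[L] Ω, ∀ y : E, y ∈ O ↔ v (j (g y)) ≤ 1 := by
  rcases hτ with ⟨s, rfl⟩ | rfl
  · exact exists_place_all_aux (s := RingHom.id L) (fun _ => rfl) (fun _ => rfl) s
  · obtain ⟨s, h1, h2, h3⟩ := exists_inversion F L
    have h4 : s (algebraMap F[X] L (X - C 0)) = (algebraMap F[X] L X)⁻¹ := by
      rw [C_0, sub_zero, h3]
    have h5 := exists_place_all_aux (Ω := Ω) h1 h2 0
    rw [h4] at h5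
    exact h5

end

section

variable {E M : Type} [Field E] [Field M] {v : AbsoluteValue M ℝ} {O : ValuationSubring E} {g : E →+* M}

/-- The values are determined by the valuation ring. -/
theorem valuation_eq (hO : ∀ y : E, y ∈ O ↔ v (g y) ≤ 1) {u w : E} (h : v (g u) = v (g w)) :
    O.valuation u = O.valuation w := by
  by_cases hw : w = 0
  · rw [hw, map_zero, map_zero] at h
    have h1 : u = 0 := by
      by_contra hu
      exact (v.ne_zero_iff.2 ((_root_.map_ne_zero g).2 hu)) h
    rw [h1, hw]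
  have hgw : v (g w) ≠ 0 := v.ne_zero_iff.2 ((_root_.map_ne_zero g).2 hw)
  have hu : u ≠ 0 := by
    rintro rfl
    rw [map_zero, map_zero] at h
    exact hgw h.symm
  have h1 : v (g (u / w)) = 1 := by
    rw [map_div₀, map_div₀, h, div_self hgw]
  have h2 : u / w ∈ O := (hO _).2 h1.le
  have h3 : (u / w)⁻¹ ∈ O := (hO _).2 (by rw [map_inv₀, map_inv₀, h1, inv_one])
  have h4 := (ValuationSubring.valuation_le_one_iff _ _).2 h2
  have h5 := (ValuationSubring.valuation_le_one_iff _ _).2 h3
  have h6 : O.valuation (u / w) ≠ 0 := (Valuation.ne_zero_iff _).2 (div_ne_zero hu hw)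
  rw [map_inv₀] at h5
  have h7 : O.valuation (u / w) = 1 := le_antisymm h4 ((inv_le_one₀ (zero_lt_iff.2 h6)).1 h5)
  rw [map_div₀, div_eq_one_iff_eq ((Valuation.ne_zero_iff _).2 hw)] at h7
  exact h7

/-- Elements of positive value. -/
theorem lt_one_of_valuation (hO : ∀ y : E, y ∈ O ↔ v (g y) ≤ 1) {y : E} (h : O.valuation y < 1) : v (g y) < 1 := by
  by_cases hy0 : y = 0
  · rw [hy0, map_zero, map_zero]
    exact one_pos
  by_contra hcon
  have h1 : v (g y⁻¹) ≤ 1 := by
    rw [map_inv₀, map_inv₀]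
    exact inv_le_one_of_one_le₀ (not_lt.1 hcon)
  have h2 := (ValuationSubring.valuation_le_one_iff _ _).2 ((hO _).2 h1)
  rw [map_inv₀] at h2
  have h3 : O.valuation y ≠ 0 := (Valuation.ne_zero_iff _).2 hy0
  exact absurd h (not_lt.2 ((inv_le_one₀ (zero_lt_iff.2 h3)).1 h2))

/-- Units. -/
theorem eq_one_of_valuation (hO : ∀ y : E, y ∈ O ↔ v (g y) ≤ 1) {y : E} (h : O.valuation y = 1) : v (g y) = 1 := by
  have hy0 : y ≠ 0 := by
    rintro rfl
    rw [map_zero] at h
    exact zero_ne_one h
  refine le_antisymm ((hO y).1 ((ValuationSubring.valuation_le_one_iff _ _).1 h.le)) ?_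
  have h1 : y⁻¹ ∈ O := (ValuationSubring.valuation_le_one_iff _ _).1 (by rw [map_inv₀, h, inv_one])
  have h2 := (hO _).1 h1
  rw [map_inv₀, map_inv₀] at h2
  exact (inv_le_one₀ (v.pos ((_root_.map_ne_zero g).2 hy0))).1 h2

/-- A valuation ring with an element of positive value, different from zero, is not the whole field. -/
theorem ne_top_of_lt_one {y : E} (hy : y ≠ 0) (h : O.valuation y < 1) : O ≠ ⊤ := by
  rintro rfl
  have h2 : (⊤ : ValuationSubring E).valuation y⁻¹ ≤ 1 :=
    (ValuationSubring.valuation_le_one_iff _ _).2 (ValuationSubring.mem_top _)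
  rw [map_inv₀] at h2
  have h3 : (⊤ : ValuationSubring E).valuation y ≠ 0 := (Valuation.ne_zero_iff _).2 hy
  exact absurd h (not_lt.2 ((inv_le_one₀ (zero_lt_iff.2 h3)).1 h2))

end

end Pool.Agent.Lib.MP_89bcae_ag.Zm
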