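import Mathlib
import Pool.Agent.Lib.MP_89bcae_ag.Zc.Scale
import Pool.Agent.Lib.MP_89bcae_ag.Zm.Loc

/-!
# Affine change of the coordinates

The isomorphism `x = a x' + r`, `y = b y'` of the curves `y ^ N = f(x)` and `y' ^ N = f'(x')`, where
`b ^ N f'(x') = f(a x' + r)`.
-/

open Polynomial IsDedekindDomain

open scoped Classical

namespace Pool.Agent.Lib.MP_89bcae_ag.Zm

open Pool.Agent.Lib.MP_89bcae_ag.Wt

universe u

section Basic

variable {N : ℕ} {A : Type u} [Field A] {f f' : A[X]} {a b r : A}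

lemma comp_aff_inv (ha : a ≠ 0) (p : A[X]) :
    (p.comp (C a * X + C r)).comp (C a⁻¹ * X + C (-(r / a))) = p := by
  have h : (C a * X + C r : A[X]).comp (C a⁻¹ * X + C (-(r / a))) = X := by
    rw [add_comp, mul_comp, C_comp, X_comp, C_comp, mul_add, ← mul_assoc, ← C_mul, mul_inv_cancel₀ ha, C_1,
      one_mul, ← C_mul, add_assoc, ← C_add, mul_neg, mul_div_cancel₀ _ ha, neg_add_cancel, C_0, add_zero]
  rw [comp_assoc, h, comp_X]

lemma comp_inv_aff (ha : a ≠ 0) (p : A[X]) :
    (p.comp (C a⁻¹ * X + C (-(r / a)))).comp (C a * X + C r) = p := by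
  have h : (C a⁻¹ * X + C (-(r / a)) : A[X]).comp (C a * X + C r) = X := by
    rw [add_comp, mul_comp, C_comp, X_comp, C_comp, mul_add, ← mul_assoc, ← C_mul, inv_mul_cancel₀ ha, C_1,
      one_mul, ← C_mul, add_assoc, ← C_add, div_eq_inv_mul, add_neg_cancel, C_0, add_zero]
  rw [comp_assoc, h, comp_X]

lemma Aff.symm (h : Aff N f f' a b r) : Aff N f' f a⁻¹ b⁻¹ (-(r / a)) where
  a_ne := inv_ne_zero h.a_ne
  b_ne := inv_ne_zero h.b_ne
  eq := by
    have h1 := congrArg (fun p : A[X] => p.comp (C a⁻¹ * X + C (-(r / a)))) h.eq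
    simp only [mul_comp, C_comp] at h1
    rw [comp_aff_inv h.a_ne] at h1
    rw [← h1, ← mul_assoc, ← C_mul, inv_pow, inv_mul_cancel₀ (pow_ne_zero _ h.b_ne), C_1, one_mul]

lemma comp_aff_injective (ha : a ≠ 0) :
    Function.Injective (compRingHom (C a * X + C r : A[X])) := by
  intro p q h
  change p.comp (C a * X + C r) = q.comp (C a * X + C r) at h
  rw [← comp_aff_inv ha p, h, comp_aff_inv ha]

/-- `p(x) ↦ p(a x + r)` on rational functions. -/
noncomputable def afRat (ha : a ≠ 0) (r : A) : RatFunc A →+* RatFunc A :=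
  RatFunc.mapRingHom (compRingHom (C a * X + C r : A[X]))
    (nonZeroDivisors_le_comap_nonZeroDivisors_of_injective _ (comp_aff_injective ha))

lemma afRat_algebraMap (ha : a ≠ 0) (r : A) (p : A[X]) :
    afRat ha r (algebraMap A[X] (RatFunc A) p) = algebraMap A[X] (RatFunc A) (p.comp (C a * X + C r)) := by
  have h := RatFunc.map_apply_div (compRingHom (C a * X + C r : A[X]))
    (nonZeroDivisors_le_comap_nonZeroDivisors_of_injective _ (comp_aff_injective ha)) p 1
  rw [map_one, _root_.div_one, map_one, map_one, _root_.div_one] at h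
  rw [afRat, RatFunc.coe_mapRingHom_eq_coe_map]
  exact h

/-- The homomorphism of the rings of rational functions given by `x = a x' + r`, `y = b y'`. -/
noncomputable def afH (h : Aff N f f' a b r) : FunField N f →+* FunField N f' :=
  AdjoinRoot.lift ((AdjoinRoot.of _).comp (afRat h.a_ne r)) (polyF (C b) * yF) (by
    rw [eval₂_sub, eval₂_pow, eval₂_X, eval₂_C, mul_pow, yF_pow, ← map_pow, ← C_pow, ← map_mul,
      h.eq, RingHom.comp_apply, afRat_algebraMap, ← polyF_eq, sub_self])

lemma afH_polyF (h : Aff N f f' a b r) (p : A[X]) :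
    afH h (polyF p : FunField N f) = polyF (p.comp (C a * X + C r)) := by
  rw [polyF_eq]
  unfold afH
  rw [AdjoinRoot.lift_of, RingHom.comp_apply, afRat_algebraMap, ← polyF_eq]

lemma afH_yF (h : Aff N f f' a b r) :
    afH h (yF : FunField N f) = polyF (C b) * yF := by
  unfold afH
  exact AdjoinRoot.lift_root _

lemma afH_comp (h : Aff N f f' a b r) : (afH h.symm).comp (afH h) = RingHom.id (FunField N f) := by
  refine funField_hom_ext (fun p => ?_) ?_
  · rw [RingHom.comp_apply, afH_polyF, afH_polyF, comp_aff_inv h.a_ne, RingHom.id_apply]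
  · rw [RingHom.comp_apply, afH_yF, map_mul, afH_polyF, afH_yF, RingHom.id_apply, ← mul_assoc,
      ← map_mul, C_comp, ← C_mul, mul_inv_cancel₀ h.b_ne, C_1, map_one, one_mul]

lemma afH_comp' (h : Aff N f f' a b r) : (afH h).comp (afH h.symm) = RingHom.id (FunField N f') := by
  refine funField_hom_ext (fun p => ?_) ?_
  · rw [RingHom.comp_apply, afH_polyF, afH_polyF, comp_inv_aff h.a_ne, RingHom.id_apply]
  · rw [RingHom.comp_apply, afH_yF, map_mul, afH_polyF, afH_yF, RingHom.id_apply, ← mul_assoc,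
      ← map_mul, C_comp, ← C_mul, inv_mul_cancel₀ h.b_ne, C_1, map_one, one_mul]

/-- The isomorphism of the rings of rational functions given by `x = a x' + r`, `y = b y'`. -/
noncomputable def afF (h : Aff N f f' a b r) : FunField N f ≃+* FunField N f' :=
  RingEquiv.ofRingHom (afH h) (afH h.symm) (afH_comp' h) (afH_comp h)

lemma afF_apply (h : Aff N f f' a b r) (z : FunField N f) : afF h z = afH h z := rfl

lemma afF_symm (h : Aff N f f' a b r) (z : FunField N f') : (afF h).symm z = afH h.symm z := rfl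

@[simp] lemma afF_polyF (h : Aff N f f' a b r) (p : A[X]) :
    afF h (polyF p : FunField N f) = polyF (p.comp (C a * X + C r)) := afH_polyF h p

@[simp] lemma afF_yF (h : Aff N f f' a b r) :
    afF h (yF : FunField N f) = polyF (C b) * yF := afH_yF h

/-- The isomorphism of the groups of nonzero functions. -/
noncomputable def afU (h : Aff N f f' a b r) : (FunField N f)ˣ ≃* (FunField N f')ˣ :=
  Units.mapEquiv (afF h : FunField N f ≃* FunField N f')

lemma afU_val (h : Aff N f f' a b r) (u : (FunField N f)ˣ) :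
    ((afU h u : (FunField N f')ˣ) : FunField N f') = afF h (u : FunField N f) := rfl

lemma afH_isIntegral (h : Aff N f f' a b r) (z : NRing N f) :
    afH h (z : FunField N f) ∈ integralClosure A[X] (FunField N f') := by
  obtain ⟨p, hp, hpa⟩ := (z.2 : IsIntegral A[X] (z : FunField N f))
  refine ⟨p.map (compRingHom (C a * X + C r)), hp.map _, ?_⟩
  rw [Polynomial.eval₂_map, show (algebraMap A[X] (FunField N f')).comp (compRingHom (C a * X + C r)) =
    (afH h).comp (algebraMap A[X] (FunField N f)) from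
      RingHom.ext fun q => (afH_polyF h q).symm, ← Polynomial.hom_eval₂, hpa, map_zero]

/-- The homomorphism of the coordinate rings. -/
noncomputable def afC (h : Aff N f f' a b r) : NRing N f →+* NRing N f' :=
  ((afH h).comp (algebraMap (NRing N f) (FunField N f))).codRestrict
    (integralClosure A[X] (FunField N f')) (afH_isIntegral h)

/-- The isomorphism of the coordinate rings. -/
noncomputable def afE (h : Aff N f f' a b r) : NRing N f ≃+* NRing N f' :=
  RingEquiv.ofRingHom (afC h) (afC h.symm)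
    (RingHom.ext fun z => Subtype.ext (RingHom.congr_fun (afH_comp' h) (z : FunField N f')))
    (RingHom.ext fun z => Subtype.ext (RingHom.congr_fun (afH_comp h) (z : FunField N f)))

lemma coe_scE (h : Aff N f f' a b r) (z : NRing N f) :
    ((afE h z : NRing N f') : FunField N f') = afF h (z : FunField N f) := rfl

lemma afE_ofPoly (h : Aff N f f' a b r) (p : A[X]) :
    afE h (ofPoly p : NRing N f) = ofPoly (p.comp (C a * X + C r)) := Subtype.ext (afF_polyF h p)

lemma Aff.eval (h : Aff N f f' a b r) (x : A) : b ^ N * f'.eval ((x - r) / a) = f.eval x := by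
  have h1 := congrArg (fun p : A[X] => p.eval ((x - r) / a)) h.eq
  simp only [eval_mul, eval_C, eval_comp, eval_add, eval_X] at h1
  rwa [mul_div_cancel₀ _ h.a_ne, sub_add_cancel] at h1

/-- The image of a point. -/
def afP (h : Aff N f f' a b r) (P : Pt N f) : Pt N f' :=
  ⟨(P.x - r) / a, P.y / b, by
    rw [div_pow, P.eq, ← h.eval, mul_div_cancel_left₀ _ (pow_ne_zero _ h.b_ne)]⟩

/-- The bijection of the points, `(x, y) ↦ ((x - r) / a, y / b)`. -/
def afPt (h : Aff N f f' a b r) : Pt N f ≃ Pt N f' where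
  toFun := afP h
  invFun := afP h.symm
  left_inv P := Pt.ext (by
    change ((P.x - r) / a - -(r / a)) / a⁻¹ = P.x
    rw [div_inv_eq_mul, sub_neg_eq_add, ← add_div, sub_add_cancel, div_mul_cancel₀ _ h.a_ne]) (by
    change P.y / b / b⁻¹ = P.y
    rw [div_inv_eq_mul, div_mul_cancel₀ _ h.b_ne])
  right_inv P := Pt.ext (by
    change ((P.x - -(r / a)) / a⁻¹ - r) / a = P.x
    rw [div_inv_eq_mul, sub_neg_eq_add, add_mul, div_mul_cancel₀ _ h.a_ne, add_sub_cancel_right,
      mul_div_cancel_right₀ _ h.a_ne]) (by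
    change P.y / b⁻¹ / b = P.y
    rw [div_inv_eq_mul, mul_div_cancel_right₀ _ h.b_ne])

@[simp] lemma afPt_x (h : Aff N f f' a b r) (P : Pt N f) : (afPt h P).x = (P.x - r) / a := rfl

@[simp] lemma afPt_y (h : Aff N f f' a b r) (P : Pt N f) : (afPt h P).y = P.y / b := rfl

end Basic

section Good

variable {N : ℕ} {A : Type u} [Field A] {f f' : A[X]} [hG : IsGood N f] [hG' : IsGood N f']
  {a b r : A}

lemma afE_yy (h : Aff N f f' a b r) :
    afE h (yy : NRing N f) = ofPoly (C b) * yy := Subtype.ext (afF_yF h)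

lemma evalPt_afE (h : Aff N f f' a b r) (P : Pt N f) (z : NRing N f) :
    evalPt (afPt h P) (afE h z) = evalPt P z := by
  have h1 := hom_unique (RingHom.id A) P
    ((evalPt (afPt h P)).comp (afE h : NRing N f →+* NRing N f')) (evalPt P) (fun p => by
      change evalPt (afPt h P) (afE h (ofPoly p)) = _
      rw [afE_ofPoly, evalPt_ofPoly, eval_comp, eval_add, eval_mul, eval_C, eval_X, eval_C, afPt_x,
        mul_div_cancel₀ _ h.a_ne, sub_add_cancel]
      rfl) (by
      change evalPt (afPt h P) (afE h yy) = _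
      rw [afE_yy, map_mul, evalPt_ofPoly, evalPt_yy, eval_C, afPt_y, mul_div_cancel₀ _ h.b_ne]
      rfl) (fun p => by
      rw [evalPt_ofPoly]
      rfl) (by
      rw [evalPt_yy]
      rfl)
  exact congrArg (fun g : NRing N f →+* A => g z) h1

lemma af_ideal (h : Aff N f f' a b r) (P : Pt N f) :
    P.ideal.map (afE h : NRing N f →+* NRing N f') = (afPt h P).ideal := by
  ext z
  rw [Ideal.mem_map_iff_of_surjective (afE h : NRing N f →+* NRing N f') (afE h).surjective]
  constructor
  · rintro ⟨w, hw, rfl⟩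
    have hw' : evalPt P w = 0 := hw
    change evalPt (afPt h P) (afE h w) = 0
    rw [evalPt_afE, hw']
  · intro hz
    have hz' : evalPt (afPt h P) z = 0 := hz
    refine ⟨(afE h).symm z, ?_, by simp⟩
    change evalPt P ((afE h).symm z) = 0
    rw [← evalPt_afE h, RingEquiv.apply_symm_apply, hz']

lemma af_pow (h : Aff N f f' a b r) (P : Pt N f) (n : ℕ) (z : NRing N f) :
    afE h z ∈ (afPt h P).hs.asIdeal ^ n ↔ z ∈ P.hs.asIdeal ^ n := by
  have h1 : P.hs.asIdeal = P.ideal := rfl
  have h2 : (afPt h P).hs.asIdeal = (afPt h P).ideal := rfl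
  rw [h1, h2, ← af_ideal h P, ← Ideal.map_pow,
    Ideal.mem_map_iff_of_surjective (afE h : NRing N f →+* NRing N f') (afE h).surjective]
  constructor
  · rintro ⟨w, hw, hwz⟩
    rwa [← (afE h).injective hwz]
  · intro hz
    exact ⟨z, hz, rfl⟩

lemma af_int (h : Aff N f f' a b r) (P : Pt N f) (z : NRing N f) :
    (afPt h P).hs.intValuation (afE h z) = P.hs.intValuation z := by
  by_cases hz : z = 0
  · subst hz
    simp
  · have hz' : afE h z ≠ 0 := fun h0 => hz ((map_eq_zero_iff _ (afE h).injective).1 h0)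
    have h1 := P.hs.intValuation_if_neg hz
    have h2 := (afPt h P).hs.intValuation_if_neg hz'
    apply le_antisymm
    · rw [h1, HeightOneSpectrum.intValuation_le_pow_iff_mem, af_pow,
        ← HeightOneSpectrum.intValuation_le_pow_iff_mem, h1]
    · rw [h2, HeightOneSpectrum.intValuation_le_pow_iff_mem, ← af_pow h,
        ← HeightOneSpectrum.intValuation_le_pow_iff_mem, h2]

lemma ord_afU (h : Aff N f f' a b r) (P : Pt N f) (u : (FunField N f)ˣ) :
    ord (afPt h P) (afU h u) = ord P u := by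
  have key : (afPt h P).hs.valuation (FunField N f') ((afU h u : (FunField N f')ˣ) : FunField N f')
      = P.hs.valuation (FunField N f) (u : FunField N f) := by
    rw [afU_val]
    obtain ⟨z, w, hw, hzw⟩ := IsFractionRing.div_surjective (A := NRing N f) (u : FunField N f)
    have hc : ∀ t : NRing N f, afF h (algebraMap (NRing N f) (FunField N f) t) =
        algebraMap (NRing N f') (FunField N f') (afE h t) := fun t => rfl
    rw [← hzw, map_div₀, hc, hc, map_div₀, map_div₀]
    rw [HeightOneSpectrum.valuation_of_algebraMap, HeightOneSpectrum.valuation_of_algebraMap,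
      HeightOneSpectrum.valuation_of_algebraMap, HeightOneSpectrum.valuation_of_algebraMap,
      af_int h P, af_int h P]
  unfold ord
  rw [key]

lemma div_afU (h : Aff N f f' a b r) (u : (FunField N f)ˣ) :
    div (afU h u) = (div u).mapDomain (afPt h) := by
  ext Q
  obtain ⟨P, rfl⟩ := (afPt h).surjective Q
  rw [Finsupp.mapDomain_apply (afPt h).injective, div_apply, div_apply, ord_afU]

/-- The homomorphism on divisor classes. -/
lemma exists_afH_J (h : Aff N f f' a b r) : ∃ Z : Jac N f →+ Jac N f', ∀ D : Pt N f →₀ ℤ,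
    Z (cl D) = cl (D.mapDomain (afPt h)) := by
  set g : (Pt N f →₀ ℤ) →+ Jac N f' :=
    (cl : (Pt N f' →₀ ℤ) →+ Jac N f').comp (Finsupp.mapDomain.addMonoidHom (afPt h)) with hg
  have hker : (cl : (Pt N f →₀ ℤ) →+ Jac N f).ker ≤ g.ker := by
    intro D hD
    rw [AddMonoidHom.mem_ker] at hD ⊢
    obtain ⟨u, hu⟩ := exists_div_of_cl_eq_zero D hD
    change cl (D.mapDomain (afPt h)) = 0
    rw [← hu, ← div_afU, cl_div]
  refine ⟨(cl : (Pt N f →₀ ℤ) →+ Jac N f).liftOfSurjective cl_surjective ⟨g, hker⟩,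
    fun D => ?_⟩
  exact AddMonoidHom.liftOfRightInverse_comp_apply _ _ _ ⟨g, hker⟩ D

/-- The homomorphism of the Jacobians. -/
noncomputable def afJH (h : Aff N f f' a b r) : Jac N f →+ Jac N f' := (exists_afH_J h).choose

lemma afJH_cl (h : Aff N f f' a b r) (D : Pt N f →₀ ℤ) :
    afJH h (cl D) = cl (D.mapDomain (afPt h)) := (exists_afH_J h).choose_spec D

lemma afJH_comp (h : Aff N f f' a b r) (x : Jac N f) : afJH h.symm (afJH h x) = x := by
  obtain ⟨D, rfl⟩ := cl_surjective x
  rw [afJH_cl, afJH_cl, ← Finsupp.mapDomain_comp]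
  have h1 : (afPt h.symm : Pt N f' → Pt N f) ∘ (afPt h : Pt N f → Pt N f') = id := by
    funext P
    exact (afPt h).symm_apply_apply P
  rw [h1, Finsupp.mapDomain_id]

lemma afJH_comp' (h : Aff N f f' a b r) (x : Jac N f') : afJH h (afJH h.symm x) = x := by
  obtain ⟨D, rfl⟩ := cl_surjective x
  rw [afJH_cl, afJH_cl, ← Finsupp.mapDomain_comp]
  have h1 : (afPt h : Pt N f → Pt N f') ∘ (afPt h.symm : Pt N f' → Pt N f) = id := by
    funext P
    exact (afPt h).apply_symm_apply P
  rw [h1, Finsupp.mapDomain_id]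

/-- The isomorphism of the Jacobians. -/
noncomputable def afJ (h : Aff N f f' a b r) : Jac N f ≃+ Jac N f' where
  toFun := afJH h
  invFun := afJH h.symm
  left_inv := afJH_comp h
  right_inv := afJH_comp' h
  map_add' := map_add (afJH h)

@[simp] lemma afJ_cl (h : Aff N f f' a b r) (D : Pt N f →₀ ℤ) :
    afJ h (cl D) = cl (D.mapDomain (afPt h)) := afJH_cl h D

/-! ### Symmetries -/

omit hG hG' in
lemma afPt_sym (h : Aff N f f' a b r) (σ : Sym f) (σ' : Sym f')
    (hσ : (σ : A ≃+* A) = (σ' : A ≃+* A)) (ha : (σ : A ≃+* A) a = a) (hb : (σ : A ≃+* A) b = b)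
    (hr : (σ : A ≃+* A) r = r) (P : Pt N f) : afPt h (P.sym σ) = (afPt h P).sym σ' := by
  apply Pt.ext
  · change ((σ : A ≃+* A) P.x - r) / a = (σ' : A ≃+* A) ((P.x - r) / a)
    rw [← hσ, map_div₀, ha, map_sub, hr]
  · change (σ : A ≃+* A) P.y / b = (σ' : A ≃+* A) (P.y / b)
    rw [← hσ, map_div₀, hb]

lemma afJ_symJ (h : Aff N f f' a b r) (σ : Sym f) (σ' : Sym f')
    (hσ : (σ : A ≃+* A) = (σ' : A ≃+* A)) (ha : (σ : A ≃+* A) a = a) (hb : (σ : A ≃+* A) b = b)
    (hr : (σ : A ≃+* A) r = r) (x : Jac N f) : afJ h (symJ σ x) = symJ σ' (afJ h x) := by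
  obtain ⟨D, rfl⟩ := cl_surjective x
  rw [symJ_cl, afJ_cl, afJ_cl, symJ_cl, ← Finsupp.mapDomain_comp, ← Finsupp.mapDomain_comp]
  congr 2
  funext P
  exact afPt_sym h σ σ' hσ ha hb hr P

omit hG hG' in
lemma afPt_rot (h : Aff N f f' a b r) (ζ : A) (hζ : ζ ^ N = 1) (P : Pt N f) :
    afPt h (P.rot ζ hζ) = (afPt h P).rot ζ hζ := by
  apply Pt.ext
  · rfl
  · change ζ * P.y / b = ζ * (P.y / b)
    rw [mul_div_assoc]

lemma afJ_zJ (h : Aff N f f' a b r) (ζ : A) (hζ : ζ ^ N = 1) (x : Jac N f) :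
    afJ h (zJ ζ hζ x) = zJ ζ hζ (afJ h x) := by
  obtain ⟨D, rfl⟩ := cl_surjective x
  rw [zJ_cl, afJ_cl, afJ_cl, zJ_cl, ← Finsupp.mapDomain_comp, ← Finsupp.mapDomain_comp]
  congr 2
  funext P
  exact afPt_rot h ζ hζ P

lemma ramDiv_af (h : Aff N f f' a b r) (e : A → ℤ) :
    (ramDiv e : Pt N f →₀ ℤ).mapDomain (afPt h) = ramDiv fun θ => e (a * θ + r) := by
  ext Q
  obtain ⟨P, rfl⟩ := (afPt h).surjective Q
  rw [Finsupp.mapDomain_apply (afPt h).injective, ramDiv_apply, ramDiv_apply, afPt_x, afPt_y,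
    mul_div_cancel₀ _ h.a_ne, sub_add_cancel]
  by_cases hP : P.y = 0
  · rw [if_pos hP, if_pos (by rw [hP, zero_div])]
  · rw [if_neg hP, if_neg (div_ne_zero hP h.b_ne)]

lemma afJ_ram (h : Aff N f f' a b r) (e : A → ℤ) :
    afJ h (ram e : Jac N f) = ram fun θ => e (a * θ + r) := by
  rw [ram, afJ_cl, ramDiv_af]
  rfl

end Good

/-! ### Base change -/

section Map

variable {N : ℕ} {A B : Type u} [Field A] [Field B] {f f' : A[X]} {g g' : B[X]} {a b r : A}

lemma afH_funMap (φ : A →+* B) (hf : f.map φ = g) (hf' : f'.map φ = g') (h : Aff N f f' a b r)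
    (h' : Aff N g g' (φ a) (φ b) (φ r)) (z : FunField N f) :
    afH h' (funMap N φ hf z) = funMap N φ hf' (afH h z) := by
  have key : (afH h').comp (funMap N φ hf) = (funMap N φ hf').comp (afH h) := by
    refine funField_hom_ext (fun p => ?_) ?_
    · rw [RingHom.comp_apply, RingHom.comp_apply, funMap_polyF, afH_polyF, afH_polyF,
        funMap_polyF, Polynomial.map_comp, Polynomial.map_add, Polynomial.map_mul, Polynomial.map_C,
        Polynomial.map_X, Polynomial.map_C]
    · rw [RingHom.comp_apply, RingHom.comp_apply, funMap_yF, afH_yF, afH_yF, map_mul,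
        funMap_polyF, funMap_yF, Polynomial.map_C]
  exact RingHom.congr_fun key z

lemma afF_funMap (φ : A →+* B) (hf : f.map φ = g) (hf' : f'.map φ = g') (h : Aff N f f' a b r)
    (h' : Aff N g g' (φ a) (φ b) (φ r)) (z : FunField N f) :
    afF h' (funMap N φ hf z) = funMap N φ hf' (afF h z) := afH_funMap φ hf hf' h h' z

lemma afPt_map (φ : A →+* B) (hf : f.map φ = g) (hf' : f'.map φ = g') (h : Aff N f f' a b r)
    (h' : Aff N g g' (φ a) (φ b) (φ r)) (P : Pt N f) :
    afPt h' (P.map φ hf) = (afPt h P).map φ hf' := by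
  apply Pt.ext
  · change (φ P.x - φ r) / φ a = φ ((P.x - r) / a)
    rw [map_div₀, map_sub]
  · change φ P.y / φ b = φ (P.y / b)
    rw [map_div₀]

lemma afJ_jacMap [hG : IsGood N f] [hG' : IsGood N f'] [hH : IsGood N g] [hH' : IsGood N g']
    (φ : A →+* B) (hf : f.map φ = g) (hf' : f'.map φ = g') (h : Aff N f f' a b r)
    (h' : Aff N g g' (φ a) (φ b) (φ r)) (x : Jac N f) :
    afJ h' (jacMap N φ hf x) = jacMap N φ hf' (afJ h x) := by
  obtain ⟨D, rfl⟩ := cl_surjective x
  rw [jacMap_cl, afJ_cl, afJ_cl, jacMap_cl, ← Finsupp.mapDomain_comp, ← Finsupp.mapDomain_comp]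
  congr 2
  funext P
  exact afPt_map φ hf hf' h h' P

/-- The change of coordinates after base change. -/
lemma Aff.map (φ : A →+* B) (hf : f.map φ = g) (hf' : f'.map φ = g') (h : Aff N f f' a b r) :
    Aff N g g' (φ a) (φ b) (φ r) where
  a_ne := (map_ne_zero φ).2 h.a_ne
  b_ne := (map_ne_zero φ).2 h.b_ne
  eq := by
    have h1 := congrArg (Polynomial.map φ) h.eq
    rw [Polynomial.map_mul, Polynomial.map_C, hf', Polynomial.map_comp, Polynomial.map_add, Polynomial.map_mul,
      Polynomial.map_C, Polynomial.map_X, Polynomial.map_C, hf, map_pow] at h1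
    exact h1

end Map

section Sym

variable {N : ℕ} {A : Type u} [Field A] {f f' : A[X]} [hG : IsGood N f] [hG' : IsGood N f']
  {a b r : A}

omit hG hG' in
lemma afE_symE (h : Aff N f f' a b r) (σ : Sym f) (σ' : Sym f')
    (hσ : (σ : A ≃+* A) = (σ' : A ≃+* A)) (ha : (σ : A ≃+* A) a = a) (hb : (σ : A ≃+* A) b = b)
    (hr : (σ : A ≃+* A) r = r) (z : NRing N f) : afE h (symE N σ z) = symE N σ' (afE h z) := by
  obtain ⟨σ, hσ1⟩ := σ
  obtain ⟨σ', hσ1'⟩ := σ'
  change σ = σ' at hσ
  subst hσ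
  change σ a = a at ha
  change σ b = b at hb
  change σ r = r at hr
  apply Subtype.ext
  have h' : Aff N f f' ((σ : A →+* A) a) ((σ : A →+* A) b) ((σ : A →+* A) r) := by
    change Aff N f f' (σ a) (σ b) (σ r)
    rw [ha, hb, hr]
    exact h
  have h1 := afH_funMap (σ : A →+* A) hσ1 hσ1' h h' (z : FunField N f)
  have h2 : afH h' (funMap N (σ : A →+* A) hσ1 (z : FunField N f)) =
      afH h (funMap N (σ : A →+* A) hσ1 (z : FunField N f)) := by
    congr 2
  rw [h2] at h1
  exact h1

lemma afU_symU (h : Aff N f f' a b r) (σ : Sym f) (σ' : Sym f')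
    (hσ : (σ : A ≃+* A) = (σ' : A ≃+* A)) (ha : (σ : A ≃+* A) a = a) (hb : (σ : A ≃+* A) b = b)
    (hr : (σ : A ≃+* A) r = r) (u : (FunField N f)ˣ) : afU h (symU σ u) = symU σ' (afU h u) := by
  ext
  change afF h (autF (symE N σ) (u : FunField N f)) = autF (symE N σ') (afF h (u : FunField N f))
  obtain ⟨z, w, hw, hzw⟩ := IsFractionRing.div_surjective (A := NRing N f) (u : FunField N f)
  have hc : ∀ t : NRing N f, afF h (algebraMap (NRing N f) (FunField N f) t) =
      algebraMap (NRing N f') (FunField N f') (afE h t) := fun t => rfl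
  rw [← hzw]
  simp only [map_div₀, autF_algebraMap, hc, afE_symE h σ σ' hσ ha hb hr]

end Sym

end Pool.Agent.Lib.MP_89bcae_ag.Zm
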