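import Mathlib
import Pool.Agent.Lib.MP_89bcae_ag.Zm.Aff
import Pool.Agent.Lib.MP_89bcae_ag.Z.Ctx
import Pool.Agent.Lib.MP_89bcae_ag.Zp.Ver

/-!
# Transport of the cocycles by a change of coordinates
-/

attribute [local instance 100000] Pool.Agent.Lib.MP_89bcae_ag.Brt.tffFields
attribute [local instance 100000] Pool.Agent.Lib.MP_89bcae_ag.Wt.ifrNF Pool.Agent.Lib.MP_89bcae_ag.Wt.iddNF

open Polynomial IsDedekindDomain IsLocalRing

open scoped Classical

namespace Pool.Agent.Lib.MP_89bcae_ag.Zm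

open Pool.Agent.Lib.MP_89bcae_ag.Wt Pool.Agent.Lib.MP_89bcae_ag.Wt.Lns Pool.Agent.Lib.MP_89bcae_ag.Bra
  Pool.Agent.Lib.MP_89bcae_ag.Brt

open Pool.Agent.Lib.MP_89bcae_ag.Zs

section

variable {F L Ω : Type} [Field F] [Field L] [Algebra F[X] L] [Field Ω] [Algebra L Ω] {ℓ : ℕ}
  {f f' : L[X]} {a b r : L}

/-- The change of coordinates over `Ω`. -/
theorem afO (hS : Aff ℓ f f' a b r) : Aff ℓ (f.map (algebraMap L Ω)) (f'.map (algebraMap L Ω))
    (algebraMap L Ω a) (algebraMap L Ω b) (algebraMap L Ω r) := Aff.map (algebraMap L Ω) rfl rfl hS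

/-- The cocycle in the new coordinates. -/
noncomputable def trB (hS : Aff ℓ f f' a b r)
    (c : (Ω ≃ₐ[L] Ω) → (Ω ≃ₐ[L] Ω) → (FunField ℓ (f.map (algebraMap L Ω)))ˣ) :
    (Ω ≃ₐ[L] Ω) → (Ω ≃ₐ[L] Ω) → (FunField ℓ (f'.map (algebraMap L Ω)))ˣ :=
  fun g h => afU (afO hS) (c g h)

/-- The cochain in the new coordinates. -/
noncomputable def trC (hS : Aff ℓ f f' a b r) (D : (Ω ≃ₐ[L] Ω) → (Pt ℓ (f.map (algebraMap L Ω)) →₀ ℤ)) :
    (Ω ≃ₐ[L] Ω) → (Pt ℓ (f'.map (algebraMap L Ω)) →₀ ℤ) :=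
  fun g => (D g).mapDomain (afPt (afO hS))

theorem iunr_tr (hS : Aff ℓ f f' a b r)
    {c : (Ω ≃ₐ[L] Ω) → (Ω ≃ₐ[L] Ω) → (FunField ℓ (f.map (algebraMap L Ω)))ˣ} (hc : IUnr F c) :
    IUnr F (trB hS c) := by
  intro O H T _ _ _ _ _ _ _ _ _ _ ψ h1 h2 h3
  have hto : ∀ r : FunField ℓ f, ψ (afF (afO hS) (toO ℓ f Ω r)) = ψ (toO ℓ f' Ω (afF hS r)) := by
    intro r
    congr 1
    exact afF_funMap (algebraMap L Ω) rfl rfl hS (afO hS) r
  have hcO : ∀ z : Ω, ψ (afF (afO hS) (cO ℓ f Ω z)) = ψ (cO ℓ f' Ω z) := by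
    intro z
    congr 1
    show afF (afO hS) (polyF (C z)) = polyF (C z)
    rw [afF_polyF, C_comp]
  let ψ' : FunField ℓ (f.map (algebraMap L Ω)) →+* T := ψ.comp (afF (afO hS)).toRingHom
  have hψ' : ∀ z, ψ' z = ψ (afF (afO hS) z) := fun _ => rfl
  obtain ⟨α, hα, hα'⟩ := hc O H T ψ'
    (fun r => by
      rw [hψ', hto]
      exact h1 _)
    (fun c => by
      rw [hψ', hcO]
      exact h2 c)
    (by
      obtain ⟨r, hr⟩ := h3
      refine ⟨(afF hS).symm r, ?_⟩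
      rw [hψ', hto, RingEquiv.apply_symm_apply]
      exact hr)
  refine ⟨α, hα, fun g h g' h' hg hh => ?_⟩
  refine hα' g h g' h' (fun z => ?_) fun z => ?_
  · rw [hψ', hψ', hcO, hcO]
    exact hg z
  · rw [hψ', hψ', hcO, hcO]
    exact hh z

variable [hG : IsGood ℓ (f.map (algebraMap L Ω))] [hG' : IsGood ℓ (f'.map (algebraMap L Ω))]

theorem icoc_tr (hS : Aff ℓ f f' a b r)
    {c : (Ω ≃ₐ[L] Ω) → (Ω ≃ₐ[L] Ω) → (FunField ℓ (f.map (algebraMap L Ω)))ˣ} (hc : ICoc c) :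
    ICoc (trB hS c) := by
  refine ⟨fun g h j => ?_, ?_⟩
  · have h1 := congrArg (afU (afO (Ω := Ω) hS)) (hc.cocycle g h j)
    rw [map_mul, map_mul, afU_symU (afO hS) (gs f g) (gs f' g) rfl (g.commutes a) (g.commutes b) (g.commutes r)] at h1
    exact h1
  · obtain ⟨T, hT⟩ := hc.continuous
    exact ⟨T, fun g g' h h' h1 h2 => congrArg (afU (afO hS)) (hT g g' h h' h1 h2)⟩

theorem idiv_tr (hS : Aff ℓ f f' a b r)
    {c : (Ω ≃ₐ[L] Ω) → (Ω ≃ₐ[L] Ω) → (FunField ℓ (f.map (algebraMap L Ω)))ˣ}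
    {D : (Ω ≃ₐ[L] Ω) → (Pt ℓ (f.map (algebraMap L Ω)) →₀ ℤ)} (hD : IDiv c D) :
    IDiv (trB hS c) (trC hS D) := by
  refine ⟨?_, fun g h => ?_⟩
  · obtain ⟨T, hT⟩ := hD.continuous
    exact ⟨T, fun g g' h => congrArg (fun E => Finsupp.mapDomain (afPt (afO hS)) E) (hT g g' h)⟩
  · have h1 := congrArg (fun E => Finsupp.mapDomain (afPt (afO (Ω := Ω) hS)) E) (hD.div g h)
    simp only [Finsupp.mapDomain_add] at h1
    show div (afU (afO hS) (c g h)) + (D (g * h)).mapDomain (afPt (afO hS)) =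
      ((D h).mapDomain (afPt (afO hS))).mapDomain (Pt.sym (gs f' g)) + (D g).mapDomain (afPt (afO hS))
    rw [div_afU, h1]
    congr 1
    rw [← Finsupp.mapDomain_comp, ← Finsupp.mapDomain_comp]
    congr 1
    funext P
    exact afPt_sym (afO hS) (gs f g) (gs f' g) rfl (g.commutes a) (g.commutes b) (g.commutes r) P

theorem cl_trC (hS : Aff ℓ f f' a b r) (D : (Ω ≃ₐ[L] Ω) → (Pt ℓ (f.map (algebraMap L Ω)) →₀ ℤ))
    (g : Ω ≃ₐ[L] Ω) : (cl (trC hS D g) : Jac ℓ (f'.map (algebraMap L Ω))) = afJ (afO hS) (cl (D g)) := by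
  rw [afJ_cl]
  rfl

omit [Algebra F[X] L] [Field F] in
private lemma afJ_congr {A : Type} [Field A] {p p' : A[X]} [IsGood ℓ p] [IsGood ℓ p'] {a b r a' b' r' : A}
    (h : Aff ℓ p p' a b r) (h' : Aff ℓ p p' a' b' r') (ha : a = a') (hb : b = b') (hr : r = r') (x : Jac ℓ p) :
    afJ h x = afJ h' x := by
  subst ha
  subst hb
  subst hr
  rfl

/-- The local triviality does not depend on the coordinates. -/
theorem ltj_tr {K M : Type} [Field K] [Field M] [Algebra K M] [IsAlgClosure K M] (hS : Aff ℓ f f' a b r)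
    (i : L →+* K) (j : Ω →+* M) (hij : ∀ z, j (algebraMap L Ω z) = algebraMap K M (i z))
    {c : (Ω ≃ₐ[L] Ω) → JacOver ℓ f Ω}
    (h : LTj (Lv := K) ℓ f' j fun g => afJ (afO hS) (c g)) : LTj (Lv := K) ℓ f j c := by
  have hM : IsAlgClosed M := IsAlgClosure.isAlgClosed K
  have hpol : (f.map (algebraMap L Ω)).map j = f.map (j.comp (algebraMap L Ω)) := Polynomial.map_map _ _ _
  have hpol' : (f'.map (algebraMap L Ω)).map j = f'.map (j.comp (algebraMap L Ω)) := Polynomial.map_map _ _ _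
  have hGM : IsGood ℓ (f.map (j.comp (algebraMap L Ω))) := by
    rw [← hpol]
    exact isGood_map j (f.map (algebraMap L Ω))
  have hGM' : IsGood ℓ (f'.map (j.comp (algebraMap L Ω))) := by
    rw [← hpol']
    exact isGood_map j (f'.map (algebraMap L Ω))
  have hSM : Aff ℓ (f.map (j.comp (algebraMap L Ω))) (f'.map (j.comp (algebraMap L Ω)))
      (j (algebraMap L Ω a)) (j (algebraMap L Ω b)) (j (algebraMap L Ω r)) := Aff.map j hpol hpol' (afO hS)
  obtain ⟨Q, hQ⟩ := h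
  refine ⟨(afJ hSM).symm Q, fun g g' hg hgg => ?_⟩
  have hfix : ∀ z : L, g (j (algebraMap L Ω z)) = j (algebraMap L Ω z) := by
    intro z
    rw [hij, g.commutes]
  have hg' : (f'.map (j.comp (algebraMap L Ω))).map ((g : M ≃+* M) : M →+* M) =
      f'.map (j.comp (algebraMap L Ω)) := by
    rw [Polynomial.map_map]
    congr 1
    exact RingHom.ext fun z => hfix z
  have h1 := hQ g g' hg' hgg
  apply (afJ hSM).injective
  rw [map_sub, AddEquiv.apply_symm_apply, afJ_jacMap j _ (Polynomial.map_map (algebraMap L Ω) j f') (afO hS) hSM]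
  refine h1.trans ?_
  congr 1
  have hSg : Aff ℓ (f.map (j.comp (algebraMap L Ω))) (f'.map (j.comp (algebraMap L Ω)))
      (((g : M ≃+* M) : M →+* M) (j (algebraMap L Ω a))) (((g : M ≃+* M) : M →+* M) (j (algebraMap L Ω b)))
      (((g : M ≃+* M) : M →+* M) (j (algebraMap L Ω r))) :=
    Aff.map _ hg hg' hSM
  rw [afJ_congr hSM hSg (hfix a).symm (hfix b).symm (hfix r).symm,
    afJ_jacMap ((g : M ≃+* M) : M →+* M) hg hg' hSM hSg, AddEquiv.apply_symm_apply]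

end

section

variable {A : Type} [Field A] {ℓ : ℕ}

/-- The change of coordinates and the ramification points. -/
theorem afJ_rm {p p' : A[X]} [IsGood ℓ p] [IsGood ℓ p'] {a b r : A} (h : Aff ℓ p p' a b r) (hs : p.Separable)
    (hs' : p'.Separable) (n : A → ℤ) :
    afJ h (rm n : Jac ℓ p) = rm fun θ => n (a * θ + r) := by
  unfold rm
  rw [afJ_ram]
  refine ram_congr _ _ fun θ hθ => ?_
  have h1 : p.eval (a * θ + r) = 0 := by
    rw [← h.eval, add_sub_cancel_right, mul_div_cancel_left₀ _ h.a_ne, hθ, mul_zero]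
  rw [Zp.wt_sep hs h1, Zp.wt_sep hs' hθ, sub_self]
  exact dvd_zero _

end

end Pool.Agent.Lib.MP_89bcae_ag.Zm
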