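import Mathlib
import Pool.Agent.Lib.MP_89bcae_ag.Zu.Vert
import Pool.Agent.Lib.MP_89bcae_ag.Zm.Tra

/-!
# The local form at a place, in the charts
-/

attribute [local instance 100000] Pool.Agent.Lib.MP_89bcae_ag.Brt.tffFields
attribute [local instance 100000] Pool.Agent.Lib.MP_89bcae_ag.Wt.ifrNF Pool.Agent.Lib.MP_89bcae_ag.Wt.iddNF

open Polynomial IsDedekindDomain IsLocalRing

open scoped Classical

namespace Pool.Agent.Lib.MP_89bcae_ag.Zm

open Pool.Agent.Lib.MP_89bcae_ag.Wt Pool.Agent.Lib.MP_89bcae_ag.Wt.Lns Pool.Agent.Lib.MP_89bcae_ag.Bra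
  Pool.Agent.Lib.MP_89bcae_ag.Brt

open Pool.Agent.Lib.MP_89bcae_ag.Zu (cluster_auxU cInf_val cInf)

open Pool.Agent.Lib.MP_89bcae_ag.Zc (io io_sub)

open Pool.Agent.Lib.MP_89bcae_ag.Zp (good_sep rm_neg')

lemma separable_comp_aff {A : Type} [Field A] {p : A[X]} (hp : p.Separable) {a r : A} (ha : a ≠ 0) :
    (p.comp (C a * X + C r)).Separable := by
  obtain ⟨u, w, h⟩ := hp
  refine ⟨u.comp (C a * X + C r), w.comp (C a * X + C r) * C a⁻¹, ?_⟩
  have h1 := congrArg (fun q : A[X] => q.comp (C a * X + C r)) h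
  simp only [add_comp, mul_comp, one_comp] at h1
  have h2 : derivative (p.comp (C a * X + C r)) = C a * (derivative p).comp (C a * X + C r) := by
    rw [derivative_comp, derivative_add, derivative_C_mul, derivative_X, derivative_C, mul_one, add_zero]
  have h3 : (C a⁻¹ : A[X]) * C a = 1 := by rw [← C_mul, inv_mul_cancel₀ ha, C_1]
  rw [h2]
  linear_combination h1 + (w.comp (C a * X + C r) * (derivative p).comp (C a * X + C r)) * h3

section

variable {F L Ω K M : Type} [Field F] [IsAlgClosed F] [Field L] [Algebra F[X] L] [Field Ω] [Algebra L Ω]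
  [IsAlgClosure L Ω] [Field K] [Algebra F[X] K] [Field M] [Algebra K M] [IsAlgClosure K M] [Algebra F M]
  {ℓ : ℕ} {ζ : F} {f : L[X]} [hG : IsGood ℓ (f.map (algebraMap L Ω))]

/-- The local form at a place, in a chart. -/
theorem lte_model (hℓ : ℓ.Prime) (hℓF : (ℓ : F) ≠ 0) (hζ : IsPrimitiveRoot ζ ℓ)
    (ψ : F[X] →+* L) (hψ : ∀ a, ψ (Polynomial.C a) = algebraMap F[X] L (Polynomial.C a)) {φ : F[X][X]}
    {a b' ρ : L} (hS : Aff ℓ f (φ.map ψ) a b' ρ) (hsep : f.Separable)
    {s : F} (hφ : φ.map (evalRingHom s) ≠ 0) (i : L →+* K) (j : Ω →+* M)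
    (hij : ∀ z, j (algebraMap L Ω z) = algebraMap K M (i z)) (hK : ∀ p, algebraMap F[X] K p = i (ψ p))
    {v : AbsoluteValue M ℝ} (hL : LocF F K s v)
    [hG' : IsGood ℓ ((f.map i).map (algebraMap K M))]
    (b : (Ω ≃ₐ[L] Ω) → (Ω ≃ₐ[L] Ω) → (FunField ℓ (f.map (algebraMap L Ω)))ˣ)
    (C : (Ω ≃ₐ[L] Ω) → (Pt ℓ (f.map (algebraMap L Ω)) →₀ ℤ)) (hb : ICoc b)
    (hu : IUnr F b) (hC : IDiv b C)
    (hz : (algebraMap L Ω (algebraMap F[X] L (Polynomial.C ζ))) ^ ℓ = 1)
    (hZ : ∀ g, zJ (algebraMap L Ω (algebraMap F[X] L (Polynomial.C ζ))) hz (cl (C g)) =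
      (cl (C g) : Jac ℓ (f.map (algebraMap L Ω)))) :
    LTm ℓ F f i j v a ρ (fun g => cl (C g)) := by
  have hMc : IsAlgClosed M := IsAlgClosure.isAlgClosed K
  have hΩc : IsAlgClosed Ω := IsAlgClosure.isAlgClosed L
  have hℓL : (ℓ : L) ≠ 0 := by
    rw [← map_natCast ((algebraMap F[X] L).comp (Polynomial.C : F →+* F[X])) ℓ]
    exact (_root_.map_ne_zero _).2 hℓF
  have hdeg : (φ.map ψ).natDegree = f.natDegree := by
    have h1 := congrArg natDegree hS.eq
    rw [natDegree_C_mul (pow_ne_zero _ hS.b_ne), natDegree_comp] at h1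
    rw [h1, natDegree_add_C, natDegree_C_mul_X _ hS.a_ne, mul_one]
  have hcop : f.natDegree.Coprime ℓ := by
    have h1 := hG.coprime
    rwa [natDegree_map] at h1
  have hsep' : (φ.map ψ).Separable := by
    refine Separable.of_mul_right (f := Polynomial.C (b' ^ ℓ)) ?_
    rw [hS.eq]
    exact separable_comp_aff hsep hS.a_ne
  have hGφ : IsGood ℓ ((φ.map ψ).map (algebraMap L Ω)) := by
    refine good_sep hℓ.one_lt ?_ hsep'.map ?_
    · rw [← map_natCast (algebraMap L Ω) ℓ]
      exact (_root_.map_ne_zero _).2 hℓL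
    · rw [natDegree_map, hdeg]
      exact hcop
  have hGφ' : IsGood ℓ (((φ.map ψ).map i).map (algebraMap K M)) := by
    refine good_sep hℓ.one_lt ?_ hsep'.map.map ?_
    · rw [← map_natCast ((algebraMap K M).comp i) ℓ]
      exact (_root_.map_ne_zero _).2 hℓL
    · rw [natDegree_map, natDegree_map, hdeg]
      exact hcop
  have hpolf : (f.map (algebraMap L Ω)).map j = (f.map i).map (algebraMap K M) := by
    rw [Polynomial.map_map, Polynomial.map_map]
    congr 1
    exact RingHom.ext hij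
  have hji : j.comp (algebraMap L Ω) = (algebraMap K M).comp i := RingHom.ext hij
  have hpolφ : ((φ.map ψ).map (algebraMap L Ω)).map j = ((φ.map ψ).map i).map (algebraMap K M) := by
    rw [Polynomial.map_map (algebraMap L Ω) j, Polynomial.map_map i (algebraMap K M), hji]
  have hSM : Aff ℓ ((f.map i).map (algebraMap K M)) (((φ.map ψ).map i).map (algebraMap K M))
      (j (algebraMap L Ω a)) (j (algebraMap L Ω b')) (j (algebraMap L Ω ρ)) := Aff.map j hpolf hpolφ (afO hS)
  have hpio : ((φ.map ψ).map i).map (algebraMap K M) = φ.map (io F K M) := by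
    rw [Polynomial.map_map, Polynomial.map_map]
    congr 1
    refine RingHom.ext fun p => ?_
    show algebraMap K M (i (ψ p)) = algebraMap K M (algebraMap F[X] K p)
    rw [hK]
  have hlead : v (cInf v (((φ.map ψ).map i).map (algebraMap K M))) = 1 := cInf_val hL hφ hpio
  -- the cocycle in the chart
  have hu2 : @IUnr L Ω _ _ _ ℓ (φ.map ψ) F _ ψ.toAlgebra (trB hS b) :=
    iunr_congr _ ψ.toAlgebra (fun c => (hψ c).symm) (iunr_tr hS hu)
  have hz2 : (algebraMap L Ω (ψ (Polynomial.C ζ))) ^ ℓ = 1 := by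
    rw [hψ]
    exact hz
  have hcl : ∀ g, (cl (trC hS C g) : Jac ℓ ((φ.map ψ).map (algebraMap L Ω))) = afJ (afO hS) (cl (C g)) :=
    fun g => cl_trC hS C g
  have key := @cluster_auxU F L Ω K M _ _ _ ψ.toAlgebra _ _ _ _ _ _ _ _ _ ℓ ζ (φ.map ψ) hGφ j i
    (fun z => (hij z).symm) (fun p => (hK p).symm) hℓ hℓF hζ s v hL hGφ' hsep'.map.map hlead
    (trB hS b) (icoc_tr hS hb) hu2 (trC hS C) (idiv_tr hS hC) hz2 (by
      intro g
      rw [hcl, ← afJ_zJ]
      congr 1
      exact (G04_zJ_congr (congrArg (algebraMap L Ω) (hψ ζ)) hz2 hz _).trans (hZ g))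
  obtain ⟨Q', hQ'⟩ := key
  -- the two sets of roots
  have hA : j (algebraMap L Ω a) = algebraMap K M (i a) := hij a
  have hR : j (algebraMap L Ω ρ) = algebraMap K M (i ρ) := hij ρ
  have hA0 : algebraMap K M (i a) ≠ 0 := by
    rw [← hA]
    exact hSM.a_ne
  have hrt : ∀ θ : M, ((f.map i).map (algebraMap K M)).eval θ = 0 ↔
      (((φ.map ψ).map i).map (algebraMap K M)).eval ((θ - algebraMap K M (i ρ)) / algebraMap K M (i a)) = 0 := by
    intro θ
    rw [← hSM.eval, hA, hR, mul_eq_zero, or_iff_right (pow_ne_zero _ hSM.b_ne)]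
  have hsepM : ((f.map i).map (algebraMap K M)).Separable := hsep.map.map
  have hsepM' : (((φ.map ψ).map i).map (algebraMap K M)).Separable := hsep'.map.map
  have hnear : ∀ (r : F) (θ : M), θ ∈ nearA v (algebraMap K M (i a)) (algebraMap K M (i ρ))
      ((f.map i).map (algebraMap K M)) r ↔
      (θ - algebraMap K M (i ρ)) / algebraMap K M (i a) ∈ nr F v (((φ.map ψ).map i).map (algebraMap K M)) r := by
    intro r θ
    unfold nearA nr
    rw [Finset.mem_filter, Finset.mem_filter, Multiset.mem_toFinset, Multiset.mem_toFinset,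
      mem_roots hsepM.ne_zero, mem_roots hsepM'.ne_zero, IsRoot.def, IsRoot.def, hrt]
  refine ⟨(afJ hSM).symm Q', fun g g' hg hpol => ?_⟩
  obtain ⟨e, he1, he2⟩ := hQ' g g' hg hpolφ
  refine ⟨fun θ => -e ((θ - algebraMap K M (i ρ)) / algebraMap K M (i a)), ?_, fun r => ?_⟩
  · apply (afJ hSM).injective
    have hfix : ∀ z : L, g (j (algebraMap L Ω z)) = j (algebraMap L Ω z) := by
      intro z
      rw [hij, g.commutes]
    rw [map_add, map_sub, afJ_symJ hSM (gs (f.map i) g) (gs ((φ.map ψ).map i) g) rfl (hfix a) (hfix b') (hfix ρ),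
      AddEquiv.apply_symm_apply, afJ_rm hSM hsepM hsepM', afJ_jacMap j hpol hpolφ (afO hS) hSM, ← hcl, he1]
    have h1 : (fun θ : M => -e ((j (algebraMap L Ω a) * θ + j (algebraMap L Ω ρ) - algebraMap K M (i ρ)) /
        algebraMap K M (i a))) = fun θ => -e θ := by
      funext θ
      rw [hA, hR, add_sub_cancel_right, mul_div_cancel_left₀ _ hA0]
    rw [h1, rm_neg']
    abel
  · rw [Finset.sum_neg_distrib, dvd_neg]
    have h1 : ∑ θ ∈ nearA v (algebraMap K M (i a)) (algebraMap K M (i ρ)) ((f.map i).map (algebraMap K M)) r,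
        e ((θ - algebraMap K M (i ρ)) / algebraMap K M (i a)) =
        ∑ θ ∈ nr F v (((φ.map ψ).map i).map (algebraMap K M)) r, e θ := by
      refine Finset.sum_nbij' (fun θ => (θ - algebraMap K M (i ρ)) / algebraMap K M (i a))
        (fun θ => θ * algebraMap K M (i a) + algebraMap K M (i ρ))
        (fun θ h => (hnear r θ).1 h) (fun θ h => ?_) (fun θ _ => ?_)
        (fun θ _ => ?_) (fun θ _ => rfl)
      · rw [hnear, add_sub_cancel_right, mul_div_cancel_right₀ _ hA0]
        exact h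
      · rw [div_mul_cancel₀ _ hA0, sub_add_cancel]
      · rw [add_sub_cancel_right, mul_div_cancel_right₀ _ hA0]
    rw [h1]
    exact he2 r

end

end Pool.Agent.Lib.MP_89bcae_ag.Zm
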