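import Mathlib
import Pool.Agent.Lib.MP_89bcae_ag.Zm.L4
import Pool.Agent.Lib.MP_89bcae_ag.Zm.Ver
import Pool.Agent.Lib.MP_89bcae_ag.Zm.Plc
import Pool.Agent.Lib.MP_89bcae_ag.Zq.Fin

/-!
# The elements attached to the unramified cocycles are unramified in all the charts
-/

attribute [local instance 100000] Pool.Agent.Lib.MP_89bcae_ag.Brt.tffFields
attribute [local instance 100000] Pool.Agent.Lib.MP_89bcae_ag.Wt.ifrNF Pool.Agent.Lib.MP_89bcae_ag.Wt.iddNF

open Polynomial IsDedekindDomain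

open scoped Classical

namespace Pool.Agent.Lib.MP_89bcae_ag.Zm

open Pool.Agent.Lib.MP_89bcae_ag.Wt Pool.Agent.Lib.MP_89bcae_ag.Wt.Lns Pool.Agent.Lib.MP_89bcae_ag.Bra
  Pool.Agent.Lib.MP_89bcae_ag.Brt Pool.Agent.Lib.MP_89bcae_ag.Zc

open Pool.Agent.Lib.MP_89bcae_ag.Zp (IsSmoothAt UB ltprop_ub norm_pow)

open Pool.Agent.Lib.MP_89bcae_ag.Zq (Contains exists_equiv)

open Pool.Agent.Lib.MP_89bcae_ag.Zs hiding IsBranchCurve IsCritical IsSymplectic IsOrthogonal IsSmoothAt unramified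
  critical_contra l3_val l4_chart lf_z isBranchCurve_red isCritical_red

/-! ### The local field of a chart -/

section

variable {F L K M : Type} [Field F] [Field L] [Algebra F[X] L] [IsFractionRing F[X] L] [Field K] [Field M]
  [Algebra K M] {i : L →+* K} {v : AbsoluteValue M ℝ}

/-- The local field of a chart. -/
theorem locF_chart [IsAlgClosed F] (hv : IsPlace F i v) {τ : L}
    (hτ : (∃ s : F, τ = algebraMap F[X] L (X - C s)) ∨ τ = (algebraMap F[X] L X)⁻¹)
    (hlt : v (algebraMap K M (i τ)) < 1) {ψ : F[X] →+* L} (hψ : ∀ a, ψ (C a) = algebraMap F[X] L (C a))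
    (hψX : ψ X = τ) [hFK : Algebra F[X] K] [hFM : Algebra F M] (hK : ∀ p, algebraMap F[X] K p = i (ψ p))
    (hM : ∀ a : F, algebraMap F M a = algebraMap K M (i (algebraMap F[X] L (C a)))) : LocF F K 0 v := by
  have ht : algebraMap F[X] L X ≠ 0 := by
    rw [Ne, IsFractionRing.to_map_eq_zero_iff]
    exact X_ne_zero
  rcases hτ with ⟨s, rfl⟩ | rfl
  · -- a finite place
    have hlt' : v (algebraMap K M (i (algebraMap F[X] L X)) - algebraMap K M (i (algebraMap F[X] L (C s)))) < 1 := by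
      rw [map_sub, map_sub, map_sub] at hlt
      exact hlt
    have h : v (algebraMap K M (i (algebraMap F[X] L X))) ≤ 1 := by
      have h1 := hv.nonarch (algebraMap K M (i (algebraMap F[X] L X)) - algebraMap K M (i (algebraMap F[X] L (C s))))
        (algebraMap K M (i (algebraMap F[X] L (C s))))
      rw [sub_add_cancel] at h1
      refine h1.trans (max_le hlt'.le ?_)
      by_cases h2 : s = 0
      · subst h2
        simp
      · exact (hv.const s h2).le
    obtain ⟨s', hs'⟩ := locF_fin hv h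
    have h1 : @LocF F K M _ _ _ ((i.comp (algebraMap F[X] L)).toAlgebra) _ hFM s' v := by
      let _ : Algebra F[X] K := (i.comp (algebraMap F[X] L)).toAlgebra
      exact hs' (fun p => rfl) hM
    obtain ⟨h2, h3, h4, h5⟩ := h1
    have hss : s' = s := by
      refine h3.residue_unique h3.lt_one ?_
      rw [hM]
      exact hlt'
    subst hss
    have hX : algebraMap K M (algebraMap F[X] K X) - algebraMap F M 0 =
        algebraMap K M (i (algebraMap F[X] L X)) - algebraMap F M s' := by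
      rw [hK, hψX, hM s', map_sub, map_sub, map_sub, hM 0, C_0, map_zero, map_zero, map_zero, sub_zero]
    have hne : algebraMap K M (i (algebraMap F[X] L X)) - algebraMap F M s' ≠ 0 := sub_ne_zero.2 h3.ne
    refine ⟨fun c => by rw [hM, hK, hψ], ⟨h3.alg, hv.nonarch, fun c hc => by rw [hM]; exact hv.const c hc, ?_, ?_,
      h3.residue⟩, fun x hx => ?_, hv.inv⟩
    · rw [hX]
      exact h3.lt_one
    · rw [← sub_ne_zero, hX]
      exact hne
    · obtain ⟨n, hn⟩ := h4 x hx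
      refine ⟨n, ?_⟩
      rw [hX, hn]
      rfl
  · -- the place at infinity
    refine locF_inf hv ?_ (fun a => by rw [hK, hψ]) (by rw [hK, hψX]) hM
    rw [map_inv₀, map_inv₀, map_inv₀] at hlt
    by_contra hcon
    have h7 : 0 < v (algebraMap K M (i (algebraMap F[X] L X))) :=
      v.pos ((_root_.map_ne_zero _).2 ((_root_.map_ne_zero i).2 ht))
    exact absurd hlt (not_lt.2 ((one_le_inv₀ h7).2 (not_lt.1 hcon)))

end

/-! ### The charts over `L` -/

section

variable {k F L E : Type} [Field k] [Field F] [Algebra k F] [Field L] [Algebra F[X] L]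
  [IsFractionRing F[X] L] [Field E] [Algebra F E] {ℓ : ℕ} {f : k[X][X]} {t x : E}

/-- A chart comes from a chart over `L`. -/
theorem exists_chart (lam : L →+* E) (h2 : ∀ c : F, lam (algebraMap F[X] L (C c)) = algebraMap F E c)
    (h3 : lam (algebraMap F[X] L X) = t) {φ : F[X][X]} {τ ξ : E} (h : IsChart ℓ F f t x φ τ ξ) :
    ∃ (τ₀ a b ρ : L) (ψ : F[X] →+* L),
      ((∃ s : F, τ₀ = algebraMap F[X] L (X - C s)) ∨ τ₀ = (algebraMap F[X] L X)⁻¹) ∧ lam τ₀ = τ ∧
      (∀ a, ψ (C a) = algebraMap F[X] L (C a)) ∧ ψ X = τ₀ ∧ Aff ℓ (curveL k F L f) (φ.map ψ) a b ρ ∧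
      x = lam ρ + lam a * ξ := by
  obtain ⟨e₁, he₁⟩ := exists_equiv lam h2 h3
  obtain ⟨hτ, -, r, hr, w, hw, z, hz, hw0, hz0, hx, hp⟩ := h
  obtain ⟨τ₀, hτ₀, hτl⟩ : ∃ τ₀ : L, ((∃ s : F, τ₀ = algebraMap F[X] L (X - C s)) ∨ τ₀ = (algebraMap F[X] L X)⁻¹) ∧
      lam τ₀ = τ := by
    rcases hτ with ⟨s, rfl⟩ | rfl
    · exact ⟨_, Or.inl ⟨s, rfl⟩, by rw [map_sub, map_sub, h2, h3]⟩
    · exact ⟨_, Or.inr rfl, by rw [map_inv₀, h3]⟩
  have hlift : ∀ y ∈ IntermediateField.adjoin F {t}, ∃ y₀ : L, lam y₀ = y := by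
    intro y hy
    refine ⟨e₁.symm ⟨y, hy⟩, ?_⟩
    rw [← he₁, e₁.apply_symm_apply]
  obtain ⟨ρ, rfl⟩ := hlift r hr
  obtain ⟨a, rfl⟩ := hlift w hw
  obtain ⟨b, rfl⟩ := hlift z hz
  have ha0 : a ≠ 0 := by
    rintro rfl
    exact hw0 (map_zero lam)
  have hb0 : b ≠ 0 := by
    rintro rfl
    exact hz0 (map_zero lam)
  let ψ : F[X] →+* L := eval₂RingHom ((algebraMap F[X] L).comp C) τ₀
  have hψC : ∀ a, ψ (C a) = algebraMap F[X] L (C a) := fun a => eval₂_C _ _
  have hψX : ψ X = τ₀ := eval₂_X _ _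
  refine ⟨τ₀, a, b, ρ, ψ, hτ₀, hτl, hψC, hψX, ⟨ha0, hb0, ?_⟩, hx⟩
  apply Polynomial.map_injective lam lam.injective
  have e1 : lam.comp ψ = (aeval τ : F[X] →ₐ[F] E).toRingHom := by
    apply Polynomial.ringHom_ext
    · intro c
      show lam (ψ (C c)) = aeval τ (C c)
      rw [hψC, h2, aeval_C]
    · show lam (ψ X) = aeval τ X
      rw [hψX, hτl, aeval_X]
  have e2 : lam.comp (algebraMap F[X] L) = (aeval t : F[X] →ₐ[F] E).toRingHom := by
    apply Polynomial.ringHom_ext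
    · intro c
      show lam (algebraMap F[X] L (C c)) = aeval t (C c)
      rw [h2, aeval_C]
    · show lam (algebraMap F[X] L X) = aeval t X
      rw [h3, aeval_X]
  have e3 : (curveL k F L f).map lam = (Zs.ext F f).map (aeval t : F[X] →ₐ[F] E).toRingHom := by
    rw [← e2, ← Polynomial.map_map]
    congr 1
    exact map_base_eq F L f
  rw [Polynomial.map_mul, map_C, map_pow, Polynomial.map_map, e1, Polynomial.map_comp, e3,
    Polynomial.map_add, Polynomial.map_mul, map_C, map_C, map_X, ← hp, add_comm (C (lam a) * X)]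

end

/-! ### The values -/

section

variable {k F L Ω : Type} [Field k] [Field F] [Algebra k F] [IsAlgClosure k F] [Field L] [Algebra F[X] L]
  [IsFractionRing F[X] L] [Field Ω] [Algebra L Ω] [IsAlgClosure L Ω] {ℓ : ℕ} {f : k[X][X]} {ζ : k}

/-- The embeddings of `E` are the compositions of the given one and of the automorphisms of `Ω`. -/
theorem exists_gal_comp {p : L[X]} (hirr : Irreducible p) {E : Type} [Field E] [Algebra L E]
    (ι : E →ₐ[L] Ω) {x : E} (hroot : (p.map (algebraMap L Ω)).eval (ι x) = 0)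
    (hadj : ∀ y : Ω, y ∈ IntermediateField.adjoin L {ι x} ↔ ∃ e, ι e = y) (g : E →ₐ[L] Ω) :
    ∃ σ : Ω ≃ₐ[L] Ω, ∀ y, σ (ι y) = g y := by
  have hN : Normal L Ω := IsAlgClosure.normal L Ω
  have halg : Algebra.IsAlgebraic L Ω := IsAlgClosure.isAlgebraic
  have h1 : aeval (ι x) p = 0 := by
    rw [← eval_map_algebraMap]
    exact hroot
  have h2 : aeval (g x) (minpoly L (ι x)) = 0 := by
    have h3 : minpoly L (ι x) = minpoly L x := minpoly.algHom_eq ι ι.injective x
    rw [h3, aeval_algHom_apply, minpoly.aeval, map_zero]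
  obtain ⟨σ, hσ⟩ := minpoly.exists_algEquiv_of_root' (halg.isAlgebraic (ι x)) h2
  refine ⟨σ, fun y => ?_⟩
  -- `y` is a polynomial in `x`
  obtain ⟨A, hA⟩ : ∃ A : L[X], ι y = aeval (ι x) A := by
    have h3 : IsIntegral L (ι x) := IsAlgebraic.isIntegral ⟨p, hirr.ne_zero, h1⟩
    have h4 : ι y ∈ (IntermediateField.adjoin L {ι x}).toSubalgebra := (hadj (ι y)).2 ⟨y, rfl⟩
    rw [IntermediateField.adjoin_simple_toSubalgebra_of_isAlgebraic h3.isAlgebraic,
      Algebra.adjoin_singleton_eq_range_aeval] at h4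
    obtain ⟨A, hA⟩ := h4
    exact ⟨A, hA.symm⟩
  have h4 : y = aeval x A := (ι : E →+* Ω).injective (by
    show ι y = ι (aeval x A)
    rw [← aeval_algHom_apply, hA])
  have h5 := aeval_algHom_apply (σ : Ω →ₐ[L] Ω) (ι x) A
  have h6 : (σ : Ω →ₐ[L] Ω) (ι x) = g x := hσ
  rw [h6] at h5
  have h7 : σ (ι (aeval x A)) = aeval (g x) A := by
    rw [← aeval_algHom_apply ι]
    exact h5.symm
  rw [h4, h7, aeval_algHom_apply]

/-- The elements attached to the unramified cocycles are unramified in all the charts. -/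
theorem l5_charts (hℓ : ℓ.Prime) (hk : (ℓ : k) ≠ 0) {f : L[X]} (hfm : f.Monic) (hsep : f.Separable)
    (hirr : Irreducible f) (hcop : f.natDegree.Coprime ℓ)
    [hG : IsGood ℓ (f.map (algebraMap L Ω))] {ζ : F}
    (hζ : IsPrimitiveRoot ζ ℓ) {z : Ω → Ω} {c : (Ω ≃ₐ[L] Ω) → JacOver ℓ f Ω}
    (hz : KumD (algebraMap F[X] L (C ζ)) z c) (hc : UB F ℓ f c)
    (hz1 : (algebraMap L Ω (algebraMap F[X] L (C ζ))) ^ ℓ = 1)
    (hcz : ∀ g, zJ (algebraMap L Ω (algebraMap F[X] L (C ζ))) hz1 (c g) = c g)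
    {E : Type} [Field E] [Algebra L E] [FiniteDimensional L E] (ι : E →ₐ[L] Ω) {x : E} {u : Eˣ}
    (hx : (f.map (algebraMap L Ω)).eval (ι x) = 0)
    (hadj : ∀ y : Ω, y ∈ IntermediateField.adjoin L {ι x} ↔ ∃ e, ι e = y)
    (hu : z (ι x) ^ ℓ = ι u) {τ a b ρ : L} {ψ : F[X] →+* L} {φ : F[X][X]} {ξ : E}
    (hτ : (∃ s : F, τ = algebraMap F[X] L (X - C s)) ∨ τ = (algebraMap F[X] L X)⁻¹)
    (hψ : ∀ a, ψ (C a) = algebraMap F[X] L (C a)) (hψX : ψ X = τ) (hS : Aff ℓ f (φ.map ψ) a b ρ)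
    (hφ : φ.map (evalRingHom 0) ≠ 0) (hxξ : x = algebraMap L E ρ + algebraMap L E a * ξ) :
    ∃ c₀ : ℤ, ((φ.map (evalRingHom 0)).natDegree = f.natDegree → c₀ = 0) ∧
      ∀ O : ValuationSubring E, (∀ a : F, algebraMap L E (algebraMap F[X] L (C a)) ∈ O) → ∀ r : F,
        O.valuation (algebraMap L E τ) < 1 →
        O.valuation (ξ - algebraMap L E (algebraMap F[X] L (C r))) < 1 → IsSmoothAt φ 0 r →
          ∃ w : Eˣ, O.valuation (u : E) = O.valuation ((algebraMap L E τ) ^ c₀ * (w : E) ^ ℓ) := by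
  have hFa : IsAlgClosed F := IsAlgClosure.isAlgClosed k
  have hF0 : (ℓ : F) ≠ 0 := by
    rw [← map_natCast (algebraMap k F)]
    exact (_root_.map_ne_zero _).mpr hk
  have hzL : IsPrimitiveRoot (algebraMap F[X] L (C ζ)) ℓ :=
    hζ.map_of_injective (f := (algebraMap F[X] L).comp C) (RingHom.injective _)
  have hzΩ : IsPrimitiveRoot (algebraMap L Ω (algebraMap F[X] L (C ζ))) ℓ :=
    hzL.map_of_injective (algebraMap L Ω).injective
  obtain ⟨K, M, _, _, _, _, i, j, v, hij, hv, hτ1, hO⟩ := exists_place_all (F := F) (L := L) (Ω := Ω) hτ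
  obtain ⟨b', D, hb, hbu, hD, hcD⟩ := hc
  obtain ⟨c₀, hc₀, hval⟩ := l4_model (F := F) (K := K) (M := M) hℓ hF0 hfm hsep hzL hz ψ hψ hS hφ i j hij
    (v := v) (fun h1 h2 => locF_chart hv hτ hτ1 hψ hψX h1 h2) (by
      intro _ _ _ h1 h2 h3
      have h4 := lte_model (F := F) hℓ hF0 hζ ψ hψ hS hsep hφ i j hij h1 h3
        b' D hb hbu hD hz1 (fun g => by rw [← hcD g]; exact hcz g)
      have h5 : c = fun g => (cl (D g) : Jac ℓ (f.map (algebraMap L Ω))) := funext hcD
      rw [h5]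
      exact h4)
  refine ⟨c₀, hc₀, fun O hOF r h1 h2 h3 => ?_⟩
  obtain ⟨g, hg⟩ := hO E O hOF h1
  obtain ⟨σ, hσ⟩ := exists_gal_comp hirr ι hx hadj g
  have hg' : ∀ y : E, y ∈ O ↔ v ((j.comp (g : E →+* Ω)) y) ≤ 1 := hg
  -- the root
  have hθ : (f.map (algebraMap L Ω)).eval (g x) = 0 := by
    rw [eval_map_algebraMap] at hx ⊢
    rw [← hσ]
    have h4 := aeval_algHom_apply (σ : Ω →ₐ[L] Ω) (ι x) f
    rw [hx, map_zero] at h4
    exact h4
  have ha0 : algebraMap K M (i a) ≠ 0 := (_root_.map_ne_zero _).2 ((_root_.map_ne_zero i).2 hS.a_ne)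
  have hjL : ∀ y : L, j (g (algebraMap L E y)) = algebraMap K M (i y) := by
    intro y
    rw [g.commutes, hij]
  have hξ : (j (g x) - algebraMap K M (i ρ)) / algebraMap K M (i a) = j (g ξ) := by
    rw [hxξ, map_add, map_mul, map_add, map_mul, hjL, hjL, add_sub_cancel_left, mul_div_cancel_left₀ _ ha0]
  -- `z (g x)`
  have hzg : z (g x) ^ ℓ = g u := by
    obtain ⟨n, hn, -, -⟩ := hz.2 σ
    have h4 := hn (ι x) hx
    rw [hσ] at h4
    have h5 : (algebraMap L Ω (algebraMap F[X] L (C ζ)) ^ n (g x)) ^ ℓ = 1 := by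
      rw [← zpow_natCast, ← zpow_mul, mul_comm, zpow_mul, zpow_natCast, hz1, one_zpow]
    have h6 := congrArg (fun y => y ^ ℓ) h4
    simp only [mul_pow] at h6
    rw [h5, one_mul, ← map_pow, hu, hσ] at h6
    exact h6.symm
  have hgu : z (g x) ^ ℓ ∈ IntermediateField.adjoin L {g x} := by
    have h4 : (IntermediateField.adjoin L {x}).map g = IntermediateField.adjoin L {g x} := by
      rw [IntermediateField.adjoin_map, Set.image_singleton]
    have h5 : (IntermediateField.adjoin L {x}).map ι = IntermediateField.adjoin L {ι x} := by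
      rw [IntermediateField.adjoin_map, Set.image_singleton]
    have h6 : ι (u : E) ∈ IntermediateField.adjoin L {ι x} := (hadj _).2 ⟨u, rfl⟩
    rw [← h5] at h6
    obtain ⟨u', hu', h7⟩ := h6
    have h8 : u' = (u : E) := ι.injective h7
    rw [hzg, ← h4, ← h8]
    exact ⟨u', hu', rfl⟩
  obtain ⟨w, hw, hw0, hwv⟩ := hval (g x) hθ hgu r (by
    rw [hξ, ← hjL, ← map_sub, ← map_sub]
    exact lt_one_of_valuation hg' h2) h3
  -- `w` comes from `E`
  obtain ⟨w', rfl⟩ : ∃ w', g w' = w := by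
    have h4 : (IntermediateField.adjoin L {x}).map g = IntermediateField.adjoin L {g x} := by
      rw [IntermediateField.adjoin_map, Set.image_singleton]
    rw [← h4] at hw
    obtain ⟨w', -, h5⟩ := hw
    exact ⟨w', h5⟩
  have hw'0 : w' ≠ 0 := by
    rintro rfl
    exact hw0 (map_zero g)
  refine ⟨Units.mk0 w' hw'0, valuation_eq hg' ?_⟩
  show v (j (g u)) = v (j (g ((algebraMap L E τ) ^ c₀ * w' ^ ℓ)))
  rw [← hzg, map_pow, map_pow, hwv, C_0, sub_zero, hψX, map_mul, map_mul, map_mul, map_zpow₀, map_zpow₀,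
    map_zpow₀, hjL, map_pow, map_pow, map_pow]

end

/-! ### The degrees of the coefficients -/

/-- There is a surface `F_e` for each monic polynomial. -/
theorem exists_isBranchCurve {ℓ : ℕ} (hℓ : ℓ ≠ 0) {k F : Type} [Field k] [Field F] [Algebra k F] {f : k[X][X]}
    (h : IsBranch ℓ F f) : ∃ e, Zp.IsBranchCurve ℓ e F f := by
  obtain ⟨N, hN⟩ : ∃ N : ℕ, ∀ i, (f.coeff i).natDegree ≤ N := by
    refine ⟨(Finset.range (f.natDegree + 1)).sup fun i => (f.coeff i).natDegree, fun i => ?_⟩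
    by_cases hi : i ≤ f.natDegree
    · exact Finset.le_sup (f := fun i => (f.coeff i).natDegree) (Finset.mem_range.2 (Nat.lt_succ_of_le hi))
    · rw [coeff_eq_zero_of_natDegree_lt (not_le.1 hi), natDegree_zero]
      exact Nat.zero_le _
  refine ⟨ℓ * N, h.monic, h.coprime, h.separable, h.irreducible, dvd_mul_right _ _, fun i => ?_⟩
  rcases lt_trichotomy i f.natDegree with hi | hi | hi
  · have h1 : 1 ≤ f.natDegree - i := Nat.sub_pos_of_lt hi
    calc (f.coeff i).natDegree ≤ N := hN i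
      _ ≤ ℓ * N := Nat.le_mul_of_pos_left _ (Nat.pos_of_ne_zero hℓ)
      _ ≤ ℓ * N * (f.natDegree - i) := Nat.le_mul_of_pos_right _ h1
  · have h1 : f.coeff i = 1 := by
      rw [hi]
      exact h.monic
    rw [h1, natDegree_one]
    exact Nat.zero_le _
  · rw [coeff_eq_zero_of_natDegree_lt hi, natDegree_zero]
    exact Nat.zero_le _

section

variable {k F L Ω : Type} [Field k] [Field F] [Algebra k F] [IsAlgClosure k F] [Field L] [Algebra F[X] L]
  [IsFractionRing F[X] L] [Field Ω] [Algebra L Ω] [IsAlgClosure L Ω] {ℓ : ℕ} {f : k[X][X]} {ζ : k}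

/-- The elements attached to the unramified cocycles are in the group `unramified`. -/
theorem contains_unramified (hℓ : ℓ.Prime) (hk : (ℓ : k) ≠ 0) (hζ : IsPrimitiveRoot ζ ℓ) (hB : IsBranch ℓ F f)
    {E : Type} [Field E] [Algebra F E] {t x : E}
    [hG : IsGood ℓ (cOver k F L Ω f)] :
    Contains (L := L) (Ω := Ω) ζ (UB F ℓ (curveL k F L f)) t x (unramified ℓ F f t x) := by
  intro lam ι h1 h2 h3 hroot hfin hadj hz c hc hLT u hu
  obtain ⟨e, hBe⟩ := exists_isBranchCurve hℓ.ne_zero hB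
  have H : LHyp ℓ k F L f ζ := Zp.lhyp_of hℓ hk hζ hBe
  obtain ⟨hsep, hG₀⟩ := Zp.good_of (Ω := Ω) (L := L) hℓ hk hBe
  have hz' : IsPrimitiveRoot (zA F L Ω ζ) ℓ := zA_prim H
  have hirr : Irreducible (curveL k F L f) := by
    have h1 : (Zs.ext F f).Monic := hB.monic.map _
    have h2 := (h1.irreducible_iff_irreducible_map_fraction_map (K := L)).1 hB.irreducible
    rwa [← map_base_eq] at h2
  have hmon : (curveL k F L f).Monic := hB.monic.map _
  have hdeg : (curveL k F L f).natDegree = f.natDegree := hB.monic.natDegree_map _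
  have hcop : (curveL k F L f).natDegree.Coprime ℓ := by
    rw [hdeg]
    exact hB.coprime
  let _ : Algebra L E := lam.toAlgebra
  let _ : Algebra E Ω := ι.toAlgebra
  have htow : IsScalarTower L E Ω := IsScalarTower.of_algebraMap_eq fun z => (h1 z).symm
  have hfin' : FiniteDimensional L E := hfin
  have hzF : IsPrimitiveRoot (algebraMap k F ζ) ℓ := hζ.map_of_injective (algebraMap k F).injective
  have hzeq : zA F L Ω ζ = algebraMap L Ω (algebraMap F[X] L (C (algebraMap k F ζ))) := by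
    show algebraMap L Ω (algebraMap F[X] L ((C ζ).map (algebraMap k F))) = _
    rw [map_C]
  obtain ⟨z, hz1, hz2, hz3⟩ := hu
  refine ⟨?_, fun φ τ ξ hch => ?_⟩
  · have hℓL : (ℓ : L) ≠ 0 := by
      intro h
      apply hk
      have h5 : ((algebraMap F[X] L).comp ((C : F →+* F[X]).comp (algebraMap k F))) (ℓ : k) = 0 := by
        rw [map_natCast]
        exact h
      exact (_root_.map_eq_zero _).1 h5
    have hzL : algebraMap L Ω (zA F L L ζ) = zA F L Ω ζ := by
      show algebraMap L Ω (algebraMap L L (algebraMap F[X] L ((C ζ).map (algebraMap k F)))) = _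
      rfl
    refine norm_pow (L := L) (Ω := Ω) (P := curveL k F L f) hℓL (hB.monic.map _) hirr hsep lam ι h1 h2 h3
      hroot hadj (ζ := zA F L L ζ) (by
        show (algebraMap L L (algebraMap F[X] L ((C ζ).map (algebraMap k F)))) ^ ℓ = 1
        rw [map_C, ← map_pow, ← map_pow, ← map_pow, ← map_pow, hζ.pow_eq_one, map_one, map_one, map_one, map_one]) (fun σ => ?_) u.ne_zero hz2
    obtain ⟨n, hn1, -, hn3⟩ := hz3 σ
    refine ⟨n, fun θ hθ => ?_, hn3⟩
    rw [hzL]
    exact hn1 θ hθ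
  · have hzL : zA F L L ζ = algebraMap F[X] L (C (algebraMap k F ζ)) := by
      show algebraMap L L (algebraMap F[X] L ((C ζ).map (algebraMap k F))) = _
      rw [map_C]
      rfl
    obtain ⟨τ₀, a, b, ρ, ψ, hτ₀, hτ, hψ, hψX, hS, hx⟩ := exists_chart (k := k) (f := f) lam h2 h3 hch
    let ιL : E →ₐ[L] Ω := { toRingHom := ι, commutes' := h1 }
    obtain ⟨c₀, hc₀, h4⟩ := l5_charts (k := k) (L := L) (Ω := Ω) (ζ := algebraMap k F ζ) (z := z)
      (c := fun σ => vJ (zA F L Ω ζ) hz (c 1 σ)) hℓ hk hmon hsep hirr hcop hzF (by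
        rw [← hzL]
        exact ⟨hz1, hz3⟩) (ltprop_ub.vJ hz (hLT 1)) (by rw [← hzeq]; exact hz) (by
        intro σ
        have h4 := vJ_sub_zJ (zA F L Ω ζ) hz' (c 1 σ)
        rw [hc.smul 0 σ, hc.zero, sub_eq_zero] at h4
        exact (G04_zJ_congr hzeq.symm _ hz _).trans h4.symm) ιL (x := x) (u := u) hroot hadj hz2 hτ₀ hψ hψX hS
      hch.2.1 hx
    refine ⟨c₀, fun h5 => hc₀ (h5.trans hdeg.symm), fun O hO r h5 h6 h7 => ?_⟩
    have h8 : algebraMap L E τ₀ = τ := hτ
    rw [← h8] at h5 ⊢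
    refine h4 O (fun a => ?_) r h5 ?_ h7
    · have h9 : algebraMap L E (algebraMap F[X] L (C a)) = algebraMap F E a := h2 a
      rw [h9]
      exact hO a
    · have h9 : algebraMap L E (algebraMap F[X] L (C r)) = algebraMap F E r := h2 r
      rw [h9]
      exact h6

end

end Pool.Agent.Lib.MP_89bcae_ag.Zm
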