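import Pool.Agent.Lib.MP_89bcae_ag.Zm.DefsS
import Pool.Agent.Lib.MP_89bcae_ag.Zq.Jac

/-!
# Large images satisfy the criterion
-/

open scoped Classical

namespace Pool.Agent.Lib.MP_89bcae_ag.Zm

open Pool.Agent.Lib.MP_89bcae_ag.Zs (powers galois range_congr stab actU)

open Pool.Agent.Lib.MP_89bcae_ag.Zq

section Abs

variable {Γ A : Type*} [Group Γ] [AddCommGroup A] [DistribMulAction Γ A]

/-- The group `Γ` acts on a stable subgroup `N` at least through the group through which the stabiliser of the subgroup `W` of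
`N` acts on `W`. -/
theorem card_dvd (W N : AddSubgroup A) (hWN : W ≤ N) (hN : ∀ g : Γ, ∀ v ∈ N, g • v ∈ N) :
    Nat.card (@MulAction.toPermHom (stab W : Subgroup Γ) W _
      (actU W (stab W : Subgroup Γ) (fun _ hγ u hu => (hγ u).2 hu)).toMulAction).range ∣
      Nat.card (Set.range fun (g : Γ) (v : N) => g • (v : A)) := by
  let act := actU W (stab W : Subgroup Γ) (fun γ hγ u hu => (hγ u).2 hu)
  let actN := actU N (⊤ : Subgroup Γ) (fun γ _ u hu => hN γ u hu)
  let φN : Γ →* Equiv.Perm N := (MulAction.toPermHom (⊤ : Subgroup Γ) N).comp Subgroup.topEquiv.symm.toMonoidHom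
  have hφN : ∀ (g : Γ) (v : N), (φN g v : A) = g • (v : A) := fun g v => rfl
  let φW : (stab W : Subgroup Γ) →* Equiv.Perm W := MulAction.toPermHom (stab W : Subgroup Γ) W
  have hφW : ∀ (g : (stab W : Subgroup Γ)) (v : W), (φW g v : A) = (g : Γ) • (v : A) := fun g v => rfl
  have h1 : Nat.card φW.range ∣ Nat.card (φN.comp (stab W : Subgroup Γ).subtype).range := by
    rw [← Subgroup.index_ker, ← Subgroup.index_ker]
    apply Subgroup.index_dvd_of_le
    intro g hg
    rw [MonoidHom.mem_ker] at hg ⊢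
    ext v
    have h2 := congrArg (fun s : Equiv.Perm N => ((s ⟨v, hWN v.2⟩ : N) : A)) hg
    exact h2
  have h2 : Nat.card (φN.comp (stab W : Subgroup Γ).subtype).range ∣ Nat.card φN.range := by
    apply Subgroup.card_dvd_of_le
    rintro _ ⟨g, rfl⟩
    exact ⟨g, rfl⟩
  have h3 : Nat.card φN.range = Nat.card (Set.range fun (g : Γ) (v : N) => g • (v : A)) := by
    refine Nat.card_congr (Equiv.ofBijective (fun f => ⟨fun v => ((f : Equiv.Perm N) v : A), ?_⟩) ⟨?_, ?_⟩)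
    · obtain ⟨g, hg⟩ := f.2
      refine ⟨g, ?_⟩
      funext v
      rw [← hg]
      rfl
    · intro f f' hff
      apply Subtype.ext
      ext v
      exact congrArg (fun t : Set.range (fun (g : Γ) (v : N) => g • (v : A)) => (t : N → A) v) hff
    · rintro ⟨_, g, rfl⟩
      exact ⟨⟨φN g, g, rfl⟩, rfl⟩
  rw [← h3]
  exact h1.trans h2

/-- A stable group `N` which meets `W` contains `W`, if there are enough elements of `Γ` which act on `W`. -/
theorem le_of_irreducible (W : AddSubgroup A) (good : (W ≃+ W) → Prop)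
    (hgood : ∀ (S : Subgroup Γ) (_ : DistribMulAction S W),
      (∀ f : W ≃+ W, good f → ∃ g : S, ∀ v, g • v = f v) → ∀ N : AddSubgroup W,
      (∀ g : S, ∀ v ∈ N, g • v ∈ N) → N ≠ ⊥ → N = ⊤)
    (hiso : ∀ f : W ≃+ W, good f → ∃ g : Γ, ∀ v : W, g • (v : A) = f v)
    (N : AddSubgroup A) (hne : N ⊓ W ≠ ⊥) (hN : ∀ g : Γ, ∀ v ∈ N, g • v ∈ N) : W ≤ N := by
  have hN1 : N.addSubgroupOf W ≠ ⊥ := by
    intro h
    apply hne
    rw [AddSubgroup.addSubgroupOf_eq_bot] at h
    rw [eq_bot_iff]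
    intro x hx
    exact h.le_bot hx
  let act := actU W (stab W : Subgroup Γ) (fun _ hγ u hu => (hγ u).2 hu)
  have h := hgood (stab W) act ?_ (N.addSubgroupOf W) ?_ hN1
  · rwa [AddSubgroup.addSubgroupOf_eq_top] at h
  · intro f hf
    obtain ⟨γ, hγ⟩ := hiso f hf
    refine ⟨⟨γ, fun u => ⟨fun hu => ?_, fun hu => ?_⟩⟩, fun v => Subtype.ext (hγ v)⟩
    · have h1 := hγ (f.symm ⟨γ • u, hu⟩)
      rw [AddEquiv.apply_symm_apply] at h1
      have h2 := smul_left_cancel γ h1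
      rw [← h2]
      exact (f.symm ⟨γ • u, hu⟩).2
    · have h1 := hγ ⟨u, hu⟩
      change γ • u = _ at h1
      rw [h1]
      exact (f ⟨u, hu⟩).2
  · intro g v hv
    rw [AddSubgroup.mem_addSubgroupOf] at hv ⊢
    exact hN g v hv

/-- The automorphisms of `W` which come from `Γ` come from the stabiliser of `W`. -/
theorem exists_stab (W : AddSubgroup A) (good : (W ≃+ W) → Prop)
    (hiso : ∀ f : W ≃+ W, good f → ∃ g : Γ, ∀ v : W, g • (v : A) = f v) (f : W ≃+ W) (hf : good f) :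
    ∃ g : (stab W : Subgroup Γ), ∀ v : W,
      (actU W (stab W : Subgroup Γ) (fun _ hγ u hu => (hγ u).2 hu)).smul g v = f v := by
  obtain ⟨γ, hγ⟩ := hiso f hf
  refine ⟨⟨γ, fun u => ⟨fun hu => ?_, fun hu => ?_⟩⟩, fun v => Subtype.ext (hγ v)⟩
  · have h1 := hγ (f.symm ⟨γ • u, hu⟩)
    rw [AddEquiv.apply_symm_apply] at h1
    have h2 := smul_left_cancel γ h1
    rw [← h2]
    exact (f.symm ⟨γ • u, hu⟩).2
  · have h1 := hγ ⟨u, hu⟩
    change γ • u = _ at h1
    rw [h1]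
    exact (f ⟨u, hu⟩).2

/-- The order is large, in the symplectic case. -/
theorem symp_dvd {l : ℕ} [hl : Fact l.Prime] (W : AddSubgroup A)
    (hW : ∀ u : W, l • u = 0) (e : W →+ W →+ ZMod l) (halt : ∀ v, e v v = 0)
    (hnd : ∀ v, (∀ w, e v w = 0) → v = 0)
    (hiso : ∀ f : W ≃+ W, (∀ v w, e (f v) (f w) = e v w) → ∃ g : Γ, ∀ v : W, g • (v : A) = f v)
    (g : ℕ) (hcard : Nat.card W = l ^ (2 * g))
    (N : AddSubgroup A) (hne : N ⊓ W ≠ ⊥) (hN : ∀ g : Γ, ∀ v ∈ N, g • v ∈ N) :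
    W ≤ N ∧ l ^ (g ^ 2) ∣ Nat.card (Set.range fun (g : Γ) (v : N) => g • (v : A)) := by
  have : Finite W := Nat.finite_of_card_ne_zero (by
    rw [hcard]
    exact pow_ne_zero _ hl.out.ne_zero)
  have h1 : W ≤ N := le_of_irreducible W (fun f => ∀ v w, e (f v) (f w) = e v w)
    (fun S _ hS M hM hMne => ZSymp.irreducible (G := S) e hW halt hnd hS M hM hMne) hiso N hne hN
  refine ⟨h1, Dvd.dvd.trans ?_ (card_dvd W N h1 hN)⟩
  exact @ZOrd.symp l hl (stab W : Subgroup Γ) W _ _ (actU W (stab W : Subgroup Γ) (fun _ hγ u hu => (hγ u).2 hu))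
    _ e hW halt hnd (exists_stab W _ hiso) g hcard.ge

/-- The order is large, in the orthogonal case. -/
theorem orth_dvd (W : AddSubgroup A)
    (hW : ∀ u : W, 2 • u = 0) (q : W → ZMod 2) (e : W →+ W →+ ZMod 2)
    (hq : ∀ v w, q (v + w) = q v + q w + e v w)
    (hnd : ∀ v, (∀ w, e v w = 0) → v = 0)
    (hiso : ∀ f : W ≃+ W, (∀ v, q (f v) = q v) → ∃ g : Γ, ∀ v : W, g • (v : A) = f v)
    (g : ℕ) (hg : 3 ≤ g) (hcard : Nat.card W = 2 ^ (2 * g))
    (N : AddSubgroup A) (hne : N ⊓ W ≠ ⊥) (hN : ∀ g : Γ, ∀ v ∈ N, g • v ∈ N) :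
    W ≤ N ∧ 2 ^ (g * (g - 1)) ∣ Nat.card (Set.range fun (g : Γ) (v : N) => g • (v : A)) := by
  have : Finite W := Nat.finite_of_card_ne_zero (by
    rw [hcard]
    exact pow_ne_zero _ two_ne_zero)
  have h1 : W ≤ N := le_of_irreducible W (fun f => ∀ v, q (f v) = q v)
    (fun S _ hS M hM hMne => ZOrd.orth_irreducible (G := S) q e hW hq hnd hS (by
      rw [hcard]
      exact Nat.pow_le_pow_right (by norm_num) (by omega)) M hM hMne) hiso N hne hN
  refine ⟨h1, Dvd.dvd.trans ?_ (card_dvd W N h1 hN)⟩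
  exact @ZOrd.orth (stab W : Subgroup Γ) W _ _ (actU W (stab W : Subgroup Γ) (fun _ hγ u hu => (hγ u).2 hu))
    _ q e hW hq hnd (exists_stab W _ hiso) g hcard.ge

/-- An element of `Γ`, the `l`-th power of which acts trivially on `W`, can be replaced by an element which acts on `N` as an
automorphism the order of which is a power of `l`. -/
theorem exists_pow {l : ℕ} [hl : Fact l.Prime] (W N : AddSubgroup A) [Finite N] (hN : ∀ g : Γ, ∀ v ∈ N, g • v ∈ N)
    (g₀ : Γ) (h0 : ∀ w ∈ W, g₀ ^ l • w = w) :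
    ∃ (g : Γ) (n : ℕ), (∀ v ∈ N, g ^ l ^ n • v = v) ∧ ∀ w ∈ W, g • w = g₀ • w := by
  let actN := actU N (⊤ : Subgroup Γ) (fun _ _ u hu => hN _ u hu)
  let φN : Γ →* Equiv.Perm N := (MulAction.toPermHom (⊤ : Subgroup Γ) N).comp Subgroup.topEquiv.symm.toMonoidHom
  have hφN : ∀ (g : Γ) (v : N), (φN g v : A) = g • (v : A) := fun g v => rfl
  have ho : orderOf (φN g₀) ≠ 0 := (orderOf_pos _).ne'
  obtain ⟨n, b, hb, hob⟩ := Nat.exists_eq_pow_mul_and_not_dvd ho l hl.out.ne_one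
  have hcop : Nat.Coprime l b := (Nat.Prime.coprime_iff_not_dvd hl.out).2 hb
  obtain ⟨a, ha1, ha2⟩ := Nat.chineseRemainder hcop 1 0
  refine ⟨g₀ ^ a, n, fun v hv => ?_, fun w hw => ?_⟩
  · have h1 : φN (g₀ ^ (a * l ^ n)) = 1 := by
      rw [map_pow, ← orderOf_dvd_iff_pow_eq_one, hob, mul_comm]
      exact Nat.mul_dvd_mul_right ((Nat.modEq_zero_iff_dvd).1 ha2) _
    rw [← pow_mul]
    have h2 := hφN (g₀ ^ (a * l ^ n)) ⟨v, hv⟩
    rw [h1] at h2
    exact h2.symm
  · have h1 : ∀ i, g₀ ^ (l * i) • w = w := by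
      intro i
      induction i with
      | zero => rw [mul_zero, pow_zero, one_smul]
      | succ i ih => rw [Nat.mul_succ, pow_add, mul_smul, h0 w hw, ih]
    obtain ⟨i, hi⟩ : ∃ i, a = l * i + 1 := by
      refine ⟨a / l, ?_⟩
      have h2 : a % l = 1 := by
        have h3 : a % l = 1 % l := ha1
        rw [h3, Nat.mod_eq_of_lt hl.out.one_lt]
      have h4 := Nat.div_add_mod a l
      omega
    rw [hi, pow_succ']
    rw [mul_smul, h1]

/-- The image is not commutative, in the symplectic case. -/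
theorem symp_twisted {l : ℕ} [hl : Fact l.Prime] (W : AddSubgroup A)
    (hW : ∀ u : W, l • u = 0) (e : W →+ W →+ ZMod l) (halt : ∀ v, e v v = 0)
    (hnd : ∀ v, (∀ w, e v w = 0) → v = 0)
    (hiso : ∀ f : W ≃+ W, (∀ v w, e (f v) (f w) = e v w) → ∃ g : Γ, ∀ v : W, g • (v : A) = f v)
    (N : AddSubgroup A) [Finite N] (hne : N ⊓ W ≠ ⊥) (hN : ∀ g : Γ, ∀ v ∈ N, g • v ∈ N) :
    ∃ (g g' : Γ) (n : ℕ), (∀ v ∈ N, g ^ l ^ n • v = v) ∧ (∀ v ∈ N, g' ^ l ^ n • v = v) ∧
      ∃ v ∈ N, (g * g') • v ≠ (g' * g) • v := by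
  have h1 : W ≤ N := le_of_irreducible W (fun f => ∀ v w, e (f v) (f w) = e v w)
    (fun S _ hS M hM hMne => ZSymp.irreducible (G := S) e hW halt hnd hS M hM hMne) hiso N hne hN
  have hV0 : ∃ v : W, v ≠ 0 := by
    by_contra h
    push Not at h
    apply hne
    rw [eq_bot_iff]
    intro y hy
    have h1 := h ⟨y, hy.2⟩
    rw [AddSubgroup.mem_bot]
    exact congrArg Subtype.val h1
  obtain ⟨f, f', hf, hf', hfl, hfl', y, hy⟩ := exists_transv' hW e halt hnd hV0
  obtain ⟨g, hg⟩ := hiso f hf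
  obtain ⟨g', hg'⟩ := hiso f' hf'
  have hgp : ∀ (f : W ≃+ W) (g : Γ), (∀ u : W, g • (u : A) = f u) → (∀ x, (fun y => f y)^[l] x = x) →
      ∀ a ∈ W, g ^ l • a = a := by
    intro f g hg hfl a ha
    have h1 : ∀ (n : ℕ) (u : W), g ^ n • (u : A) = ((fun z => f z)^[n] u : W) := by
      intro n
      induction n with
      | zero =>
        intro u
        rw [pow_zero, one_smul, Function.iterate_zero, id]
      | succ n ih =>
        intro u
        rw [pow_succ, mul_smul, hg, ih, Function.iterate_succ_apply]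
    have h2 := h1 l ⟨a, ha⟩
    rw [hfl] at h2
    exact h2
  obtain ⟨γ, n, hγ, hγW⟩ := exists_pow W N hN g (hgp f g hg hfl)
  obtain ⟨γ', n', hγ', hγW'⟩ := exists_pow W N hN g' (hgp f' g' hg' hfl')
  have hle : ∀ (γ : Γ) (n i : ℕ), (∀ v ∈ N, γ ^ l ^ n • v = v) → n ≤ i → ∀ v ∈ N, γ ^ l ^ i • v = v := by
    intro γ n i h hni v hv
    obtain ⟨j, rfl⟩ := Nat.exists_eq_add_of_le hni
    have h2 : ∀ s : ℕ, γ ^ (l ^ n * s) • v = v := by
      intro s
      induction s with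
      | zero => rw [mul_zero, pow_zero, one_smul]
      | succ s ih => rw [Nat.mul_succ, pow_add, mul_smul, h v hv, ih]
    rw [pow_add]
    exact h2 _
  refine ⟨γ, γ', max n n', hle γ n _ hγ (le_max_left _ _), hle γ' n' _ hγ' (le_max_right _ _), y, h1 y.2,
    fun h => hy ?_⟩
  have hmem : ∀ (f : W ≃+ W) (g : Γ), (∀ u : W, g • (u : A) = f u) → ∀ a ∈ W, g • a ∈ W := by
    intro f g hg a ha
    have h2 := hg ⟨a, ha⟩
    rw [show g • a = _ from h2]
    exact (f ⟨a, ha⟩).2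
  have e1 : (γ * γ') • (y : A) = f (f' y) := by
    rw [mul_smul, hγW' _ y.2, hγW _ (hmem f' g' hg' _ y.2), hg', hg]
  have e2 : (γ' * γ) • (y : A) = f' (f y) := by
    rw [mul_smul, hγW _ y.2, hγW' _ (hmem f g hg _ y.2), hg, hg']
  rw [e1, e2] at h
  exact Subtype.ext h

end Abs

section

variable {ℓ : ℕ} {k F E : Type} [Field k] [Field F] [Algebra k F] [Field E] [Algebra F E] {t x : E}
  {V W U : Subgroup Eˣ}

variable (hG : ∀ γ ∈ galois ℓ k F t x, ∀ u ∈ V, Units.map (γ : E →* E) u ∈ V)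

/-- The order of the image of the Galois group. -/
theorem range_eq (N : Subgroup Eˣ) :
    Nat.card (Set.range fun (γ : galois ℓ k F t x) (u : N) =>
      ((Units.map ((γ : E ≃+* E) : E →* E) u : Eˣ) : Eˣ ⧸ V)) =
      Nat.card (Set.range fun (γ : galois ℓ k F t x) (v : quo V N) =>
        (actV ℓ k F t x hG).smul γ (v : Additive (Eˣ ⧸ V))) := by
  symm
  refine range_congr _ _ Additive.toMul
      (fun u => ⟨Additive.ofMul (QuotientGroup.mk (u : Eˣ) : Eˣ ⧸ V), ⟨u, u.2, rfl⟩⟩) ?_ ?_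
  · intro w
    obtain ⟨u, hu, hw⟩ := w.2
    exact ⟨⟨u, hu⟩, Subtype.ext hw⟩
  · intro γ u
    rfl

theorem quo_mono {N N' : Subgroup Eˣ} (h : N ≤ N') : quo V N ≤ quo V N' := by
  rintro w ⟨u, hu, rfl⟩
  exact ⟨u, h hu, rfl⟩

theorem quo_inf_ne_bot {N : Subgroup Eˣ} (h : V < N ⊓ W) : quo V N ⊓ quo V W ≠ ⊥ := by
  intro hbot
  obtain ⟨u, hu, huP⟩ := Set.exists_of_ssubset h
  have h1 : (Additive.ofMul (QuotientGroup.mk u : Eˣ ⧸ V)) ∈ quo V N ⊓ quo V W := ⟨⟨u, hu.1, rfl⟩, ⟨u, hu.2, rfl⟩⟩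
  rw [hbot, AddSubgroup.mem_bot] at h1
  exact huP ((QuotientGroup.eq_one_iff u).1 h1)

include hG

theorem HasLargeImage.isRigid [hl : Fact ℓ.Prime] (hPV : powers ℓ E ≤ V)
    (h : HasLargeImage ℓ k F t x V U) : IsRigid ℓ k F t x U V := by
  obtain ⟨W, g, m, hVW, hWU, hW, hm, hmeet, h⟩ := h
  intro N hVN hNU hN r hr
  have hNW := hmeet N hVN hNU hN
  have hne := quo_inf_ne_bot hNW
  have hst : ∀ γ : galois ℓ k F t x, ∀ v ∈ quo V N, (actV ℓ k F t x hG).smul γ v ∈ quo V N := by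
    rintro γ w ⟨u, hu, rfl⟩
    exact ⟨_, hN γ γ.2 u hu, rfl⟩
  have hrm : r ≤ m := by
    have h1 := Subgroup.relIndex_mul_relIndex V N U hVN.le hNU
    rw [hr, hm] at h1
    exact (Nat.pow_dvd_pow_iff_le_right hl.out.one_lt).1 (Dvd.intro _ h1)
  have hle : r + padicValNat ℓ r.factorial ≤ m + padicValNat ℓ m.factorial := by
    refine add_le_add hrm ?_
    rw [← padicValNat_dvd_iff_le (Nat.factorial_ne_zero m)]
    exact pow_padicValNat_dvd.trans (Nat.factorial_dvd_factorial hrm)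
  have hfin : Finite (quo V N) := Nat.finite_of_card_ne_zero (by
    rw [card_quo, hr]
    exact pow_ne_zero _ hl.out.ne_zero)
  have hdvd : ∀ c : ℕ, m + padicValNat ℓ m.factorial < c →
      ℓ ^ c ∣ Nat.card (Set.range fun (γ : galois ℓ k F t x) (v : quo V N) =>
        (actV ℓ k F t x hG).smul γ (v : Additive (Eˣ ⧸ V))) → IsLarge ℓ k F t x V N r := by
    intro c hc hd
    unfold IsLarge
    rw [range_eq hG]
    refine (hle.trans_lt hc).trans_le ((padicValNat_dvd_iff_le ?_).1 hd)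
    have hf2 : Finite (Set.range fun (γ : galois ℓ k F t x) (v : quo V N) =>
        (actV ℓ k F t x hG).smul γ (v : Additive (Eˣ ⧸ V))) := by
      have : Finite (quo V N → quo V N) := inferInstance
      refine Set.Finite.subset (Set.finite_range fun (s : quo V N → quo V N) (v : quo V N) =>
        (s v : Additive (Eˣ ⧸ V))) ?_
      rintro _ ⟨γ, rfl⟩
      exact ⟨fun v => ⟨_, hst γ v v.2⟩, rfl⟩
    have : Nonempty (Set.range fun (γ : galois ℓ k F t x) (v : quo V N) =>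
        (actV ℓ k F t x hG).smul γ (v : Additive (Eˣ ⧸ V))) := ⟨⟨_, 1, rfl⟩⟩
    exact Nat.card_pos.ne'
  rcases h with ⟨⟨e, he, halt, hiso⟩, hnum⟩ | ⟨⟨rfl, q, hq, he, hiso⟩, hnum⟩
  · have hiso' : ∀ f : quo V W ≃+ quo V W, (∀ v w, pairing he hVW (f v) (f w) = pairing he hVW v w) →
        ∃ γ : galois ℓ k F t x, ∀ v : quo V W, (actV ℓ k F t x hG).smul γ (v : Additive (Eˣ ⧸ V)) = f v :=
      fun f hf => induced hG f (hiso _ (fn_isInjectiveEndomorphism f) fun u hu v hv => by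
        have h6 := hf (cls hu) (cls hv)
        rw [pairing_apply, pairing_apply] at h6
        rw [fn_apply f hu, fn_apply f hv, h6]
        exact pairing_congr he hVW (rep_mem _) hu (rep_mem _) hv (rep_cls hu) (rep_cls hv))
    rcases hnum with hnum | hnum
    · left
      have h1 := @symp_dvd (galois ℓ k F t x) (Additive (Eˣ ⧸ V)) _ _ (actV ℓ k F t x hG) ℓ hl
        (quo V W) (quo_smul hPV) (pairing he hVW) (fun c => halt _ (rep_mem c)) (pairing_nd he hVW) hiso'
        g (by rw [card_quo, hW]) (quo V N) hne hst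
      exact hdvd _ hnum h1.2
    · right
      left
      have h1 := @symp_twisted (galois ℓ k F t x) (Additive (Eˣ ⧸ V)) _ _ (actV ℓ k F t x hG) ℓ hl
        (quo V W) (quo_smul hPV) (pairing he hVW) (fun c => halt _ (rep_mem c)) (pairing_nd he hVW) hiso'
        (quo V N) hfin hne hst
      obtain ⟨γ, γ', n, h3, h4, w, hw, h5⟩ := h1
      have hdiv : ∀ u u' : Eˣ, (Additive.ofMul (QuotientGroup.mk u : Eˣ ⧸ V)) =
          Additive.ofMul (QuotientGroup.mk u' : Eˣ ⧸ V) ↔ u / u' ∈ V := by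
        intro u u'
        rw [← QuotientGroup.eq_iff_div_mem]
        exact Iff.rfl
      have hk : ∀ (γ : galois ℓ k F t x), (∀ v ∈ quo V N, (actV ℓ k F t x hG).smul (γ ^ ℓ ^ n) v = v) →
          ∀ u ∈ N, Units.map (((γ : E ≃+* E) ^ ℓ ^ n : E ≃+* E) : E →* E) u / u ∈ V := by
        intro γ hγ u hu
        have h7 := hγ (Additive.ofMul (QuotientGroup.mk u : Eˣ ⧸ V)) ⟨u, hu, rfl⟩
        rw [actV_mk, hdiv] at h7
        exact h7
      obtain ⟨u, hu, rfl⟩ := hw
      refine ⟨?_, γ, γ.2, γ', γ'.2, n, hk γ h3, hk γ' h4, u, hu, fun h8 => h5 ?_⟩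
      · refine lt_of_le_of_lt ?_ hnum
        rcases Nat.eq_zero_or_pos r with rfl | hr0
        · rw [pow_zero]
          rcases Nat.eq_zero_or_pos m with rfl | hm0
          · rw [pow_zero]
          · exact Nat.one_le_pow _ _ (by omega)
        · exact (Nat.pow_le_pow_left (by omega) r).trans (Nat.pow_le_pow_right (by omega) hrm)
      · exact (hdiv _ _).2 h8
  · left
    -- `q` depends only on the class
    have hqc : ∀ {u u' : Eˣ}, u ∈ W → u' ∈ W → u / u' ∈ V → q u = q u' := by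
      intro u u' hu hu' h
      have h3 := (he.left _ (hVW h)).2 h u' hu'
      simp only [div_mul_cancel, hq _ h, sub_zero] at h3
      exact sub_eq_zero.1 h3
    have hgm : 2 * g ≤ m := by
      have h1 := Subgroup.relIndex_mul_relIndex V W U hVW hWU
      rw [hW, hm] at h1
      exact (Nat.pow_dvd_pow_iff_le_right (Nat.lt_succ_self 1)).1 (Dvd.intro _ h1)
    have hg3 : 3 ≤ g := by
      by_contra hcon
      have : g = 0 ∨ g = 1 ∨ g = 2 := by omega
      rcases this with rfl | rfl | rfl <;> omega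
    have h1 := @orth_dvd (galois 2 k F t x) (Additive (Eˣ ⧸ V)) _ _ (actV 2 k F t x hG)
      (quo V W) (quo_smul hPV) (fun c => q (rep c)) (pairing he hVW) (fun c d => by
        rw [pairing_apply, hqc (rep_mem _) (mul_mem (rep_mem c) (rep_mem d)) (rep_add c d)]
        ring) (pairing_nd he hVW)
      (fun f hf => induced hG f (hiso _ (fn_isInjectiveEndomorphism f) fun u hu => by
        have h6 := hf (cls hu)
        rw [fn_apply f hu, h6]
        exact hqc (rep_mem _) hu (rep_cls hu)))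
      g hg3 (by rw [card_quo, hW]) (quo V N) hne hst
    exact hdvd _ hnum h1.2

end

end Pool.Agent.Lib.MP_89bcae_ag.Zm
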