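import Mathlib
import Pool.Agent.Lib.MP_89bcae_ag.Zm.Main
import Pool.Agent.Lib.MP_89bcae_ag.Zm.Crit
import Pool.Agent.Lib.MP_89bcae_ag.Zq.Fin

/-!
# The final theorems
-/

attribute [local instance 100000] Pool.Agent.Lib.MP_89bcae_ag.Brt.tffFields
attribute [local instance 100000] Pool.Agent.Lib.MP_89bcae_ag.Wt.ifrNF Pool.Agent.Lib.MP_89bcae_ag.Wt.iddNF

open Polynomial IsDedekindDomain

open scoped Classical

namespace Pool.Agent.Lib.MP_89bcae_ag.Zm

open Pool.Agent.Lib.MP_89bcae_ag.Wt Pool.Agent.Lib.MP_89bcae_ag.Wt.Lns Pool.Agent.Lib.MP_89bcae_ag.Bra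
  Pool.Agent.Lib.MP_89bcae_ag.Brt Pool.Agent.Lib.MP_89bcae_ag.Zc

open Pool.Agent.Lib.MP_89bcae_ag.Zp (UB ltprop_ub lhyp_of good_of)

open Pool.Agent.Lib.MP_89bcae_ag.Zs hiding IsBranchCurve IsCritical IsSymplectic IsOrthogonal IsSmoothAt unramified
  critical_contra l3_val l4_chart lf_z isBranchCurve_red isCritical_red transfer induced

open Pool.Agent.Lib.MP_89bcae_ag.Zq (IsRigid points ptGroup ptGroup_stable points_map NTJ exists_red ntj_gen ntg_gen
  mem_ptGroup isRigid_red points_red ntj_congr ntj_mono brauer_of_ntj)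

section

variable {ℓ : ℕ} {k F : Type} [Field k] [Field F] [Algebra k F] {f : k[X][X]}

/-- The number `e`. -/
theorem IsBranch.exists_isBranchCurve (hℓ : 0 < ℓ) (hB : IsBranch ℓ F f) : ∃ e, Zp.IsBranchCurve ℓ e F f := by
  refine ⟨ℓ * ∑ i ∈ Finset.range f.natDegree, (f.coeff i).natDegree, hB.monic, hB.coprime, hB.separable,
    hB.irreducible, dvd_mul_right _ _, fun i => ?_⟩
  rcases lt_trichotomy i f.natDegree with hi | rfl | hi
  · calc (f.coeff i).natDegree ≤ ∑ i ∈ Finset.range f.natDegree, (f.coeff i).natDegree :=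
          Finset.single_le_sum (f := fun i => (f.coeff i).natDegree) (fun _ _ => Nat.zero_le _)
            (Finset.mem_range.2 hi)
      _ = 1 * (∑ i ∈ Finset.range f.natDegree, (f.coeff i).natDegree) * 1 := by ring
      _ ≤ ℓ * (∑ i ∈ Finset.range f.natDegree, (f.coeff i).natDegree) * (f.natDegree - i) :=
          Nat.mul_le_mul (Nat.mul_le_mul_right _ hℓ) (by omega)
  · rw [hB.monic.coeff_natDegree, natDegree_one]
    exact Nat.zero_le _
  · rw [coeff_eq_zero_of_natDegree_lt hi, natDegree_zero]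
    exact Nat.zero_le _

lemma powers_le_unramified {E : Type} [Field E] [Algebra F E] (f : k[X][X]) (t x : E) :
    powers ℓ E ≤ unramified ℓ F f t x := by
  rintro _ ⟨w, rfl⟩
  refine ⟨⟨Algebra.norm (IntermediateField.adjoin F {t}) (w : E), ?_⟩, fun φ τ ξ _ => ⟨0, fun _ => rfl,
    fun O _ r _ _ _ => ⟨w, ?_⟩⟩⟩
  · show Algebra.norm (IntermediateField.adjoin F {t}) (((w ^ ℓ : Eˣ)) : E) = _
    rw [Units.val_pow_eq_pow_val, map_pow]
  · show O.valuation (((w ^ ℓ : Eˣ)) : E) = _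
    rw [Units.val_pow_eq_pow_val, zpow_zero, one_mul]

variable (k₁ : IntermediateField k F)

lemma isBranch_red (hB : IsBranch ℓ F f) : IsBranch ℓ F (red k₁ f) := by
  have hd : (red k₁ f).natDegree = f.natDegree := hB.monic.natDegree_map _
  have hinj : Function.Injective (mapRingHom (algebraMap k k₁)) := map_injective _ (algebraMap k k₁).injective
  refine ⟨hB.monic.map _, ?_, ?_, ?_⟩
  · rw [hd]
    exact hB.coprime
  · rw [red, derivative_map, Ne, Polynomial.map_eq_zero_iff hinj]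
    exact hB.separable
  · rw [ext_red]
    exact hB.irreducible

lemma unramified_red {E : Type} [Field E] [Algebra F E] (t x : E) :
    unramified ℓ F (red k₁ f) t x = unramified ℓ F f t x := by
  have h : ∀ (φ : F[X][X]) (τ ξ : E), IsChart ℓ F (red k₁ f) t x φ τ ξ ↔ IsChart ℓ F f t x φ τ ξ := by
    intro φ τ ξ
    unfold IsChart
    rw [ext_red]
  have hd : (red k₁ f).natDegree = f.natDegree :=
    natDegree_map_eq_of_injective (map_injective _ (algebraMap k k₁).injective) f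
  ext u
  constructor
  · rintro ⟨h1, h2⟩
    refine ⟨h1, fun φ τ ξ hc => ?_⟩
    rw [← hd]
    exact h2 φ τ ξ ((h φ τ ξ).2 hc)
  · rintro ⟨h1, h2⟩
    refine ⟨h1, fun φ τ ξ hc => ?_⟩
    rw [hd]
    exact h2 φ τ ξ ((h φ τ ξ).1 hc)

end

section

variable {k F L Ω : Type} [Field k] [Field F] [Algebra k F] [IsAlgClosure k F] [Field L] [Algebra F[X] L]
  [IsFractionRing F[X] L] [Field Ω] [Algebra L Ω] [IsAlgClosure L Ω] {ℓ : ℕ} {f : k[X][X]} {ζ : k}

/-- The invariant classes are trivial. -/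
theorem ntg_unramified [hl : Fact ℓ.Prime] (hk : (ℓ : k) ≠ 0) (hζ : IsPrimitiveRoot ζ ℓ) (hB : IsBranch ℓ F f)
    {E : Type} [Field E] [Algebra F E] {t x : E} (hE : IsCurveField F f t x)
    [hG : IsGood ℓ (cOver k F L Ω f)]
    (hC : IsRigid ℓ k F t x (unramified ℓ F f t x) (powers ℓ E))
    (k' : IntermediateField k F) [FiniteDimensional k k'] :
    NTg ℓ 1 (curveL k F L f) (UB F ℓ (curveL k F L f)) (AutK k F L Ω k') := by
  obtain ⟨e, hB'⟩ := hB.exists_isBranchCurve hl.out.pos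
  have H : LHyp ℓ k F L f ζ := lhyp_of hl.out hk hζ hB'
  obtain ⟨hsep, hG₀⟩ := good_of (Ω := Ω) (L := L) hl.out hk hB'
  have hirr : Irreducible (curveL k F L f) := by
    have h1 : (Zs.ext F f).Monic := hB.monic.map _
    have h2 := (h1.irreducible_iff_irreducible_map_fraction_map (K := L)).1 hB.irreducible
    rwa [← map_base_eq] at h2
  exact ntg_gen hζ hB.monic H hirr hsep hE ltprop_ub (powers_le_unramified f t x)
    (contains_unramified hl.out hk hζ hB) hC k'

/-- The invariant classes come from points. -/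
theorem ntj_unramified [hl : Fact ℓ.Prime] (hk : (ℓ : k) ≠ 0) (hζ : IsPrimitiveRoot ζ ℓ) (hB : IsBranch ℓ F f)
    {E : Type} [Field E] [Algebra F E] {t x : E} (hE : IsCurveField F f t x)
    [hG : IsGood ℓ (cOver k F L Ω f)]
    (hC : IsRigid ℓ k F t x (unramified ℓ F f t x) (points ℓ F f t x))
    (k' : IntermediateField k F) [FiniteDimensional k k'] :
    NTJ ℓ (curveL k F L f) (UB F ℓ (curveL k F L f)) (AutK k F L Ω k') := by
  obtain ⟨e, hB'⟩ := hB.exists_isBranchCurve hl.out.pos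
  have H : LHyp ℓ k F L f ζ := lhyp_of hl.out hk hζ hB'
  obtain ⟨hsep, hG₀⟩ := good_of (Ω := Ω) (L := L) hl.out hk hB'
  have hirr : Irreducible (curveL k F L f) := by
    have h1 : (Zs.ext F f).Monic := hB.monic.map _
    have h2 := (h1.irreducible_iff_irreducible_map_fraction_map (K := L)).1 hB.irreducible
    rwa [← map_base_eq] at h2
  have hmon : (curveL k F L f).Monic := hB.monic.map _
  refine ntj_gen hζ hB.monic H hirr hsep hE ltprop_ub
    (contains_unramified hl.out hk hζ hB) (fun θ₀ h0 hz c hc u hu hk => ?_) hC k'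
  have h := mem_ptGroup H hz hirr hsep hmon h0 hc hu u.ne_zero hk
  rwa [Units.mk0_val] at h

end

/-- The group of the classes of the points is stable under the Galois group. -/
theorem points_stable {ℓ : ℕ} [hl : Fact ℓ.Prime] {k F : Type} [Field k] [Field F] [Algebra k F]
    [IsAlgClosure k F] (hk : (ℓ : k) ≠ 0) {f : k[X][X]} (hf : f.Monic)
    {E : Type} [Field E] [Algebra F E] {t x : E} (hE : IsCurveField F f t x) :
    ∀ γ ∈ galois ℓ k F t x, ∀ u ∈ points ℓ F f t x, Units.map (γ : E →* E) u ∈ points ℓ F f t x := by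
  have hℓ : ℓ.Prime := hl.out
  obtain ⟨ζ, k₁, hζk, hζ, hk₁, hfin, hcl, hζ₁, hk₁0⟩ := exists_red hℓ (k := k) (F := F) hk
  rw [← points_red k₁, ← galois_red k₁ hζ.pow_eq_one hk₁ t x]
  have hf₁ : (red k₁ f).Monic := hf.map _
  have hE₁ := isCurveField_red k₁ hE
  let L := FractionRing F[X]
  let Ω := AlgebraicClosure L
  obtain ⟨lam, ι, h1, h2, h3, hroot, hfin, hadj⟩ := exists_emb (L := L) (Ω := Ω) hf₁ hE₁
  obtain ⟨ρ, hρ1, hρ2, hρ3⟩ := exists_resE hℓ hζ₁ hf₁ hE₁ lam ι h1 h2 h3 (Gst k₁ F L (ι x)) (fun γ => Iff.rfl)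
  have hιinj : Function.Injective ι := ι.injective
  have hιu : Function.Injective (Units.map (ι : E →* Ω)) := Units.map_injective hιinj
  have hmap := points_map (k := k₁) (ℓ := ℓ) (f := red k₁ f) lam ι h1 h2 h3 hadj hℓ.ne_zero
  have hpt : ∀ u : Eˣ, u ∈ points ℓ F (red k₁ f) t x ↔
      Units.map (ι : E →* Ω) u ∈ ptGroup ℓ (curveL k₁ F L (red k₁ f)) (ι x) := by
    intro u
    rw [← hmap]
    exact (Subgroup.mem_map_iff_mem hιu).symm
  intro γ hγ u hu
  obtain ⟨g, rfl⟩ := hρ3 γ hγ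
  rw [hpt] at hu ⊢
  have h4 := ptGroup_stable g hu
  have h5 : Units.map (ι : E →* Ω) (Units.map ((ρ g : E ≃+* E) : E →* E) u) =
      Units.map (((g : AutO k₁ F L Ω) : Ω ≃+* Ω) : Ω →* Ω) (Units.map (ι : E →* Ω) u) := Units.ext (hρ1 g u)
  rw [h5]
  exact h4

/-- The theorem with the criterion for all classes. -/
theorem coverTate_of_rigid {ℓ : ℕ} [hl : Fact ℓ.Prime] {k F : Type} [Field k] [Field F] [Algebra k F]
    [IsAlgClosure k F] (hk : (ℓ : k) ≠ 0) {f : k[X][X]} (hB : IsBranch ℓ F f)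
    {E : Type} [Field E] [Algebra F E] {t x : E} (hE : IsCurveField F f t x)
    (hC : IsRigid ℓ k F t x (unramified ℓ F f t x) (powers ℓ E) ∨
      HasLargeImage ℓ k F t x (powers ℓ E) (unramified ℓ F f t x)) : CoverTate ℓ F f := by
  have hℓ : ℓ.Prime := hl.out
  have hC0 : IsRigid ℓ k F t x (unramified ℓ F f t x) (powers ℓ E) := by
    rcases hC with h | h
    · exact h
    · refine h.isRigid (fun γ _ u hu => ?_) le_rfl
      obtain ⟨w, rfl⟩ := hu
      exact ⟨Units.map (γ : E →* E) w, by simp [map_pow]⟩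
  obtain ⟨ζ, k₁, hζk, hζ, hk₁, hfin, hcl, hζ₁, hk₁0⟩ := exists_red hℓ (k := k) (F := F) hk
  obtain ⟨e, hB'⟩ := hB.exists_isBranchCurve hl.out.pos
  refine Zp.coverTate_of' hℓ hk hB' fun L Ω _ _ _ _ _ _ _ k' hk' => ?_
  obtain ⟨k'', h1, h2⟩ := exists_autK (L := L) (Ω := Ω) k₁ k' hfin hk'
  have hgood : IsGood ℓ (((red k₁ f).map (base k₁ F L L)).map (algebraMap L Ω)) := by
    rw [map_base_red]
    infer_instance
  have hC' : IsRigid ℓ k₁ F t x (unramified ℓ F (red k₁ f) t x) (powers ℓ E) := by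
    rw [unramified_red]
    exact isRigid_red k₁ hζ.pow_eq_one hk₁ hC0
  have h3 := ntg_unramified (ζ := (⟨ζ, hζk⟩ : k₁)) (f := red k₁ f) (L := L) (Ω := Ω) (hG := hgood) hk₁0 hζ₁
    (isBranch_red k₁ hB) (isCurveField_red k₁ hE) hC' k''
  exact ntg_mono h2 (Zp.ntg_congr (map_base_red (L := L) k₁ (f := f)) h3)

/-- The theorem with the criterion relative to the classes of the points. -/
theorem brauer_of_rigid {ℓ : ℕ} [hl : Fact ℓ.Prime] {k F : Type} [Field k] [Field F] [Algebra k F]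
    [IsAlgClosure k F] (hk : (ℓ : k) ≠ 0) {f : k[X][X]} (hB : IsBranch ℓ F f)
    {E : Type} [Field E] [Algebra F E] {t x : E} (hE : IsCurveField F f t x)
    (hC : IsRigid ℓ k F t x (unramified ℓ F f t x) (points ℓ F f t x) ∨
      HasLargeImage ℓ k F t x (points ℓ F f t x) (unramified ℓ F f t x)) :
    ∀ (K S : Type) [Field K] [Algebra F K] [Field S] [Algebra K S] [IsAlgClosure K S] (t x y : K),
      IsCoverField ℓ F f t x y → ∀ k' : IntermediateField k F, FiniteDimensional k k' →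
        BrauerInvariantsTrivial ℓ S k' t x y := by
  have hℓ : ℓ.Prime := hl.out
  have hC0 : IsRigid ℓ k F t x (unramified ℓ F f t x) (points ℓ F f t x) := by
    rcases hC with h | h
    · exact h
    · exact h.isRigid (points_stable hk hB.monic hE) le_sup_left
  obtain ⟨ζ, k₁, hζk, hζ, hk₁, hfin, hcl, hζ₁, hk₁0⟩ := exists_red hℓ (k := k) (F := F) hk
  obtain ⟨e, hB'⟩ := hB.exists_isBranchCurve hl.out.pos
  refine brauer_of_ntj hℓ hk hB' fun L Ω _ _ _ _ _ _ _ k' hk' => ?_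
  obtain ⟨k'', h1, h2⟩ := exists_autK (L := L) (Ω := Ω) k₁ k' hfin hk'
  have hgood : IsGood ℓ (((red k₁ f).map (base k₁ F L L)).map (algebraMap L Ω)) := by
    rw [map_base_red]
    infer_instance
  have hC' : IsRigid ℓ k₁ F t x (unramified ℓ F (red k₁ f) t x) (points ℓ F (red k₁ f) t x) := by
    rw [unramified_red, points_red]
    exact isRigid_red k₁ hζ.pow_eq_one hk₁ hC0
  have h3 := ntj_unramified (ζ := (⟨ζ, hζk⟩ : k₁)) (f := red k₁ f) (L := L) (Ω := Ω) (hG := hgood) hk₁0 hζ₁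
    (isBranch_red k₁ hB) (isCurveField_red k₁ hE) hC' k''
  exact ntj_mono h2 (ntj_congr (map_base_red (L := L) k₁ (f := f)) h3)

end Pool.Agent.Lib.MP_89bcae_ag.Zm
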