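import Mathlib
import Pool.Agent.Lib.MP_89bcae_ag.Zq.DefsJ

/-!
# Large images of the Galois group
-/

namespace Pool.Agent.Lib.MP_89bcae_ag.Zm

open Pool.Agent.Lib.MP_89bcae_ag.Zs (galois)

open Pool.Agent.Lib.MP_89bcae_ag.Zq (IsNondegeneratePairing IsInjectiveEndomorphism IsInducedBy)

section

variable (ℓ : ℕ) (k F : Type) {E : Type} [Field k] [Field F] [Algebra k F] [Field E] [Algebra F E] (t x : E)
  (V W U : Subgroup Eˣ)

/-- There is a nondegenerate alternating pairing on `W / V`, with values in `ℤ/ℓ`, such that all the automorphisms of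
`W / V` which preserve the pairing are induced by elements of the Galois group. -/
def IsSymplectic : Prop :=
  ∃ e : Eˣ → Eˣ → ZMod ℓ, IsNondegeneratePairing ℓ V W e ∧ (∀ u ∈ W, e u u = 0) ∧
    ∀ φ : Eˣ → Eˣ, IsInjectiveEndomorphism V W φ →
      (∀ u ∈ W, ∀ v ∈ W, e (φ u) (φ v) = e u v) → IsInducedBy ℓ k F t x V W φ

/-- The prime `ℓ` is `2`, and there is a function `q` on `W / V` with values in `ℤ/2`, such that `q(u v) - q(u) - q(v)` is
a nondegenerate pairing (in other words, `q` is a nondegenerate quadratic form) and that all the automorphisms of `W / V`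
which preserve `q` are induced by elements of the Galois group. -/
def IsOrthogonal : Prop :=
  ℓ = 2 ∧ ∃ q : Eˣ → ZMod ℓ, (∀ u ∈ V, q u = 0) ∧
    IsNondegeneratePairing ℓ V W (fun u v => q (u * v) - q u - q v) ∧
    ∀ φ : Eˣ → Eˣ, IsInjectiveEndomorphism V W φ → (∀ u ∈ W, q (φ u) = q u) →
      IsInducedBy ℓ k F t x V W φ

/-- There is a group `W` with `V ≤ W ≤ U` which contains more than `V` of each group `N`, with `V < N ≤ U`, stable under the
Galois group, such that the image of the Galois group in the group of the automorphisms of `W / V` contains a symplectic or an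
orthogonal group which is large: the orders of `W / V` and of `U / V` are `ℓ ^ (2 g)` and `ℓ ^ m`, and `ℓ ^ m m!` is not divisible by
`ℓ ^ (g ^ 2)` (respectively by `2 ^ (g (g - 1))`), or `ℓ > (13 m) ^ m`. -/
def HasLargeImage : Prop :=
  ∃ (W : Subgroup Eˣ) (g m : ℕ), V ≤ W ∧ W ≤ U ∧ V.relIndex W = ℓ ^ (2 * g) ∧ V.relIndex U = ℓ ^ m ∧
    (∀ N : Subgroup Eˣ, V < N → N ≤ U → (∀ γ ∈ galois ℓ k F t x, ∀ u ∈ N, Units.map (γ : E →* E) u ∈ N) →
      V < N ⊓ W) ∧
    (IsSymplectic ℓ k F t x V W ∧ (m + padicValNat ℓ m.factorial < g ^ 2 ∨ (13 * m) ^ m < ℓ) ∨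
      IsOrthogonal ℓ k F t x V W ∧ m + padicValNat ℓ m.factorial < g * (g - 1))

end

end Pool.Agent.Lib.MP_89bcae_ag.Zm
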